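import Pool.Agent.KS6_6.SC.Fold
import Pool.Agent.KS6_6.UG.Defs

set_option autoImplicit false

/-!
Completeness of the composition: solutions of the relaxation of the base game give solutions of the
relaxation of the composed game.
-/

namespace Pool.Agent.KS6_6.SC

open Finset Pool.Agent.KS6_6.UG

section

variable {W W' A B : Type} [Fintype W] [DecidableEq W] [Fintype W'] [DecidableEq W']
  [Fintype A] [DecidableEq A] [Fintype B] [DecidableEq B]

/-- Pullback of a solution along maps of vertices and labels. -/
def pull (p : W' → W) (q : W' → A → B) (μ : W × A → W × A → ℝ) (x y : W' × B) : ℝ :=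
  ∑ a, ∑ a', if q x.1 a = x.2 ∧ q y.1 a' = y.2 then μ (p x.1, a) (p y.1, a') else 0

theorem pull_sdp (R : ℕ) (p : W' → W) (q : W' → A → B) (μ : W × A → W × A → ℝ)
    (hμ : LocalSdp R μ) : LocalSdp R (pull p q μ) := by
  constructor
  · intro f
    have h1 := hμ.psd (fun x => ∑ w : W', if p w = x.1 then f (w, q w x.2) else 0)
    refine le_trans h1 (le_of_eq ?_)
    have e1 : ∀ w w' : W', ∑ b, ∑ b', f (w, b) * f (w', b') * pull p q μ (w, b) (w', b') =
        ∑ a, ∑ a', f (w, q w a) * f (w', q w' a') * μ (p w, a) (p w', a') := by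
      intro w w'
      unfold pull
      simp only [Finset.mul_sum]
      have e2 : ∀ b : B, ∑ b', ∑ a, ∑ a', f (w, b) * f (w', b') *
          (if q w a = b ∧ q w' a' = b' then μ (p w, a) (p w', a') else 0) =
          ∑ a, ∑ a', ∑ b', f (w, b) * f (w', b') *
          (if q w a = b ∧ q w' a' = b' then μ (p w, a) (p w', a') else 0) := by
        intro b
        rw [Finset.sum_comm]
        refine Finset.sum_congr rfl fun a _ => ?_
        rw [Finset.sum_comm]
      simp only [e2]
      rw [Finset.sum_comm]
      refine Finset.sum_congr rfl fun a _ => ?_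
      rw [Finset.sum_comm]
      refine Finset.sum_congr rfl fun a' _ => ?_
      rw [Finset.sum_eq_single (q w a)]
      · rw [Finset.sum_eq_single (q w' a')]
        · rw [if_pos ⟨rfl, rfl⟩]
        · intro b' _ hb'
          rw [if_neg fun h3 => hb' h3.2.symm, mul_zero]
        · intro h3; exact absurd (Finset.mem_univ _) h3
      · intro b _ hb
        apply Finset.sum_eq_zero
        intro b' _
        rw [if_neg fun h3 => hb h3.1.symm, mul_zero]
      · intro h3; exact absurd (Finset.mem_univ _) h3
    have e3 : ∑ x : W' × B, ∑ y : W' × B, f x * f y * pull p q μ x y =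
        ∑ w, ∑ w', ∑ a, ∑ a', f (w, q w a) * f (w', q w' a') * μ (p w, a) (p w', a') := by
      rw [Fintype.sum_prod_type]
      refine Finset.sum_congr rfl fun w _ => ?_
      simp only [← e1]
      have : ∀ b : B, ∑ y : W' × B, f (w, b) * f y * pull p q μ (w, b) y =
          ∑ w', ∑ b', f (w, b) * f (w', b') * pull p q μ (w, b) (w', b') := fun b => by
        rw [Fintype.sum_prod_type]
      simp only [this]
      rw [Finset.sum_comm]
    rw [e3]
    -- the left side
    have e4 : ∀ x y : W × A, (∑ w : W', if p w = x.1 then f (w, q w x.2) else 0) *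
        (∑ w : W', if p w = y.1 then f (w, q w y.2) else 0) * μ x y =
        ∑ w : W', ∑ w' : W', if p w = x.1 ∧ p w' = y.1 then
          f (w, q w x.2) * f (w', q w' y.2) * μ (p w, x.2) (p w', y.2) else 0 := by
      intro x y
      rw [Finset.sum_mul_sum, Finset.sum_mul]
      refine Finset.sum_congr rfl fun w _ => ?_
      rw [Finset.sum_mul]
      refine Finset.sum_congr rfl fun w' _ => ?_
      by_cases h2 : p w = x.1 <;> by_cases h3 : p w' = y.1
      · rw [if_pos h2, if_pos h3, if_pos ⟨h2, h3⟩, h2, h3]
      · rw [if_neg h3, if_neg (show ¬ (p w = x.1 ∧ p w' = y.1) from fun h4 => h3 h4.2)]; ring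
      · rw [if_neg h2, if_neg (show ¬ (p w = x.1 ∧ p w' = y.1) from fun h4 => h2 h4.1)]; ring
      · rw [if_neg h2, if_neg (show ¬ (p w = x.1 ∧ p w' = y.1) from fun h4 => h2 h4.1)]; ring
    simp only [e4]
    have e5 : ∀ x : W × A, ∑ y : W × A, ∑ w : W', ∑ w' : W', (if p w = x.1 ∧ p w' = y.1 then
          f (w, q w x.2) * f (w', q w' y.2) * μ (p w, x.2) (p w', y.2) else 0) =
        ∑ w : W', ∑ w' : W', ∑ y : W × A, (if p w = x.1 ∧ p w' = y.1 then
          f (w, q w x.2) * f (w', q w' y.2) * μ (p w, x.2) (p w', y.2) else 0) := by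
      intro x
      rw [Finset.sum_comm]
      refine Finset.sum_congr rfl fun w _ => ?_
      rw [Finset.sum_comm]
    simp only [e5]
    rw [Finset.sum_comm]
    refine Finset.sum_congr rfl fun w _ => ?_
    rw [Finset.sum_comm]
    refine Finset.sum_congr rfl fun w' _ => ?_
    rw [Fintype.sum_prod_type, Finset.sum_eq_single (p w)]
    · refine Finset.sum_congr rfl fun a _ => ?_
      rw [Fintype.sum_prod_type, Finset.sum_eq_single (p w')]
      · refine Finset.sum_congr rfl fun a' _ => ?_
        rw [if_pos ⟨rfl, rfl⟩]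
      · intro v _ hv
        apply Finset.sum_eq_zero
        intro a' _
        rw [if_neg fun h3 => hv h3.2.symm]
      · intro h3; exact absurd (Finset.mem_univ _) h3
    · intro v _ hv
      apply Finset.sum_eq_zero
      intro a _
      apply Finset.sum_eq_zero
      intro y _
      rw [if_neg fun h3 => hv h3.1.symm]
    · intro h3; exact absurd (Finset.mem_univ _) h3
  · intro S hS
    obtain ⟨P, hP0, hP1, hP⟩ := hμ.loc (S.image p) (Finset.card_image_le.trans hS)
    refine ⟨fun y => ∑ x : W → A, if (fun w => q w (x (p w))) = y then P x else 0, ?_, ?_, ?_⟩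
    · intro y
      exact Finset.sum_nonneg fun x _ => by split_ifs; exacts [hP0 x, le_rfl]
    · rw [Finset.sum_comm]
      simp only [Finset.sum_ite_eq, Finset.mem_univ, if_true]
      exact hP1
    · intro u hu v hv b b'
      have h1 := hP (p u) (Finset.mem_image_of_mem p hu) (p v) (Finset.mem_image_of_mem p hv)
      unfold pull
      simp only [h1]
      have e1 : ∀ a a', (if q u a = b ∧ q v a' = b' then
          ∑ x : W → A, (if x (p u) = a ∧ x (p v) = a' then P x else 0) else 0) =
          ∑ x : W → A, (if (q u a = b ∧ q v a' = b') ∧ (x (p u) = a ∧ x (p v) = a') then P x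
            else 0) := by
        intro a a'
        by_cases h2 : q u a = b ∧ q v a' = b'
        · rw [if_pos h2]
          refine Finset.sum_congr rfl fun x _ => ?_
          by_cases h3 : x (p u) = a ∧ x (p v) = a'
          · rw [if_pos h3, if_pos ⟨h2, h3⟩]
          · rw [if_neg h3, if_neg fun h4 => h3 h4.2]
        · rw [if_neg h2]
          symm
          apply Finset.sum_eq_zero
          intro x _
          rw [if_neg fun h4 => h2 h4.1]
      simp only [e1]
      have e2 : ∀ a, ∑ a', ∑ x : W → A, (if (q u a = b ∧ q v a' = b') ∧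
          (x (p u) = a ∧ x (p v) = a') then P x else 0) =
          ∑ x : W → A, ∑ a', (if (q u a = b ∧ q v a' = b') ∧
          (x (p u) = a ∧ x (p v) = a') then P x else 0) := fun a => Finset.sum_comm
      simp only [e2]
      rw [Finset.sum_comm]
      have e3 : ∀ y : W' → B, (if y u = b ∧ y v = b' then
          ∑ x : W → A, (if (fun w => q w (x (p w))) = y then P x else 0) else 0) =
          ∑ x : W → A, (if (fun w => q w (x (p w))) = y then
            (if y u = b ∧ y v = b' then P x else 0) else 0) := by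
        intro y
        by_cases h2 : y u = b ∧ y v = b'
        · simp only [if_pos h2]
        · simp only [if_neg h2]
          symm
          apply Finset.sum_eq_zero
          intro x _
          split_ifs <;> rfl
      simp only [e3]
      rw [Finset.sum_comm (s := (Finset.univ : Finset (W' → B)))]
      refine Finset.sum_congr rfl fun x _ => ?_
      rw [Finset.sum_ite_eq, if_pos (Finset.mem_univ _)]
      rw [Finset.sum_eq_single (x (p u))]
      · rw [Finset.sum_eq_single (x (p v))]
        · by_cases h2 : q u (x (p u)) = b ∧ q v (x (p v)) = b'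
          · rw [if_pos ⟨h2, rfl, rfl⟩, if_pos h2]
          · rw [if_neg fun h3 => h2 h3.1, if_neg h2]
        · intro a' _ ha'
          rw [if_neg fun h3 => ha' h3.2.2.symm]
        · intro h3; exact absurd (Finset.mem_univ _) h3
      · intro a _ ha
        apply Finset.sum_eq_zero
        intro a' _
        rw [if_neg fun h3 => ha h3.2.1.symm]
      · intro h3; exact absurd (Finset.mem_univ _) h3

end

theorem sdp_nonneg {W A : Type} [Fintype W] [DecidableEq W] [Fintype A] [DecidableEq A]
    (μ : W × A → W × A → ℝ) (hμ : LocalSdp 2 μ) (x y : W × A) : 0 ≤ μ x y := by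
  obtain ⟨P, hP0, _, hP⟩ := hμ.loc {x.1, y.1} Finset.card_le_two
  have h1 := hP x.1 (by simp) y.1 (by simp) x.2 y.2
  have h2 : μ x y = μ (x.1, x.2) (y.1, y.2) := rfl
  rw [h2, h1]
  exact Finset.sum_nonneg fun l _ => by split_ifs; exacts [hP0 l, le_rfl]

/-- The objective value of one bundle of edges of the composed game. -/
theorem obj_edge {h l D : ℕ} {W W' : Type} {R : Type} [Fintype R] (p : W' → W)
    (q : W' → (Fin h → Bool) → (Fin l → Bool))
    (μ : W × (Fin h → Bool) → W × (Fin h → Bool) → ℝ) (hμ : ∀ x y, 0 ≤ μ x y)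
    (η : R → PP h l D) (e : ℝ)
    (hη : ∀ x, (1 - e) * Fintype.card R ≤ ∑ r, (if (η r).1 x = 0 then (1 : ℝ) else 0))
    (v v' : PP h l D → W') (s t : W) (hv : ∀ γ, p (v γ) = s) (hv' : ∀ γ, p (v' γ) = t)
    (hq : ∀ γ, q (v γ) = γ.1) (hq' : ∀ γ, q (v' γ) = γ.1) (c : Fin h → Bool) :
    (1 - e) * (2 ^ l * Fintype.card R * Fintype.card (PP h l D)) * ∑ a, μ (s, a) (t, a + c) ≤
      ∑ r, ∑ γ, ∑ b, ∑ i, pull p q μ (v γ, i) (v' (tr c (γ + η r + cst b)), i + b) := by
  classical
  have h1 : ∀ r γ b, ∑ a, (if (η r).1 a = 0 then μ (s, a) (t, a + c) else 0) ≤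
      ∑ i, pull p q μ (v γ, i) (v' (tr c (γ + η r + cst b)), i + b) := by
    intro r γ b
    unfold pull
    rw [Finset.sum_comm]
    refine Finset.sum_le_sum fun a _ => ?_
    simp only [hv, hv', hq, hq']
    have hnn : ∀ i a', 0 ≤ (if γ.1 a = i ∧ (tr c (γ + η r + cst b)).1 a' = i + b then
        μ (s, a) (t, a') else 0) := by
      intro i a'; split_ifs; exacts [hμ _ _, le_rfl]
    by_cases h2 : (η r).1 a = 0
    · rw [if_pos h2]
      have h3 : (tr c (γ + η r + cst b)).1 (a + c) = γ.1 a + b := by
        show γ.1 (a + c + c) + (η r).1 (a + c + c) + b = γ.1 a + b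
        rw [add_assoc a, pi_add_self, add_zero, h2, add_zero]
      calc μ (s, a) (t, a + c)
          = (if γ.1 a = γ.1 a ∧ (tr c (γ + η r + cst b)).1 (a + c) = γ.1 a + b then
              μ (s, a) (t, a + c) else 0) := by rw [if_pos ⟨rfl, h3⟩]
        _ ≤ ∑ a', (if γ.1 a = γ.1 a ∧ (tr c (γ + η r + cst b)).1 a' = γ.1 a + b then
              μ (s, a) (t, a') else 0) :=
            Finset.single_le_sum (f := fun a' => if γ.1 a = γ.1 a ∧
              (tr c (γ + η r + cst b)).1 a' = γ.1 a + b then μ (s, a) (t, a') else 0)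
              (fun a' _ => hnn (γ.1 a) a') (Finset.mem_univ (a + c))
        _ ≤ _ := Finset.single_le_sum (f := fun i => ∑ a', if γ.1 a = i ∧
              (tr c (γ + η r + cst b)).1 a' = i + b then μ (s, a) (t, a') else 0)
              (fun i _ => Finset.sum_nonneg fun a' _ => hnn i a') (Finset.mem_univ (γ.1 a))
    · rw [if_neg h2]
      exact Finset.sum_nonneg fun i _ => Finset.sum_nonneg fun a' _ => hnn i a'
  calc (1 - e) * (2 ^ l * Fintype.card R * Fintype.card (PP h l D)) * ∑ a, μ (s, a) (t, a + c)
      = 2 ^ l * Fintype.card (PP h l D) * ∑ a, ((1 - e) * Fintype.card R) *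
          μ (s, a) (t, a + c) := by rw [← Finset.mul_sum]; ring
    _ ≤ 2 ^ l * Fintype.card (PP h l D) * ∑ a, (∑ r, (if (η r).1 a = 0 then (1 : ℝ) else 0)) *
          μ (s, a) (t, a + c) := by
        apply mul_le_mul_of_nonneg_left _ (by positivity)
        exact Finset.sum_le_sum fun a _ => mul_le_mul_of_nonneg_right (hη a) (hμ _ _)
    _ = ∑ r, ∑ γ : PP h l D, ∑ b : Fin l → Bool,
          ∑ a, (if (η r).1 a = 0 then μ (s, a) (t, a + c) else 0) := by
        simp only [Finset.sum_const, Finset.card_univ, nsmul_eq_mul, card_lab, ← Finset.mul_sum]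
        rw [Finset.sum_comm]
        simp only [Finset.sum_mul, ite_mul, one_mul, zero_mul]
        ring
    _ ≤ _ := Finset.sum_le_sum fun r _ => Finset.sum_le_sum fun γ _ =>
        Finset.sum_le_sum fun b _ => h1 r γ b

end Pool.Agent.KS6_6.SC
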