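import Pool.Agent.KS6_6.UG.Walsh

set_option autoImplicit false

/-!
A fourth moment estimate for low degree functions on product spaces, with a main term which does
not depend on the size of the factors if all influences are small.
-/

namespace Pool.Agent.KS6_6.SC

open Finset Pool.Agent.KS6_6.UG

section

variable {l : ℕ}

/-- Character of `F_2 ^ l`. -/
def chi (s p : Fin l → Bool) : ℝ := sg (s ⬝ᵥ p)

theorem sg_dot (a z : Fin l → Bool) : sg (a ⬝ᵥ z) = ∏ i, sg (a i * z i) := by
  unfold dotProduct
  have : ∀ s : Finset (Fin l), sg (∑ i ∈ s, a i * z i) = ∏ i ∈ s, sg (a i * z i) := by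
    intro s
    induction s using Finset.induction_on with
    | empty => rw [Finset.sum_empty, Finset.prod_empty]; rfl
    | insert b s hb ih => rw [Finset.sum_insert hb, Finset.prod_insert hb, sg_add, ih]
  exact this _

theorem chi_zero (p : Fin l → Bool) : chi 0 p = 1 := by
  unfold chi; rw [zero_dotProduct]; rfl

theorem chi_mul_self (s p : Fin l → Bool) : chi s p * chi s p = 1 := sg_mul_self _

theorem chi_le (s p : Fin l → Bool) : -1 ≤ chi s p ∧ chi s p ≤ 1 := by
  unfold chi
  cases s ⬝ᵥ p <;> norm_num

theorem chi_add (s t p : Fin l → Bool) : chi (s + t) p = chi s p * chi t p := by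
  unfold chi; rw [add_dotProduct, sg_add]

theorem chi_add_right (s p q : Fin l → Bool) : chi s (p + q) = chi s p * chi s q := by
  unfold chi; rw [dotProduct_add, sg_add]

theorem sum_chi (s : Fin l → Bool) : ∑ p, chi s p = if s = 0 then (2 : ℝ) ^ l else 0 := by
  unfold chi
  simp only [sg_dot]
  rw [sum_prod_cube (fun i b => sg (s i * b))]
  by_cases hs : s = 0
  · subst hs
    rw [if_pos rfl]
    have : ∀ i : Fin l, sg ((0 : Fin l → Bool) i * true) + sg ((0 : Fin l → Bool) i * false) =
        2 := by
      intro i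
      have e1 : ((0 : Fin l → Bool) i * true : Bool) = false := rfl
      have e2 : ((0 : Fin l → Bool) i * false : Bool) = false := rfl
      rw [e1, e2]; norm_num
    simp only [this, Finset.prod_const, Finset.card_univ, Fintype.card_fin]
  · rw [if_neg hs]
    obtain ⟨i, hi⟩ : ∃ i, s i ≠ 0 := by
      by_contra hcon
      push Not at hcon
      exact hs (funext hcon)
    apply Finset.prod_eq_zero (Finset.mem_univ i)
    have e1 : s i = true := by
      cases h1 : s i
      · exact absurd h1 hi
      · rfl
    rw [e1]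
    have e2 : (true * true : Bool) = true := rfl
    have e3 : (true * false : Bool) = false := rfl
    rw [e2, e3]; norm_num

theorem add_eq_zero_bits (s t : Fin l → Bool) : s + t = 0 ↔ s = t := by
  constructor
  · intro h1
    calc s = s + (t + t) := by rw [pi_add_self, add_zero]
      _ = (s + t) + t := by rw [add_assoc]
      _ = t := by rw [h1, zero_add]
  · rintro rfl
    exact pi_add_self s

theorem sum_chi_mul (s t : Fin l → Bool) :
    ∑ p, chi s p * chi t p = if s = t then (2 : ℝ) ^ l else 0 := by
  simp only [← chi_add]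
  rw [sum_chi]
  by_cases h1 : s = t
  · rw [if_pos h1, if_pos ((add_eq_zero_bits s t).mpr h1)]
  · rw [if_neg h1, if_neg fun h2 => h1 ((add_eq_zero_bits s t).mp h2)]

/-- Symmetrized character. -/
def vv (s : Fin l → Bool) (p : (Fin l → Bool) × (Fin l → Bool)) : ℝ :=
  if s = 0 then 1 else chi s p.1 - chi s p.2

theorem sum_vv_right (s p : Fin l → Bool) : ∑ q, vv s (p, q) = 2 ^ l * chi s p := by
  unfold vv
  by_cases hs : s = 0
  · subst hs
    simp [chi_zero]
  · simp only [if_neg hs]
    rw [Finset.sum_sub_distrib, sum_chi, if_neg hs]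
    simp

theorem sum_vv_mul (s t : Fin l → Bool) : ∑ p, vv s p * vv t p =
    if s = t then (if s = 0 then 1 else 2) * ((2 : ℝ) ^ l) ^ 2 else 0 := by
  rw [Fintype.sum_prod_type]
  have hcard : ((Finset.univ : Finset (Fin l → Bool)).card : ℝ) = 2 ^ l := by
    rw [Finset.card_univ, Fintype.card_fun, Fintype.card_bool, Fintype.card_fin]; push_cast; rfl
  have hsum1 : ∀ s : Fin l → Bool, s ≠ 0 → ∑ p, ∑ q, (chi s p - chi s q) = 0 := by
    intro s hs
    have : ∀ p : Fin l → Bool, ∑ q, (chi s p - chi s q) = 2 ^ l * chi s p := by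
      intro p
      rw [Finset.sum_sub_distrib, sum_chi, if_neg hs, Finset.sum_const, nsmul_eq_mul, hcard,
        sub_zero]
    simp only [this]
    rw [← Finset.mul_sum, sum_chi, if_neg hs, mul_zero]
  by_cases hs : s = 0
  · subst hs
    by_cases ht : t = 0
    · subst ht
      simp [vv]
      ring
    · rw [if_neg (Ne.symm ht)]
      unfold vv
      simp only [if_true, if_neg ht, one_mul]
      exact hsum1 t ht
  · by_cases ht : t = 0
    · subst ht
      rw [if_neg hs]
      unfold vv
      simp only [if_true, if_neg hs, mul_one]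
      exact hsum1 s hs
    · unfold vv
      simp only [if_neg hs, if_neg ht]
      have h1 : ∀ p : Fin l → Bool, ∑ q, (chi s p - chi s q) * (chi t p - chi t q) =
          2 ^ l * (chi s p * chi t p) + (if s = t then (2 : ℝ) ^ l else 0) := by
        intro p
        have h2 : ∀ q : Fin l → Bool, (chi s p - chi s q) * (chi t p - chi t q) =
            chi s p * chi t p - chi s p * chi t q - chi t p * chi s q + chi s q * chi t q := by
          intro q; ring
        have e1 : ∑ q, chi s p * chi t q = 0 := by
          rw [← Finset.mul_sum, sum_chi, if_neg ht, mul_zero]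
        have e2 : ∑ q, chi t p * chi s q = 0 := by
          rw [← Finset.mul_sum, sum_chi, if_neg hs, mul_zero]
        simp only [h2]
        rw [Finset.sum_add_distrib, Finset.sum_sub_distrib, Finset.sum_sub_distrib, e1, e2,
          sum_chi_mul, Finset.sum_const, nsmul_eq_mul, hcard]
        ring
      simp only [h1]
      rw [Finset.sum_add_distrib, ← Finset.mul_sum, sum_chi_mul, Finset.sum_const, nsmul_eq_mul,
        hcard]
      by_cases hst : s = t
      · rw [if_pos hst, if_pos hst]; ring
      · rw [if_neg hst, if_neg hst]; ring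

theorem vv_swap (s : Fin l → Bool) (p : (Fin l → Bool) × (Fin l → Bool)) :
    vv s p.swap = (if s = 0 then 1 else -1) * vv s p := by
  unfold vv
  by_cases hs : s = 0
  · simp [hs]
  · simp only [if_neg hs, Prod.fst_swap, Prod.snd_swap]; ring

theorem vv_sq_le (s : Fin l → Bool) (p : (Fin l → Bool) × (Fin l → Bool)) : vv s p ^ 2 ≤ 4 := by
  unfold vv
  by_cases hs : s = 0
  · simp [hs]
  · simp only [if_neg hs]
    have h1 := chi_le s p.1
    have h2 := chi_le s p.2
    nlinarith

end

section

variable {X : Type} [Fintype X] [DecidableEq X] {l : ℕ}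

/-- Support. -/
def spt (α : X → Fin l → Bool) : Finset X := Finset.univ.filter fun x => α x ≠ 0

omit [DecidableEq X] in
theorem mem_spt (α : X → Fin l → Bool) (x : X) : x ∈ spt α ↔ α x ≠ 0 := by simp [spt]

/-- Character of the product. -/
def chp (α y : X → Fin l → Bool) : ℝ := ∏ x, chi (α x) (y x)

/-- Symmetrized character of the product. -/
def uu (α : X → Fin l → Bool) (z : X → (Fin l → Bool) × (Fin l → Bool)) : ℝ := ∏ x, vv (α x) (z x)

theorem sum_prod_fun {Y : Type} [Fintype Y] (f : X → Y → ℝ) :
    ∑ x : X → Y, ∏ i, f i (x i) = ∏ i, ∑ y, f i y := by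
  have h := Finset.prod_univ_sum (fun _ : X => (Finset.univ : Finset Y)) f
  rw [Fintype.piFinset_univ] at h
  exact h.symm

theorem sum_uu_right (α y : X → Fin l → Bool) :
    ∑ y' : X → Fin l → Bool, uu α (fun x => (y x, y' x)) =
      ((2 : ℝ) ^ l) ^ Fintype.card X * chp α y := by
  unfold uu
  rw [sum_prod_fun (fun x q => vv (α x) (y x, q))]
  simp only [sum_vv_right, Finset.prod_mul_distrib, Finset.prod_const, Finset.card_univ, chp]

theorem sum_uu_mul (α β : X → Fin l → Bool) : ∑ z, uu α z * uu β z =
    if α = β then (2 : ℝ) ^ (spt α).card * (((2 : ℝ) ^ l) ^ Fintype.card X) ^ 2 else 0 := by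
  have h1 : ∀ z, uu α z * uu β z = ∏ x, (vv (α x) (z x) * vv (β x) (z x)) := by
    intro z; unfold uu; rw [Finset.prod_mul_distrib]
  simp only [h1]
  rw [sum_prod_fun (fun x p => vv (α x) p * vv (β x) p)]
  simp only [sum_vv_mul]
  by_cases hαβ : α = β
  · subst hαβ
    rw [if_pos rfl]
    simp only [if_true]
    rw [Finset.prod_mul_distrib, Finset.prod_const, Finset.card_univ,
      pow_right_comm ((2 : ℝ) ^ l) 2 (Fintype.card X)]
    congr 1
    rw [← Finset.prod_const, spt, Finset.prod_filter]
    refine Finset.prod_congr rfl fun x _ => ?_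
    by_cases hx : α x = 0
    · rw [if_pos hx, if_neg (not_not.mpr hx)]
    · rw [if_neg hx, if_pos hx]
  · rw [if_neg hαβ]
    obtain ⟨x, hx⟩ : ∃ x, α x ≠ β x := by
      by_contra hcon
      push Not at hcon
      exact hαβ (funext hcon)
    apply Finset.prod_eq_zero (Finset.mem_univ x)
    rw [if_neg hx]

/-- Exchanging the two copies on a set of coordinates. -/
def swp (b : X → Bool) : Equiv.Perm (X → (Fin l → Bool) × (Fin l → Bool)) where
  toFun z x := if b x then (z x).swap else z x
  invFun z x := if b x then (z x).swap else z x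
  left_inv z := by
    funext x
    by_cases hb : b x <;> simp [hb]
  right_inv z := by
    funext x
    by_cases hb : b x <;> simp [hb]

theorem uu_swp (b : X → Bool) (α : X → Fin l → Bool)
    (z : X → (Fin l → Bool) × (Fin l → Bool)) :
    uu α (swp b z) = walsh (spt α) b * uu α z := by
  unfold uu
  rw [walsh_univ, ← Finset.prod_mul_distrib]
  refine Finset.prod_congr rfl fun x _ => ?_
  have h1 : swp b z x = if b x then (z x).swap else z x := rfl
  rw [h1]
  by_cases hα : α x = 0
  · rw [if_neg (fun h2 => (mem_spt α x).mp h2 hα), one_mul]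
    cases hb : b x
    · simp
    · rw [if_pos rfl, vv_swap, if_pos hα, one_mul]
  · rw [if_pos ((mem_spt α x).mpr hα)]
    cases hb : b x
    · simp
    · rw [if_pos rfl, vv_swap, if_neg hα, sg_true]

variable (c : (X → Fin l → Bool) → ℝ)

/-- Part with support `A`. -/
noncomputable def dd (A : Finset X) (z : X → (Fin l → Bool) × (Fin l → Bool)) : ℝ :=
  ∑ α, if spt α = A then c α * uu α z else 0

/-- Weight of the part with support `A`. -/
noncomputable def ww (A : Finset X) : ℝ := ∑ α, if spt α = A then c α ^ 2 else 0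

theorem ww_nonneg (A : Finset X) : 0 ≤ ww c A :=
  Finset.sum_nonneg fun α _ => by split_ifs <;> positivity

theorem sum_ww : ∑ A, ww c A = ∑ α, c α ^ 2 := by
  unfold ww
  rw [Finset.sum_comm]
  refine Finset.sum_congr rfl fun α _ => ?_
  rw [Finset.sum_ite_eq, if_pos (Finset.mem_univ _)]

theorem sum_dd (z : X → (Fin l → Bool) × (Fin l → Bool)) :
    ∑ A, dd c A z = ∑ α, c α * uu α z := by
  unfold dd
  rw [Finset.sum_comm]
  refine Finset.sum_congr rfl fun α _ => ?_
  rw [Finset.sum_ite_eq, if_pos (Finset.mem_univ _)]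

theorem dd_swp (A : Finset X) (b : X → Bool) (z : X → (Fin l → Bool) × (Fin l → Bool)) :
    dd c A (swp b z) = walsh A b * dd c A z := by
  unfold dd
  rw [Finset.mul_sum]
  refine Finset.sum_congr rfl fun α _ => ?_
  by_cases h1 : spt α = A
  · rw [if_pos h1, if_pos h1, uu_swp, h1]; ring
  · rw [if_neg h1, if_neg h1, mul_zero]

theorem sum_dd_sq (A : Finset X) : ∑ z, dd c A z ^ 2 =
    2 ^ A.card * ww c A * (((2 : ℝ) ^ l) ^ Fintype.card X) ^ 2 := by
  have h1 : ∀ z, dd c A z ^ 2 = ∑ α, ∑ β, (if spt α = A then c α else 0) *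
      (if spt β = A then c β else 0) * (uu α z * uu β z) := by
    intro z
    unfold dd
    rw [sq, Finset.sum_mul_sum]
    refine Finset.sum_congr rfl fun α _ => Finset.sum_congr rfl fun β _ => ?_
    by_cases h1 : spt α = A <;> by_cases h2 : spt β = A <;> simp [h1, h2]; ring
  simp only [h1]
  rw [Finset.sum_comm]
  simp only [ww, Finset.mul_sum, Finset.sum_mul]
  refine Finset.sum_congr rfl fun α _ => ?_
  rw [Finset.sum_comm]
  simp only [← Finset.mul_sum, sum_uu_mul]
  rw [Finset.sum_eq_single α]
  · rw [if_pos rfl]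
    by_cases h1 : spt α = A
    · rw [if_pos h1, if_pos h1, h1]; ring
    · rw [if_neg h1, if_neg h1]; ring
  · intro β _ hβ
    rw [if_neg (Ne.symm hβ), mul_zero]
  · intro h2; exact absurd (Finset.mem_univ α) h2

/-- `dd c A` depends only on the coordinates in `A`. -/
theorem dd_congr (A : Finset X) (z z' : X → (Fin l → Bool) × (Fin l → Bool))
    (hz : ∀ x ∈ A, z x = z' x) : dd c A z = dd c A z' := by
  unfold dd
  refine Finset.sum_congr rfl fun α _ => ?_
  by_cases h1 : spt α = A
  · rw [if_pos h1, if_pos h1]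
    congr 1
    unfold uu
    refine Finset.prod_congr rfl fun x _ => ?_
    by_cases hx : α x = 0
    · unfold vv; rw [if_pos hx, if_pos hx]
    · rw [hz x (by rw [← h1, mem_spt]; exact hx)]
  · rw [if_neg h1, if_neg h1]

/-- Exchanging two points outside `A`. -/
def mixp {Y : Type} (A : Finset X) : Equiv.Perm ((X → Y) × (X → Y)) where
  toFun p := (fun x => if x ∈ A then p.1 x else p.2 x, fun x => if x ∈ A then p.2 x else p.1 x)
  invFun p := (fun x => if x ∈ A then p.1 x else p.2 x, fun x => if x ∈ A then p.2 x else p.1 x)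
  left_inv p := by
    apply Prod.ext <;> funext x <;> by_cases hx : x ∈ A <;> simp [hx]
  right_inv p := by
    apply Prod.ext <;> funext x <;> by_cases hx : x ∈ A <;> simp [hx]

theorem dd_indep (A B : Finset X) (hAB : Disjoint A B) :
    (∑ z, dd c A z ^ 2 * dd c B z ^ 2) * (((2 : ℝ) ^ l) ^ Fintype.card X) ^ 2 =
      (∑ z, dd c A z ^ 2) * ∑ z, dd c B z ^ 2 := by
  have hcard : ((Finset.univ : Finset (X → (Fin l → Bool) × (Fin l → Bool))).card : ℝ) =
      (((2 : ℝ) ^ l) ^ Fintype.card X) ^ 2 := by
    rw [Finset.card_univ, Fintype.card_fun, Fintype.card_prod, Fintype.card_fun, Fintype.card_bool,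
      Fintype.card_fin]
    push_cast
    rw [← pow_two, ← pow_mul, ← pow_mul, ← pow_mul, ← pow_mul]
    congr 1; ring
  have h1 : (∑ z, dd c A z ^ 2) * ∑ z, dd c B z ^ 2 =
      ∑ p : (X → (Fin l → Bool) × (Fin l → Bool)) × (X → (Fin l → Bool) × (Fin l → Bool)),
        dd c A p.1 ^ 2 * dd c B p.2 ^ 2 := by
    rw [Finset.sum_mul_sum, Fintype.sum_prod_type]
  rw [h1, ← Equiv.sum_comp (mixp A)]
  have h2 : ∀ p : (X → (Fin l → Bool) × (Fin l → Bool)) × (X → (Fin l → Bool) × (Fin l → Bool)),
      dd c A (mixp A p).1 ^ 2 * dd c B (mixp A p).2 ^ 2 = dd c A p.1 ^ 2 * dd c B p.1 ^ 2 := by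
    intro p
    have e1 : dd c A (mixp A p).1 = dd c A p.1 := by
      apply dd_congr
      intro x hx
      exact if_pos hx
    have e2 : dd c B (mixp A p).2 = dd c B p.1 := by
      apply dd_congr
      intro x hx
      exact if_neg fun h3 => (Finset.disjoint_left.mp hAB h3) hx
    rw [e1, e2]
  simp only [h2]
  rw [Fintype.sum_prod_type, Finset.sum_mul]
  refine Finset.sum_congr rfl fun z _ => ?_
  simp only [Finset.sum_const, nsmul_eq_mul, hcard]
  ring

theorem dd_sq_le (A : Finset X) (z : X → (Fin l → Bool) × (Fin l → Bool)) :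
    dd c A z ^ 2 ≤ ww c A * (4 * 2 ^ l) ^ A.card := by
  have h1 : dd c A z ^ 2 ≤ ww c A * ∑ α, (if spt α = A then uu α z ^ 2 else 0) := by
    have := Finset.sum_mul_sq_le_sq_mul_sq Finset.univ (fun α => if spt α = A then c α else 0)
      (fun α => if spt α = A then uu α z else 0)
    refine le_trans (le_of_eq ?_) (this.trans (le_of_eq ?_))
    · unfold dd
      congr 1
      refine Finset.sum_congr rfl fun α _ => ?_
      by_cases h1 : spt α = A <;> simp [h1]
    · unfold ww
      congr 1
      · refine Finset.sum_congr rfl fun α _ => ?_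
        by_cases h1 : spt α = A <;> simp [h1]
      · refine Finset.sum_congr rfl fun α _ => ?_
        by_cases h1 : spt α = A <;> simp [h1]
  refine h1.trans (mul_le_mul_of_nonneg_left ?_ (ww_nonneg c A))
  have h2 : ∀ α : X → Fin l → Bool, (if spt α = A then uu α z ^ 2 else 0) ≤
      ∏ x, (if x ∈ A then (4 : ℝ) else if α x = 0 then 1 else 0) := by
    intro α
    have hnn : ∀ x, (0 : ℝ) ≤ (if x ∈ A then (4 : ℝ) else if α x = 0 then 1 else 0) := by
      intro x; split_ifs <;> norm_num
    by_cases h3 : spt α = A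
    · rw [if_pos h3]
      unfold uu
      rw [← Finset.prod_pow]
      apply Finset.prod_le_prod
      · intro x _; positivity
      · intro x _
        by_cases hx : x ∈ A
        · rw [if_pos hx]; exact vv_sq_le _ _
        · rw [if_neg hx]
          have hx0 : α x = 0 := by
            by_contra hne
            exact hx (by rw [← h3, mem_spt]; exact hne)
          rw [if_pos hx0]
          unfold vv
          rw [if_pos hx0]; norm_num
    · rw [if_neg h3]
      exact Finset.prod_nonneg fun x _ => hnn x
  refine (Finset.sum_le_sum fun α _ => h2 α).trans (le_of_eq ?_)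
  rw [sum_prod_fun (fun x s => if x ∈ A then (4 : ℝ) else if s = 0 then 1 else 0)]
  have h3 : ∀ x, ∑ s : Fin l → Bool, (if x ∈ A then (4 : ℝ) else if s = 0 then 1 else 0) =
      if x ∈ A then 4 * 2 ^ l else 1 := by
    intro x
    by_cases hx : x ∈ A
    · simp [hx]; ring
    · simp [hx]
  simp only [h3]
  rw [Finset.prod_ite_mem, Finset.univ_inter, Finset.prod_const]

end

end Pool.Agent.KS6_6.SC
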