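import Pool.Agent.KS6_6.SC.Main

set_option autoImplicit false

/-!
Games with any large number of vertices.
-/

namespace Pool.Agent.KS6_6.SC

open Finset Pool.Agent.KS6_6.UG

theorem pull_id {W W' A : Type} [Fintype A] [DecidableEq A] (p : W' → W)
    (μ : W × A → W × A → ℝ) (x y : W' × A) :
    pull p (fun _ (a : A) => a) μ x y = μ (p x.1, x.2) (p y.1, y.2) := by
  unfold pull
  rw [Finset.sum_eq_single x.2]
  · rw [Finset.sum_eq_single y.2]
    · exact if_pos ⟨rfl, rfl⟩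
    · intro a _ ha
      exact if_neg fun h => ha h.2
    · intro h; exact absurd (Finset.mem_univ _) h
  · intro a _ ha
    apply Finset.sum_eq_zero
    intro a' _
    exact if_neg fun h => ha h.1
  · intro h; exact absurd (Finset.mem_univ _) h

theorem size_arith (h k K l : ℝ) (D : ℕ) (hh1 : 1 ≤ h) (hk2 : k ≤ h * K + 1) (hK0 : 0 < K)
    (hl : 0 ≤ l) (f7 : 2 + K + l * 2 ^ D ≤ h) : 1 + k + l * (h + 1) ^ D ≤ h ^ (D + 2) := by
  have hh0 : 0 ≤ h := by linarith
  have f1 : (h + 1) ^ D ≤ 2 ^ D * h ^ D := by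
    rw [← mul_pow]
    apply pow_le_pow_left₀ (by positivity)
    linarith
  have f2 : 1 ≤ h ^ D := one_le_pow₀ hh1
  obtain ⟨z, hzD⟩ : ∃ z, z = h ^ D := ⟨_, rfl⟩
  rw [← hzD] at f1 f2
  have f3 : l * (h + 1) ^ D ≤ l * 2 ^ D * z := by
    calc l * (h + 1) ^ D ≤ l * (2 ^ D * z) := mul_le_mul_of_nonneg_left f1 hl
      _ = _ := by ring
  have hz : z ≤ h * z := by nlinarith
  have f4 : l * 2 ^ D * z ≤ l * 2 ^ D * (h * z) :=
    mul_le_mul_of_nonneg_left hz (by positivity)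
  have f5 : 1 ≤ h * z := f2.trans hz
  have f6 : h * K ≤ K * (h * z) := by
    have : h * 1 ≤ h * z := mul_le_mul_of_nonneg_left f2 hh0
    nlinarith
  calc 1 + k + l * (h + 1) ^ D ≤ 2 * (h * z) + K * (h * z) + l * 2 ^ D * (h * z) := by linarith
    _ = (2 + K + l * 2 ^ D) * (h * z) := by ring
    _ ≤ h * (h * z) := mul_le_mul_of_nonneg_right f7 (by linarith)
    _ = _ := by rw [hzD]; ring

/-- The final theorem in terms of the internal definitions. -/
theorem final (ε δ : ℝ) (hε0 : 0 < ε) (hε1 : ε < 1) (hδ0 : 0 < δ) (hδ1 : δ < 1) :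
    ∃ (l n₀ : ℕ), ∀ n : ℕ, n₀ ≤ n →
      ∃ (E : Type) (_ : Fintype E) (_ : Nonempty E) (s t : E → Fin n) (b : E → (Fin l → Bool))
        (part : Fin n → Bool) (μ : Fin n × (Fin l → Bool) → Fin n × (Fin l → Bool) → ℝ),
        (∀ e, part (s e) = false ∧ part (t e) = true) ∧
        (∀ L : Fin n → (Fin l → Bool),
          ((Finset.univ.filter fun e => L (t e) = L (s e) + b e).card : ℝ) ≤
            δ * Fintype.card E) ∧
        (∀ R : ℕ, (R : ℝ) ≤
          Real.exp (Real.log n ^ (1 / (20 * Real.log (8 * Real.log (2 / δ) / ε)))) →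
          LocalSdp R μ) ∧
        (1 - ε) * Fintype.card E ≤ ∑ e, ∑ i, μ (s e, i) (t e, i + b e) := by
  classical
  obtain ⟨l, D, δ₀, hD, hd0, hd1, hmain⟩ := composed ε δ hε0 hε1 hδ0 hδ1
  set c₁ : ℝ := (ε / 2) / (2 ^ 20 * Real.log (2 / δ₀)) with hc₁
  have hlog : 0 < Real.log (2 / δ₀) := Real.log_pos (by rw [lt_div_iff₀ hd0]; linarith)
  have hc₁0 : 0 < c₁ := by positivity
  set K : ℝ := (2 : ℝ) ^ (2 ^ 20 * Real.log (2 / δ₀) / (ε / 2)) with hK
  have hK0 : 0 < K := by positivity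
  set H₀ : ℝ := 2 ^ 20 * (Real.log (2 / δ₀) * Real.log (2 / (ε / 2))) / (ε / 2) with hH₀
  have hH₀0 : 0 ≤ H₀ := by
    have : 0 ≤ Real.log (2 / (ε / 2)) := Real.log_nonneg (by
      rw [le_div_iff₀ (by linarith)]; linarith)
    positivity
  have hlog2 : 0 < Real.log 2 := Real.log_pos (by norm_num)
  set S : ℝ := H₀ + 1 / c₁ + 2 / (c₁ * Real.log 2) ^ 2 + (2 + K + l * 2 ^ D) with hS
  have hS1 : H₀ ≤ S := by
    have : 0 ≤ 1 / c₁ + 2 / (c₁ * Real.log 2) ^ 2 + (2 + K + l * 2 ^ D) := by positivity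
    rw [hS]; linarith
  have hS2 : 1 / c₁ ≤ S := by
    have : 0 ≤ H₀ + 2 / (c₁ * Real.log 2) ^ 2 + (2 + K + l * 2 ^ D) := by positivity
    rw [hS]; linarith
  have hS3 : 2 / (c₁ * Real.log 2) ^ 2 ≤ S := by
    have : 0 ≤ H₀ + 1 / c₁ + (2 + K + l * 2 ^ D) := by positivity
    rw [hS]; linarith
  have hS4 : 2 + K + l * 2 ^ D ≤ S := by
    have : 0 ≤ H₀ + 1 / c₁ + 2 / (c₁ * Real.log 2) ^ 2 := by positivity
    rw [hS]; linarith
  have hS5 : 1 ≤ S := by
    have : 0 ≤ (l : ℝ) * 2 ^ D := by positivity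
    linarith
  refine ⟨l, ⌈Real.exp ((S + 1) ^ (D + 2))⌉₊, ?_⟩
  intro n hn
  have hn1 : Real.exp ((S + 1) ^ (D + 2)) ≤ n :=
    (Nat.le_ceil _).trans (by exact_mod_cast hn)
  have hn0 : (0 : ℝ) < n := lt_of_lt_of_le (Real.exp_pos _) hn1
  set x : ℝ := Real.log n with hx
  have hx1 : (S + 1) ^ (D + 2) ≤ x := by
    rw [hx, Real.le_log_iff_exp_le hn0]; exact hn1
  have hx0 : 0 ≤ x := le_trans (by positivity) hx1
  set y : ℝ := x ^ ((1 : ℝ) / (D + 2)) with hy
  have hy0 : 0 ≤ y := Real.rpow_nonneg hx0 _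
  have hyx : y ^ (D + 2) = x := by
    rw [hy, ← Real.rpow_natCast, ← Real.rpow_mul hx0]
    push_cast
    rw [one_div_mul_cancel (by positivity), Real.rpow_one]
  have hyS : S + 1 ≤ y := by
    apply le_of_pow_le_pow_left₀ (n := D + 2) (by omega) hy0
    rw [hyx]; exact hx1
  set h : ℕ := ⌊y⌋₊ with hh
  have hhy : (h : ℝ) ≤ y := Nat.floor_le hy0
  have hyh : y < h + 1 := Nat.lt_floor_add_one y
  have hhS : S ≤ h := by linarith
  have hh1 : (1 : ℝ) ≤ h := hS5.trans hhS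
  set k : ℕ := ⌈(h : ℝ) * K⌉₊ with hk
  have hk1 : (h : ℝ) * K ≤ k := Nat.le_ceil _
  have hk2 : (k : ℝ) ≤ h * K + 1 := (Nat.ceil_lt_add_one (by positivity)).le
  have hR2 : 2 ≤ ((2 : ℝ) ^ h) ^ c₁ := by
    rw [← Real.rpow_natCast, ← Real.rpow_mul (by norm_num)]
    have h1 : 1 ≤ (h : ℝ) * c₁ := by
      have := hS2.trans hhS
      rwa [div_le_iff₀ hc₁0] at this
    calc (2 : ℝ) = 2 ^ (1 : ℝ) := (Real.rpow_one 2).symm
      _ ≤ 2 ^ ((h : ℝ) * c₁) := Real.rpow_le_rpow_of_exponent_le (by norm_num) h1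
  obtain ⟨W, iW1, iW2, iW3, E, iE1, iE2, s, t, b, part, μ, mp, m0, m1, m2, m3⟩ :=
    hmain h k (hS1.trans hhS) hk1 hR2
  -- the number of vertices
  have hcard : Fintype.card W ≤ n := by
    refine m0.trans ?_
    have e1 : (((2 : ℕ) ^ (1 + k) * (2 ^ l) ^ ((h + 1) ^ D) : ℕ) : ℝ) ≤ n := by
      have e2 : (((2 : ℕ) ^ (1 + k) * (2 ^ l) ^ ((h + 1) ^ D) : ℕ) : ℝ) =
          Real.exp (((1 + k + l * (h + 1) ^ D : ℕ) : ℝ) * Real.log 2) := by
        rw [Real.exp_nat_mul, Real.exp_log (by norm_num)]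
        push_cast
        rw [← pow_mul, ← pow_add]
      rw [e2, ← Real.exp_log hn0, Real.exp_le_exp, ← hx]
      have e3 : ((1 + k + l * (h + 1) ^ D : ℕ) : ℝ) ≤ (h : ℝ) ^ (D + 2) := by
        push_cast
        exact size_arith h k K l D hh1 hk2 hK0 (by positivity) (hS4.trans hhS)
      have e4 : (h : ℝ) ^ (D + 2) ≤ x := by
        rw [← hyx]
        exact pow_le_pow_left₀ (by positivity) hhy _
      have e5 : Real.log 2 ≤ 1 := by
        have := Real.log_two_lt_d9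
        linarith
      have e6 : (0 : ℝ) ≤ ((1 + k + l * (h + 1) ^ D : ℕ) : ℝ) := Nat.cast_nonneg _
      nlinarith
    exact_mod_cast e1
  obtain ⟨ι⟩ := Function.Embedding.nonempty_of_card_le
    (show Fintype.card W ≤ Fintype.card (Fin n) by rw [Fintype.card_fin]; exact hcard)
  let inv : Fin n → W := Function.invFun ι
  have hinv : ∀ w, inv (ι w) = w := Function.leftInverse_invFun ι.injective
  refine ⟨E, iE1, iE2, fun e => ι (s e), fun e => ι (t e), b, fun u => part (inv u),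
    fun u v => μ (inv u.1, u.2) (inv v.1, v.2), ?_, ?_, ?_, ?_⟩
  · intro e
    show part (inv (ι (s e))) = false ∧ part (inv (ι (t e))) = true
    rw [hinv, hinv]
    exact mp e
  · intro L
    exact m1 (fun w => L (ι w))
  · intro R hR
    have h1 : (R : ℝ) ≤ ((2 : ℝ) ^ h) ^ c₁ := by
      refine hR.trans ?_
      have e1 : ((2 : ℝ) ^ h) ^ c₁ = Real.exp (h * c₁ * Real.log 2) := by
        rw [← Real.rpow_natCast, ← Real.rpow_mul (by norm_num),
          Real.rpow_def_of_pos (by norm_num)]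
        congr 1; ring
      rw [e1, Real.exp_le_exp]
      have e2 : x ^ ((1 : ℝ) / (2 * (D + 2))) = Real.sqrt y := by
        rw [Real.sqrt_eq_rpow, hy, ← Real.rpow_mul hx0]
        congr 1
        field_simp
      have e5 : x ^ (1 / (20 * Real.log (8 * Real.log (2 / δ) / ε))) ≤
          x ^ ((1 : ℝ) / (2 * (D + 2))) := by
        apply Real.rpow_le_rpow_of_exponent_le
        · refine le_trans ?_ hx1
          exact one_le_pow₀ (by linarith)
        · exact one_div_le_one_div_of_le (by positivity) hD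
      refine e5.trans ?_
      rw [e2]
      apply Real.sqrt_le_iff.mpr
      refine ⟨by positivity, ?_⟩
      have e3 : 2 / (c₁ * Real.log 2) ^ 2 ≤ (h : ℝ) := hS3.trans hhS
      rw [div_le_iff₀ (by positivity)] at e3
      have e4 : y ≤ 2 * h := by linarith
      calc y ≤ 2 * h := e4
        _ ≤ (h * (c₁ * Real.log 2) ^ 2) * h := mul_le_mul_of_nonneg_right e3 (by positivity)
        _ = (h * c₁ * Real.log 2) ^ 2 := by ring
    have h2 := pull_sdp R inv (fun _ (a : Fin l → Bool) => a) μ (m2 R h1)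
    have h3 : pull inv (fun _ (a : Fin l → Bool) => a) μ =
        fun u v => μ (inv u.1, u.2) (inv v.1, v.2) := by
      funext u v
      exact pull_id inv μ u v
    rw [h3] at h2
    exact h2
  · refine m3.trans (le_of_eq ?_)
    refine Finset.sum_congr rfl fun e _ => Finset.sum_congr rfl fun i _ => ?_
    show μ (s e, i) (t e, i + b e) = μ (inv (ι (s e)), i) (inv (ι (t e)), i + b e)
    rw [hinv, hinv]

end Pool.Agent.KS6_6.SC
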