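import Pool.Agent.KS6_6.SC.Mom

set_option autoImplicit false

/-!
The fourth moment estimate.
-/

namespace Pool.Agent.KS6_6.SC

open Finset Pool.Agent.KS6_6.UG

variable {X : Type} [Fintype X] [DecidableEq X] {l : ℕ}

/-- Pairs of functions. -/
def pairFun {Y Z : Type} : (X → Y) × (X → Z) ≃ (X → Y × Z) where
  toFun p x := (p.1 x, p.2 x)
  invFun z := (fun x => (z x).1, fun x => (z x).2)
  left_inv _ := rfl
  right_inv _ := rfl

theorem card_space : ((Finset.univ : Finset (X → Fin l → Bool)).card : ℝ) =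
    ((2 : ℝ) ^ l) ^ Fintype.card X := by
  rw [Finset.card_univ, Fintype.card_fun, Fintype.card_fun, Fintype.card_bool, Fintype.card_fin]
  push_cast; rfl

theorem card_space2 :
    ((Finset.univ : Finset (X → (Fin l → Bool) × (Fin l → Bool))).card : ℝ) =
      (((2 : ℝ) ^ l) ^ Fintype.card X) ^ 2 := by
  rw [Finset.card_univ, Fintype.card_fun, Fintype.card_prod, Fintype.card_fun, Fintype.card_bool,
    Fintype.card_fin]
  push_cast
  rw [← pow_two, ← pow_mul, ← pow_mul, ← pow_mul, ← pow_mul]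
  congr 1; ring

variable (c : (X → Fin l → Bool) → ℝ)

/-- First step: symmetrization in the second copy. -/
theorem fourth_a : ((2 : ℝ) ^ l) ^ Fintype.card X * ∑ y, (∑ α, c α * chp α y) ^ 4 ≤
    ∑ z, (∑ α, c α * uu α z) ^ 4 := by
  set N : ℝ := ((2 : ℝ) ^ l) ^ Fintype.card X with hN
  have hN0 : 0 < N := by positivity
  have h1 : ∀ y : X → Fin l → Bool, N ^ 4 * (∑ α, c α * chp α y) ^ 4 ≤
      N ^ 3 * ∑ y' : X → Fin l → Bool, (∑ α, c α * uu α (fun x => (y x, y' x))) ^ 4 := by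
    intro y
    have h2 : N * ∑ α, c α * chp α y =
        ∑ y' : X → Fin l → Bool, ∑ α, c α * uu α (fun x => (y x, y' x)) := by
      rw [Finset.sum_comm, Finset.mul_sum]
      refine Finset.sum_congr rfl fun α _ => ?_
      rw [← Finset.mul_sum, sum_uu_right]; ring
    rw [← mul_pow, h2]
    set F : (X → Fin l → Bool) → ℝ := fun y' => ∑ α, c α * uu α (fun x => (y x, y' x)) with hF
    have h3 : (∑ y', F y') ^ 2 ≤ N * ∑ y', F y' ^ 2 := by
      have := sq_sum_le_card_mul_sum_sq (s := (Finset.univ : Finset (X → Fin l → Bool))) (f := F)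
      rw [card_space] at this
      exact this
    have h4 : (∑ y', F y' ^ 2) ^ 2 ≤ N * ∑ y', F y' ^ 4 := by
      have := sq_sum_le_card_mul_sum_sq (s := (Finset.univ : Finset (X → Fin l → Bool)))
        (f := fun y' => F y' ^ 2)
      rw [card_space] at this
      refine this.trans (le_of_eq ?_)
      congr 1
      exact Finset.sum_congr rfl fun y' _ => by ring
    calc (∑ y', F y') ^ 4 = ((∑ y', F y') ^ 2) ^ 2 := by ring
      _ ≤ (N * ∑ y', F y' ^ 2) ^ 2 := pow_le_pow_left₀ (sq_nonneg _) h3 2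
      _ = N ^ 2 * (∑ y', F y' ^ 2) ^ 2 := by ring
      _ ≤ N ^ 2 * (N * ∑ y', F y' ^ 4) := mul_le_mul_of_nonneg_left h4 (by positivity)
      _ = N ^ 3 * ∑ y', F y' ^ 4 := by ring
  have h6 := Finset.sum_le_sum (fun y (_ : y ∈ (Finset.univ : Finset (X → Fin l → Bool))) => h1 y)
  rw [← Finset.mul_sum, ← Finset.mul_sum] at h6
  have h7 : ∑ y : X → Fin l → Bool, ∑ y' : X → Fin l → Bool,
      (∑ α, c α * uu α (fun x => (y x, y' x))) ^ 4 = ∑ z, (∑ α, c α * uu α z) ^ 4 := by
    rw [← Equiv.sum_comp pairFun (fun z => (∑ α, c α * uu α z) ^ 4), Fintype.sum_prod_type]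
    rfl
  rw [h7] at h6
  have h5 : N ^ 3 * (N * ∑ y, (∑ α, c α * chp α y) ^ 4) ≤
      N ^ 3 * ∑ z, (∑ α, c α * uu α z) ^ 4 := by
    rw [← mul_assoc, ← pow_succ]
    exact h6
  exact le_of_mul_le_mul_left h5 (by positivity)

theorem dd_zero (m : ℕ) (hm : ∀ α, m < (spt α).card → c α = 0) (A : Finset X)
    (hA : m < A.card) (z : X → (Fin l → Bool) × (Fin l → Bool)) : dd c A z = 0 := by
  unfold dd
  apply Finset.sum_eq_zero
  intro α _
  by_cases h1 : spt α = A
  · rw [if_pos h1, hm α (by rw [h1]; exact hA), zero_mul]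
  · rw [if_neg h1]

theorem ww_zero (m : ℕ) (hm : ∀ α, m < (spt α).card → c α = 0) (A : Finset X)
    (hA : m < A.card) : ww c A = 0 := by
  unfold ww
  apply Finset.sum_eq_zero
  intro α _
  by_cases h1 : spt α = A
  · rw [if_pos h1, hm α (by rw [h1]; exact hA)]; norm_num
  · rw [if_neg h1]

/-- Second step: hypercontractivity. -/
theorem fourth_b (m : ℕ) (hm : ∀ α, m < (spt α).card → c α = 0) :
    ∑ z, (∑ α, c α * uu α z) ^ 4 ≤ 9 ^ m * ∑ z, (∑ A, dd c A z ^ 2) ^ 2 := by
  have h0 : (0 : ℝ) < 2 ^ Fintype.card X := by positivity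
  obtain ⟨r, hr⟩ : ∃ r : ℝ, r ^ 2 = 1 / 3 := ⟨Real.sqrt (1 / 3), Real.sq_sqrt (by norm_num)⟩
  have hr0 : r ≠ 0 := by
    intro h1; rw [h1] at hr; norm_num at hr
  have h1 : ∀ z : X → (Fin l → Bool) × (Fin l → Bool),
      ∑ b : X → Bool, (∑ A, walsh A b * dd c A z) ^ 4 ≤
        2 ^ Fintype.card X * (9 ^ m * (∑ A, dd c A z ^ 2) ^ 2) := by
    intro z
    have h2 := bonami r hr (Finset.univ : Finset X) (fun A => (r⁻¹) ^ A.card * dd c A z)
    rw [Finset.powerset_univ, div_le_iff₀ h0] at h2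
    have h3 : ∀ b : X → Bool, wpoly r (fun A => (r⁻¹) ^ A.card * dd c A z) Finset.univ b =
        ∑ A, walsh A b * dd c A z := by
      intro b
      unfold wpoly
      rw [Finset.powerset_univ]
      refine Finset.sum_congr rfl fun A _ => ?_
      have h4 : r ^ A.card * (r⁻¹) ^ A.card = 1 := by
        rw [← mul_pow, mul_inv_cancel₀ hr0, one_pow]
      calc r ^ A.card * ((r⁻¹) ^ A.card * dd c A z) * walsh A b
          = (r ^ A.card * (r⁻¹) ^ A.card) * (walsh A b * dd c A z) := by ring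
        _ = _ := by rw [h4, one_mul]
    simp only [h3] at h2
    refine h2.trans ?_
    rw [mul_comm]
    apply mul_le_mul_of_nonneg_left _ h0.le
    have h5 : ∑ A : Finset X, ((r⁻¹) ^ A.card * dd c A z) ^ 2 ≤
        3 ^ m * ∑ A, dd c A z ^ 2 := by
      rw [Finset.mul_sum]
      refine Finset.sum_le_sum fun A _ => ?_
      rw [mul_pow, ← pow_mul, mul_comm A.card 2, pow_mul, inv_pow, hr]
      rcases le_or_gt A.card m with hA | hA
      · apply mul_le_mul_of_nonneg_right _ (sq_nonneg _)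
        rw [one_div, inv_inv]
        exact pow_le_pow_right₀ (by norm_num) hA
      · rw [dd_zero c m hm A hA]
        norm_num
    calc (∑ A : Finset X, ((r⁻¹) ^ A.card * dd c A z) ^ 2) ^ 2
        ≤ (3 ^ m * ∑ A, dd c A z ^ 2) ^ 2 :=
          pow_le_pow_left₀ (Finset.sum_nonneg fun _ _ => sq_nonneg _) h5 2
      _ = 9 ^ m * (∑ A, dd c A z ^ 2) ^ 2 := by
          rw [mul_pow, ← pow_mul, mul_comm m 2, pow_mul]; norm_num
  have h6 : 2 ^ Fintype.card X * ∑ z, (∑ α, c α * uu α z) ^ 4 =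
      ∑ z : X → (Fin l → Bool) × (Fin l → Bool), ∑ b : X → Bool,
        (∑ A, walsh A b * dd c A z) ^ 4 := by
    rw [Finset.sum_comm]
    have h7 : ∀ b : X → Bool, ∑ z : X → (Fin l → Bool) × (Fin l → Bool),
        (∑ A, walsh A b * dd c A z) ^ 4 = ∑ z, (∑ α, c α * uu α z) ^ 4 := by
      intro b
      rw [← Equiv.sum_comp (swp b) (fun z => (∑ α, c α * uu α z) ^ 4)]
      refine Finset.sum_congr rfl fun z _ => ?_
      congr 1
      rw [← sum_dd]
      exact Finset.sum_congr rfl fun A _ => (dd_swp c A b z).symm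
    simp only [h7]
    rw [Finset.sum_const, Finset.card_univ, Fintype.card_fun, Fintype.card_bool, nsmul_eq_mul]
    push_cast; ring
  have h8 : 2 ^ Fintype.card X * ∑ z, (∑ α, c α * uu α z) ^ 4 ≤
      2 ^ Fintype.card X * (9 ^ m * ∑ z, (∑ A, dd c A z ^ 2) ^ 2) := by
    rw [h6]
    refine (Finset.sum_le_sum fun z _ => h1 z).trans (le_of_eq ?_)
    rw [← Finset.mul_sum, ← Finset.mul_sum]
  exact le_of_mul_le_mul_left h8 h0

/-- Third step: pairs of supports. -/
theorem fourth_c (m : ℕ) (hm : ∀ α, m < (spt α).card → c α = 0) (τ : ℝ) (hτ0 : 0 ≤ τ)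
    (hτ : ∀ x, ∑ α : X → Fin l → Bool, (if α x ≠ 0 then c α ^ 2 else 0) ≤ τ) :
    ∑ z, (∑ A, dd c A z ^ 2) ^ 2 ≤ (((2 : ℝ) ^ l) ^ Fintype.card X) ^ 2 *
      (4 ^ m * (∑ α, c α ^ 2) ^ 2 + (4 * 2 ^ l) ^ (2 * m) * (m * τ * ∑ α, c α ^ 2)) := by
  classical
  set N : ℝ := ((2 : ℝ) ^ l) ^ Fintype.card X with hN
  have hN0 : 0 < N := by positivity
  have hw0 := ww_nonneg c
  have hl1 : (1 : ℝ) ≤ 4 * 2 ^ l := by
    have : (1 : ℝ) ≤ 2 ^ l := one_le_pow₀ (by norm_num)
    linarith
  have hAB : ∀ A B : Finset X, ∑ z, dd c A z ^ 2 * dd c B z ^ 2 ≤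
      N ^ 2 * (4 ^ m * (ww c A * ww c B) +
        (4 * 2 ^ l) ^ (2 * m) * (if Disjoint A B then 0 else ww c A * ww c B)) := by
    intro A B
    rcases lt_or_ge m A.card with hA | hA
    · simp only [dd_zero c m hm A hA, ww_zero c m hm A hA]
      simp
    rcases lt_or_ge m B.card with hB | hB
    · simp only [dd_zero c m hm B hB, ww_zero c m hm B hB]
      simp
    by_cases hd : Disjoint A B
    · rw [if_pos hd, mul_zero, add_zero]
      have h1 := dd_indep c A B hd
      rw [sum_dd_sq, sum_dd_sq] at h1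
      have h2 : ∑ z, dd c A z ^ 2 * dd c B z ^ 2 =
          N ^ 2 * (2 ^ A.card * 2 ^ B.card * (ww c A * ww c B)) := by
        have h3 : (∑ z, dd c A z ^ 2 * dd c B z ^ 2) * N ^ 2 =
            (N ^ 2 * (2 ^ A.card * 2 ^ B.card * (ww c A * ww c B))) * N ^ 2 := by
          rw [h1]; ring
        exact mul_right_cancel₀ (by positivity) h3
      rw [h2]
      apply mul_le_mul_of_nonneg_left _ (by positivity)
      apply mul_le_mul_of_nonneg_right _ (mul_nonneg (hw0 A) (hw0 B))
      calc (2 : ℝ) ^ A.card * 2 ^ B.card ≤ 2 ^ m * 2 ^ m :=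
            mul_le_mul (pow_le_pow_right₀ (by norm_num) hA) (pow_le_pow_right₀ (by norm_num) hB)
              (by positivity) (by positivity)
        _ = 4 ^ m := by rw [← mul_pow]; norm_num
    · rw [if_neg hd]
      have h1 : ∀ z, dd c A z ^ 2 * dd c B z ^ 2 ≤
          (4 * 2 ^ l) ^ (2 * m) * (ww c A * ww c B) := by
        intro z
        calc dd c A z ^ 2 * dd c B z ^ 2
            ≤ (ww c A * (4 * 2 ^ l) ^ A.card) * (ww c B * (4 * 2 ^ l) ^ B.card) :=
              mul_le_mul (dd_sq_le c A z) (dd_sq_le c B z) (sq_nonneg _)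
                (mul_nonneg (hw0 A) (by positivity))
          _ = (4 * 2 ^ l) ^ A.card * (4 * 2 ^ l) ^ B.card * (ww c A * ww c B) := by ring
          _ ≤ (4 * 2 ^ l) ^ m * (4 * 2 ^ l) ^ m * (ww c A * ww c B) := by
              apply mul_le_mul_of_nonneg_right _ (mul_nonneg (hw0 A) (hw0 B))
              exact mul_le_mul (pow_le_pow_right₀ hl1 hA) (pow_le_pow_right₀ hl1 hB)
                (by positivity) (by positivity)
          _ = _ := by rw [← pow_add, two_mul]
      calc ∑ z, dd c A z ^ 2 * dd c B z ^ 2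
          ≤ ∑ z : X → (Fin l → Bool) × (Fin l → Bool),
              (4 * 2 ^ l) ^ (2 * m) * (ww c A * ww c B) := Finset.sum_le_sum fun z _ => h1 z
        _ = N ^ 2 * ((4 * 2 ^ l) ^ (2 * m) * (ww c A * ww c B)) := by
            rw [Finset.sum_const, nsmul_eq_mul, card_space2]
        _ ≤ _ := by
            apply mul_le_mul_of_nonneg_left _ (by positivity)
            have : 0 ≤ 4 ^ m * (ww c A * ww c B) :=
              mul_nonneg (by positivity) (mul_nonneg (hw0 A) (hw0 B))
            linarith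
  have hinf : ∀ x, ∑ A : Finset X, (if x ∈ A then ww c A else 0) ≤ τ := by
    intro x
    refine le_trans (le_of_eq ?_) (hτ x)
    have h1 : ∀ A : Finset X, (if x ∈ A then ww c A else 0) =
        ∑ α, if spt α = A then (if x ∈ A then c α ^ 2 else 0) else 0 := by
      intro A
      by_cases hx : x ∈ A
      · simp only [if_pos hx]; rfl
      · simp only [if_neg hx]; simp
    simp only [h1]
    rw [Finset.sum_comm]
    refine Finset.sum_congr rfl fun α _ => ?_
    rw [Finset.sum_ite_eq, if_pos (Finset.mem_univ _)]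
    by_cases hx : α x ≠ 0
    · rw [if_pos hx, if_pos ((mem_spt α x).mpr hx)]
    · rw [if_neg hx, if_neg fun h2 => hx ((mem_spt α x).mp h2)]
  have hover : ∀ B : Finset X, ∑ A : Finset X, (if Disjoint A B then 0 else ww c A * ww c B) ≤
      ww c B * (m * τ) := by
    intro B
    rcases lt_or_ge m B.card with hB | hB
    · simp [ww_zero c m hm B hB]
    have h1 : ∀ A : Finset X, (if Disjoint A B then 0 else ww c A * ww c B) ≤
        ww c B * ∑ x ∈ B, (if x ∈ A then ww c A else 0) := by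
      intro A
      have hnn : ∀ x, 0 ≤ (if x ∈ A then ww c A else 0) := by
        intro x; split_ifs
        · exact hw0 A
        · exact le_rfl
      by_cases hd : Disjoint A B
      · rw [if_pos hd]
        exact mul_nonneg (hw0 B) (Finset.sum_nonneg fun x _ => hnn x)
      · rw [if_neg hd]
        obtain ⟨x, hxA, hxB⟩ := Finset.not_disjoint_iff.mp hd
        rw [mul_comm]
        apply mul_le_mul_of_nonneg_left _ (hw0 B)
        have := Finset.single_le_sum (fun x _ => hnn x) hxB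
        rw [if_pos hxA] at this
        exact this
    calc ∑ A : Finset X, (if Disjoint A B then 0 else ww c A * ww c B)
        ≤ ∑ A : Finset X, ww c B * ∑ x ∈ B, (if x ∈ A then ww c A else 0) :=
          Finset.sum_le_sum fun A _ => h1 A
      _ = ww c B * ∑ x ∈ B, ∑ A : Finset X, (if x ∈ A then ww c A else 0) := by
          rw [← Finset.mul_sum, Finset.sum_comm]
      _ ≤ ww c B * ∑ x ∈ B, τ :=
          mul_le_mul_of_nonneg_left (Finset.sum_le_sum fun x _ => hinf x) (hw0 B)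
      _ = ww c B * (B.card * τ) := by rw [Finset.sum_const, nsmul_eq_mul]
      _ ≤ ww c B * (m * τ) := by
          apply mul_le_mul_of_nonneg_left _ (hw0 B)
          apply mul_le_mul_of_nonneg_right _ hτ0
          exact_mod_cast hB
  have hexp : ∀ z : X → (Fin l → Bool) × (Fin l → Bool), (∑ A, dd c A z ^ 2) ^ 2 =
      ∑ A, ∑ B, dd c A z ^ 2 * dd c B z ^ 2 := by
    intro z
    rw [sq, Finset.sum_mul_sum]
  calc ∑ z, (∑ A, dd c A z ^ 2) ^ 2
      = ∑ A, ∑ B, ∑ z, dd c A z ^ 2 * dd c B z ^ 2 := by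
        simp only [hexp]
        rw [Finset.sum_comm]
        refine Finset.sum_congr rfl fun A _ => ?_
        rw [Finset.sum_comm]
    _ ≤ ∑ A : Finset X, ∑ B : Finset X, N ^ 2 * (4 ^ m * (ww c A * ww c B) +
        (4 * 2 ^ l) ^ (2 * m) * (if Disjoint A B then 0 else ww c A * ww c B)) :=
        Finset.sum_le_sum fun A _ => Finset.sum_le_sum fun B _ => hAB A B
    _ = N ^ 2 * (4 ^ m * (∑ A : Finset X, ∑ B : Finset X, ww c A * ww c B) +
        (4 * 2 ^ l) ^ (2 * m) *
          ∑ B : Finset X, ∑ A : Finset X, (if Disjoint A B then 0 else ww c A * ww c B)) := by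
        simp only [← Finset.mul_sum, Finset.sum_add_distrib]
        congr 3
        exact Finset.sum_comm
    _ ≤ N ^ 2 * (4 ^ m * (∑ α, c α ^ 2) ^ 2 +
        (4 * 2 ^ l) ^ (2 * m) * (m * τ * ∑ α, c α ^ 2)) := by
        apply mul_le_mul_of_nonneg_left _ (by positivity)
        apply add_le_add
        · apply mul_le_mul_of_nonneg_left _ (by positivity)
          rw [← Finset.sum_mul_sum, sum_ww, sq]
        · apply mul_le_mul_of_nonneg_left _ (by positivity)
          calc ∑ B : Finset X, ∑ A : Finset X, (if Disjoint A B then 0 else ww c A * ww c B)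
              ≤ ∑ B : Finset X, ww c B * (m * τ) := Finset.sum_le_sum fun B _ => hover B
            _ = m * τ * ∑ α, c α ^ 2 := by rw [← Finset.sum_mul, sum_ww]; ring

/-- The fourth moment estimate. -/
theorem fourth (m : ℕ) (hm : ∀ α, m < (spt α).card → c α = 0) (τ : ℝ) (hτ0 : 0 ≤ τ)
    (hτ : ∀ x, ∑ α : X → Fin l → Bool, (if α x ≠ 0 then c α ^ 2 else 0) ≤ τ) :
    ∑ y, (∑ α, c α * chp α y) ^ 4 ≤ ((2 : ℝ) ^ l) ^ Fintype.card X * (9 ^ m *
      (4 ^ m * (∑ α, c α ^ 2) ^ 2 + (4 * 2 ^ l) ^ (2 * m) * (m * τ * ∑ α, c α ^ 2))) := by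
  set N : ℝ := ((2 : ℝ) ^ l) ^ Fintype.card X with hN
  have hN0 : 0 < N := by positivity
  have h1 := fourth_a c
  have h2 := fourth_b c m hm
  have h3 := fourth_c c m hm τ hτ0 hτ
  have h4 : N * ∑ y, (∑ α, c α * chp α y) ^ 4 ≤ N * (N * (9 ^ m *
      (4 ^ m * (∑ α, c α ^ 2) ^ 2 + (4 * 2 ^ l) ^ (2 * m) * (m * τ * ∑ α, c α ^ 2)))) := by
    refine h1.trans (h2.trans ((mul_le_mul_of_nonneg_left h3 (by positivity)).trans
      (le_of_eq ?_)))
    ring
  exact le_of_mul_le_mul_left h4 hN0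

end Pool.Agent.KS6_6.SC
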