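import Pool.Agent.KS6_6.SC.Sound
import Pool.Agent.KS6_6.SC.Compl
import Pool.Agent.KS6_6.UG.Param

set_option autoImplicit false

/-!
Choice of constants.
-/

namespace Pool.Agent.KS6_6.SC

open Finset Pool.Agent.KS6_6.UG

theorem noise_params (ε δ : ℝ) (hε : 0 < ε) (hε1 : ε ≤ 1) (hδ0 : 0 < δ) (hδ1 : δ < 1) :
    ∃ n t : ℕ, (3 / 2 : ℝ) ^ n ≤ 3 / 2 * ((Real.log (1 / δ) + 1) / ε) ∧
      (t : ℝ) * (1 / 2) ^ n ≤ ε ∧ (1 - (3 / 4) ^ n : ℝ) ^ t ≤ δ := by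
  set Λ : ℝ := Real.log (1 / δ) with hΛ
  have hΛ0 : 0 < Λ := Real.log_pos (by rw [lt_div_iff₀ hδ0]; linarith)
  have hX : 1 ≤ (Λ + 1) / ε := by
    rw [le_div_iff₀ hε]; linarith
  obtain ⟨n', hn1, hn2⟩ := exists_nat_pow_near hX (show (1 : ℝ) < 3 / 2 by norm_num)
  obtain ⟨n, hnn⟩ : ∃ n, n = n' + 1 := ⟨_, rfl⟩
  rw [← hnn] at hn2
  have hn : (2 / 3 : ℝ) ^ n < ε / (Λ + 1) := by
    have e1 : (2 / 3 : ℝ) ^ n = 1 / (3 / 2) ^ n := by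
      rw [one_div, ← inv_pow]; norm_num
    rw [e1, div_lt_div_iff₀ (by positivity) (by positivity), one_mul]
    rw [div_lt_iff₀ hε] at hn2
    linarith
  have hn3 : (3 / 2 : ℝ) ^ n ≤ 3 / 2 * ((Λ + 1) / ε) := by
    rw [hnn, pow_succ]
    linarith
  refine ⟨n, ⌈(4 / 3 : ℝ) ^ n * Λ⌉₊, hn3, ?_, ?_⟩
  · have h1 : (⌈(4 / 3 : ℝ) ^ n * Λ⌉₊ : ℝ) ≤ (4 / 3 : ℝ) ^ n * Λ + 1 :=
      (Nat.ceil_lt_add_one (by positivity)).le
    have h2 : (1 / 2 : ℝ) ^ n ≤ (2 / 3) ^ n := pow_le_pow_left₀ (by norm_num) (by norm_num) n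
    have h3 : (4 / 3 : ℝ) ^ n * (1 / 2) ^ n = (2 / 3) ^ n := by rw [← mul_pow]; norm_num
    calc (⌈(4 / 3 : ℝ) ^ n * Λ⌉₊ : ℝ) * (1 / 2) ^ n ≤ ((4 / 3 : ℝ) ^ n * Λ + 1) * (1 / 2) ^ n :=
          mul_le_mul_of_nonneg_right h1 (by positivity)
      _ = ((4 / 3 : ℝ) ^ n * (1 / 2) ^ n) * Λ + (1 / 2) ^ n := by ring
      _ ≤ (2 / 3) ^ n * Λ + (2 / 3) ^ n := by rw [h3]; linarith
      _ = (2 / 3) ^ n * (Λ + 1) := by ring
      _ ≤ ε := by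
          rw [lt_div_iff₀ (by linarith)] at hn
          exact hn.le
  · have h1 : (0 : ℝ) ≤ 1 - (3 / 4) ^ n := by
      have : (3 / 4 : ℝ) ^ n ≤ 1 := pow_le_one₀ (by norm_num) (by norm_num)
      linarith
    have h2 := pow_le_exp ((3 / 4 : ℝ) ^ n) h1 ⌈(4 / 3 : ℝ) ^ n * Λ⌉₊
    refine h2.trans ?_
    have h3 : Λ ≤ (⌈(4 / 3 : ℝ) ^ n * Λ⌉₊ : ℝ) * (3 / 4) ^ n := by
      have h4 := Nat.le_ceil ((4 / 3 : ℝ) ^ n * Λ)
      calc Λ = ((4 / 3 : ℝ) ^ n * Λ) * (3 / 4) ^ n := by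
            rw [mul_right_comm, ← mul_pow]; norm_num
        _ ≤ _ := mul_le_mul_of_nonneg_right h4 (by positivity)
    calc Real.exp (-((⌈(4 / 3 : ℝ) ^ n * Λ⌉₊ : ℝ) * (3 / 4) ^ n)) ≤ Real.exp (-Λ) := by
          rw [Real.exp_le_exp]; linarith
      _ = δ := by
          rw [hΛ, one_div, Real.log_inv, neg_neg, Real.exp_log hδ0]

/-- All constants of the composition. -/
theorem consts (ε δ : ℝ) (hε : 0 < ε) (hε1 : ε ≤ 1) (hδ0 : 0 < δ) (hδ1 : δ < 1) :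
    ∃ (n t l : ℕ) (κ τ δ₀ : ℝ),
      (3 / 2 : ℝ) ^ n ≤ 3 / 2 * ((Real.log (1 / (δ ^ 2 / 4)) + 1) / ε) ∧
      (t : ℝ) * (1 / 2) ^ n ≤ ε ∧ 0 < τ ∧ 0 < δ₀ ∧ δ₀ < 1 ∧ 0 ≤ κ ∧
      4 * lseq n < 2 ^ (n + 2 + n + 1) ∧
      2 * 36 ^ (lseq n) * (1 / 2 ^ l : ℝ) ^ 3 ≤ κ ^ 2 ∧
      (4 * 2 ^ l) ^ (2 * lseq n) * (lseq n * τ) ≤ 4 ^ (lseq n) * κ ∧
      lseq n * δ₀ / τ + 2 ^ l * κ + (1 - (3 / 4) ^ n) ^ t ≤ δ ^ 2 := by
  obtain ⟨n, t, h0, h1, h2⟩ := noise_params ε (δ ^ 2 / 4) hε hε1 (by positivity) (by nlinarith)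
  set m := lseq n with hm
  obtain ⟨l, hl⟩ := pow_unbounded_of_one_lt (32 * 36 ^ m / δ ^ 4 : ℝ) (show (1 : ℝ) < 2 by norm_num)
  have hL : (0 : ℝ) < 2 ^ l := by positivity
  set κ : ℝ := δ ^ 2 / 4 / 2 ^ l with hκ
  have hκ0 : 0 < κ := by positivity
  have hκ1 : κ ≤ 1 / 4 := by
    rw [hκ, div_le_iff₀ hL]
    have : (1 : ℝ) ≤ 2 ^ l := one_le_pow₀ (by norm_num)
    nlinarith
  set C : ℝ := (4 * 2 ^ l) ^ (2 * m) with hC
  have hC1 : 1 ≤ C := by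
    apply one_le_pow₀
    have : (1 : ℝ) ≤ 2 ^ l := one_le_pow₀ (by norm_num)
    linarith
  set τ : ℝ := κ / (C * (m + 1)) with hτ
  have hm1 : (1 : ℝ) ≤ m + 1 := by
    have : (0 : ℝ) ≤ m := by positivity
    linarith
  have hCm : 1 ≤ C * (m + 1) := by nlinarith
  have hτ0 : 0 < τ := by positivity
  have hτ1 : τ ≤ 1 / 4 := by
    rw [hτ, div_le_iff₀ (by positivity)]
    nlinarith
  refine ⟨n, t, l, κ, τ, τ * δ ^ 2 / (4 * (m + 1)), h0, h1, hτ0, by positivity, ?_, hκ0.le, ?_, ?_, ?_,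
    ?_⟩
  · rw [div_lt_one (by positivity)]
    nlinarith [mul_pos hτ0 (show (0 : ℝ) < δ ^ 2 by positivity)]
  · have h3 := lseq_eq n
    rw [← hm] at h3
    have h4 : 2 ^ (n + 2 + n + 1) = 2 * 4 ^ (n + 1) := by
      rw [show (4 : ℕ) = 2 ^ 2 from rfl, ← pow_mul, ← pow_succ']
      congr 1; ring
    rw [h4]
    omega
  · have h3 : 32 * 36 ^ m ≤ 2 ^ l * δ ^ 4 := by
      rw [div_lt_iff₀ (by positivity)] at hl
      exact hl.le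
    have h5 : κ ^ 2 = δ ^ 4 / (16 * (2 ^ l) ^ 2) := by
      rw [hκ]; ring
    have h6 : 2 * 36 ^ m * (1 / 2 ^ l : ℝ) ^ 3 = 2 * 36 ^ m / (2 ^ l) ^ 3 := by
      rw [div_pow, one_pow, mul_one_div]
    rw [h5, h6, div_le_div_iff₀ (by positivity) (by positivity)]
    calc 2 * 36 ^ m * (16 * (2 ^ l) ^ 2) = (32 * 36 ^ m) * (2 ^ l : ℝ) ^ 2 := by ring
      _ ≤ (2 ^ l * δ ^ 4) * (2 ^ l) ^ 2 := mul_le_mul_of_nonneg_right h3 (by positivity)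
      _ = δ ^ 4 * (2 ^ l) ^ 3 := by ring
  · rw [hτ]
    have h3 : C * (m * (κ / (C * (m + 1)))) = κ * (m / (m + 1)) := by
      field_simp
    rw [h3]
    have h4 : (m : ℝ) / (m + 1) ≤ 1 := by
      rw [div_le_one (by linarith)]; linarith
    have h5 : (1 : ℝ) ≤ 4 ^ m := one_le_pow₀ (by norm_num)
    nlinarith
  · have h3 : m * (τ * δ ^ 2 / (4 * (m + 1))) / τ ≤ δ ^ 2 / 4 := by
      have h4 : m * (τ * δ ^ 2 / (4 * (m + 1))) / τ = δ ^ 2 / 4 * (m / (m + 1)) := by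
        field_simp
      rw [h4]
      have h5 : (m : ℝ) / (m + 1) ≤ 1 := by
        rw [div_le_one (by linarith)]; linarith
      have : 0 ≤ δ ^ 2 / 4 := by positivity
      nlinarith
    have h6 : 2 ^ l * κ = δ ^ 2 / 4 := by
      rw [hκ]; field_simp
    have h7 : 0 ≤ δ ^ 2 := sq_nonneg δ
    rw [h6]
    linarith

/-- The exponent in the number of local constraints. -/
theorem exponent (ε δ : ℝ) (hε0 : 0 < ε) (hε1 : ε < 1) (hδ0 : 0 < δ) (hδ1 : δ < 1) (n : ℕ)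
    (hn : (3 / 2 : ℝ) ^ n ≤ 3 / 2 * ((Real.log (1 / (δ ^ 2 / 4)) + 1) / (ε / 2))) :
    (2 * ((n + 2 + n : ℕ) + 2) : ℝ) ≤ 20 * Real.log (8 * Real.log (2 / δ) / ε) := by
  set L : ℝ := Real.log (2 / δ) with hL
  have hlog2 := Real.log_two_gt_d9
  have hL2 : Real.log 2 ≤ L := by
    apply Real.log_le_log (by norm_num)
    rw [le_div_iff₀ hδ0]; linarith
  have hL0 : 0 < L := by linarith
  have e1 : Real.log (1 / (δ ^ 2 / 4)) = 2 * L := by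
    have : 1 / (δ ^ 2 / 4) = (2 / δ) ^ 2 := by field_simp; norm_num
    rw [this, Real.log_pow, ← hL]; norm_num
  rw [e1] at hn
  set Y : ℝ := 8 * L / ε with hY
  have hY5 : 5 ≤ Y := by
    rw [hY, le_div_iff₀ hε0]; nlinarith
  have hY0 : 0 < Y := by linarith
  have e2 : 3 / 2 * ((2 * L + 1) / (ε / 2)) ≤ 4 / 3 * Y := by
    have : 3 / 2 * ((2 * L + 1) / (ε / 2)) = (6 * L + 3) / ε := by field_simp; ring
    rw [this, hY, ← mul_div_assoc]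
    apply div_le_div_of_nonneg_right _ hε0.le
    linarith
  have e3 : (n : ℝ) * Real.log (3 / 2) ≤ Real.log (4 / 3 * Y) := by
    rw [← Real.log_pow]
    exact Real.log_le_log (by positivity) (hn.trans e2)
  have e4 : (1 : ℝ) / 3 ≤ Real.log (3 / 2) := by
    have := Real.one_sub_inv_le_log_of_pos (show (0 : ℝ) < 3 / 2 by norm_num)
    norm_num at this ⊢
    linarith
  have e5 : Real.log (4 / 3 * Y) ≤ 1 / 3 + Real.log Y := by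
    rw [Real.log_mul (by norm_num) hY0.ne']
    have := Real.log_le_sub_one_of_pos (show (0 : ℝ) < 4 / 3 by norm_num)
    linarith
  have e6 : (n : ℝ) * (1 / 3) ≤ 1 / 3 + Real.log Y := by
    have : (n : ℝ) * (1 / 3) ≤ n * Real.log (3 / 2) :=
      mul_le_mul_of_nonneg_left e4 (by positivity)
    linarith
  have e7 : 1.58 ≤ Real.log Y := by
    have f1 : Real.log Y = 2 * Real.log 2 + Real.log (Y / 4) := by
      rw [Real.log_div hY0.ne' (by norm_num), show (4 : ℝ) = 2 ^ 2 by norm_num, Real.log_pow]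
      push_cast; ring
    have f2 := Real.one_sub_inv_le_log_of_pos (show (0 : ℝ) < Y / 4 by positivity)
    have f3 : (Y / 4)⁻¹ ≤ 4 / 5 := by
      rw [inv_div]
      gcongr
    rw [f1]
    linarith
  push_cast
  linarith

end Pool.Agent.KS6_6.SC
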