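import Pool.Agent.KS6_6.UG.Walsh

set_option autoImplicit false

/-!
Fourier analysis on finite groups of exponent two with values of characters in `Bool`.
-/

namespace Pool.Agent.KS6_6.SC

open Finset Pool.Agent.KS6_6.UG

noncomputable instance instFintypeDual (Γ : Type) [AddCommGroup Γ] [Finite Γ] :
    Fintype (Γ →+ Bool) := @Fintype.ofFinite _ (DFunLike.finite _)

section

variable {Γ : Type} [AddCommGroup Γ] [Fintype Γ]

theorem sum_sg_char (φ : Γ →+ Bool) [Decidable (φ = 0)] :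
    ∑ γ, sg (φ γ) = if φ = 0 then (Fintype.card Γ : ℝ) else 0 := by
  by_cases h1 : φ = 0
  · rw [if_pos h1, h1]
    simp only [AddMonoidHom.zero_apply]
    have : sg (0 : Bool) = 1 := rfl
    simp [this]
  · rw [if_neg h1]
    obtain ⟨γ₀, hγ₀⟩ : ∃ γ₀, φ γ₀ ≠ 0 := by
      by_contra hcon
      push Not at hcon
      exact h1 (AddMonoidHom.ext hcon)
    have h2 : ∑ γ, sg (φ γ) = ∑ γ, sg (φ (γ + γ₀)) :=
      (Equiv.sum_comp (Equiv.addRight γ₀) (fun γ => sg (φ γ))).symm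
    have h3 : ∀ γ, sg (φ (γ + γ₀)) = - sg (φ γ) := by
      intro γ
      rw [map_add, sg_add]
      have : φ γ₀ = true := by
        cases h4 : φ γ₀
        · exact absurd h4 hγ₀
        · rfl
      rw [this, sg_true]; ring
    simp only [h3] at h2
    rw [Finset.sum_neg_distrib] at h2
    linarith

omit [Fintype Γ] in
theorem bool_hom_add_self (φ : Γ →+ Bool) : φ + φ = 0 := by
  ext γ; exact bool_add_self _

/-- Elements are separated by characters. -/
def Sep (Γ : Type) [AddCommGroup Γ] : Prop := ∀ γ : Γ, γ ≠ 0 → ∃ φ : Γ →+ Bool, φ γ = true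

theorem sum_sg_pt (hsep : Sep Γ) (γ : Γ) [Decidable (γ = 0)] :
    ∑ φ : Γ →+ Bool, sg (φ γ) = if γ = 0 then (Fintype.card (Γ →+ Bool) : ℝ) else 0 := by
  by_cases h1 : γ = 0
  · rw [if_pos h1, h1]
    have : ∀ φ : Γ →+ Bool, sg (φ 0) = 1 := by
      intro φ; rw [map_zero]; rfl
    rw [Finset.sum_congr rfl fun φ _ => this φ, Finset.sum_const, nsmul_eq_mul, mul_one,
      Finset.card_univ]
  · rw [if_neg h1]
    obtain ⟨φ₀, hφ₀⟩ := hsep γ h1
    have h2 : ∑ φ : Γ →+ Bool, sg (φ γ) = ∑ φ : Γ →+ Bool, sg ((φ + φ₀) γ) :=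
      (Equiv.sum_comp (Equiv.addRight φ₀) (fun φ : Γ →+ Bool => sg (φ γ))).symm
    have h3 : ∀ φ : Γ →+ Bool, sg ((φ + φ₀) γ) = - sg (φ γ) := by
      intro φ
      rw [AddMonoidHom.add_apply, sg_add, hφ₀, sg_true]; ring
    simp only [h3] at h2
    rw [Finset.sum_neg_distrib] at h2
    linarith

theorem card_dual (hsep : Sep Γ) : (Fintype.card (Γ →+ Bool) : ℝ) = Fintype.card Γ := by
  classical
  have h1 : ∑ φ : Γ →+ Bool, ∑ γ : Γ, sg (φ γ) = Fintype.card Γ := by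
    simp only [sum_sg_char]
    rw [Finset.sum_ite_eq' (Finset.univ : Finset (Γ →+ Bool)) 0, if_pos (Finset.mem_univ _)]
  rw [Finset.sum_comm] at h1
  simp only [sum_sg_pt hsep] at h1
  rw [Finset.sum_ite_eq' (Finset.univ : Finset Γ) 0, if_pos (Finset.mem_univ _)] at h1
  exact h1

/-- Fourier coefficient. -/
noncomputable def fo (g : Γ → ℝ) (φ : Γ →+ Bool) : ℝ := (∑ γ, g γ * sg (φ γ)) / Fintype.card Γ

theorem card_pos' : (0 : ℝ) < Fintype.card Γ := by
  have : Nonempty Γ := ⟨0⟩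
  exact_mod_cast Fintype.card_pos

theorem plancherel (hsep : Sep Γ) (hself : ∀ γ : Γ, γ + γ = 0) (f g : Γ → ℝ) :
    ∑ φ, fo f φ * fo g φ = (∑ γ, f γ * g γ) / Fintype.card Γ := by
  classical
  have hc := card_pos' (Γ := Γ)
  have h1 : ∀ φ : Γ →+ Bool, fo f φ * fo g φ =
      (∑ γ, ∑ γ', f γ * g γ' * sg (φ (γ + γ'))) / (Fintype.card Γ * Fintype.card Γ : ℝ) := by
    intro φ
    unfold fo
    rw [div_mul_div_comm, Finset.sum_mul_sum]
    congr 1
    refine Finset.sum_congr rfl fun γ _ => Finset.sum_congr rfl fun γ' _ => ?_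
    rw [map_add, sg_add]; ring
  simp only [h1]
  rw [← Finset.sum_div, div_eq_div_iff (by positivity) (by positivity)]
  have h2 : ∑ φ : Γ →+ Bool, ∑ γ, ∑ γ', f γ * g γ' * sg (φ (γ + γ')) =
      (∑ γ, f γ * g γ) * Fintype.card Γ := by
    rw [Finset.sum_comm, Finset.sum_mul]
    refine Finset.sum_congr rfl fun γ _ => ?_
    rw [Finset.sum_comm, Finset.sum_eq_single γ]
    · rw [← Finset.mul_sum, sum_sg_pt hsep, if_pos (hself γ), card_dual hsep]
    · intro γ' _ hne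
      rw [← Finset.mul_sum, sum_sg_pt hsep, if_neg, mul_zero]
      intro h3
      apply hne
      calc γ' = (γ + γ) + γ' := by rw [hself, zero_add]
        _ = γ + (γ + γ') := by rw [add_assoc]
        _ = γ := by rw [h3, add_zero]
    · intro h3; exact absurd (Finset.mem_univ γ) h3
  rw [h2]; ring

theorem plancherel_sq (hsep : Sep Γ) (hself : ∀ γ : Γ, γ + γ = 0) (f : Γ → ℝ) :
    ∑ φ, fo f φ ^ 2 = (∑ γ, f γ ^ 2) / Fintype.card Γ := by
  have := plancherel hsep hself f f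
  simp only [← sq] at this
  exact this

theorem fo_add (f g : Γ → ℝ) (φ : Γ →+ Bool) : fo (fun γ => f γ + g γ) φ = fo f φ + fo g φ := by
  unfold fo
  rw [← add_div, ← Finset.sum_add_distrib]
  congr 1
  exact Finset.sum_congr rfl fun γ _ => by ring

theorem fo_sum {ι : Type} (s : Finset ι) (f : ι → Γ → ℝ) (φ : Γ →+ Bool) :
    fo (fun γ => ∑ i ∈ s, f i γ) φ = ∑ i ∈ s, fo (f i) φ := by
  unfold fo
  rw [← Finset.sum_div, Finset.sum_comm]
  congr 1
  exact Finset.sum_congr rfl fun γ _ => by rw [Finset.sum_mul]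

theorem fo_div (f : Γ → ℝ) (a : ℝ) (φ : Γ →+ Bool) : fo (fun γ => f γ / a) φ = fo f φ / a := by
  unfold fo
  have h1 : ∑ γ, f γ / a * sg (φ γ) = (∑ γ, f γ * sg (φ γ)) / a := by
    rw [Finset.sum_div]
    exact Finset.sum_congr rfl fun γ _ => by ring
  rw [h1, div_right_comm]

theorem fo_shift (hself : ∀ γ : Γ, γ + γ = 0) (f : Γ → ℝ) (η : Γ) (φ : Γ →+ Bool) :
    fo (fun γ => f (γ + η)) φ = sg (φ η) * fo f φ := by
  unfold fo
  rw [← mul_div_assoc, Finset.mul_sum]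
  congr 1
  rw [← Equiv.sum_comp (Equiv.addRight η)]
  refine Finset.sum_congr rfl fun γ _ => ?_
  have h1 : (Equiv.addRight η) γ = γ + η := rfl
  rw [h1]
  show f (γ + η + η) * sg (φ (γ + η)) = sg (φ η) * (f γ * sg (φ γ))
  rw [add_assoc, hself, add_zero, map_add, sg_add]
  ring

/-- The noise operator. -/
noncomputable def noise {R : Type} [Fintype R] (η : R → Γ) (f : Γ → ℝ) (γ : Γ) : ℝ :=
  (∑ r, f (γ + η r)) / Fintype.card R

/-- Eigenvalue of the noise operator. -/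
noncomputable def eig {R : Type} [Fintype R] (η : R → Γ) (φ : Γ →+ Bool) : ℝ :=
  (∑ r, sg (φ (η r))) / Fintype.card R

theorem fo_noise {R : Type} [Fintype R] (hself : ∀ γ : Γ, γ + γ = 0) (η : R → Γ) (f : Γ → ℝ)
    (φ : Γ →+ Bool) : fo (noise η f) φ = eig η φ * fo f φ := by
  unfold noise eig
  rw [fo_div, fo_sum, div_mul_eq_mul_div]
  congr 1
  rw [Finset.sum_mul]
  exact Finset.sum_congr rfl fun r _ => fo_shift hself f (η r) φ

/-- The noise operator on functions with little weight on a set of characters outside of which the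
eigenvalues are small. -/
theorem noise_bound {R : Type} [Fintype R] (hsep : Sep Γ) (hself : ∀ γ : Γ, γ + γ = 0) (η : R → Γ)
    (f : Γ → ℝ) (Low : (Γ →+ Bool) → Prop) [DecidablePred Low] (θ : ℝ) (hθ : 0 ≤ θ)
    (h1 : ∀ φ, eig η φ ^ 2 ≤ 1) (h2 : ∀ φ, ¬ Low φ → eig η φ ^ 2 ≤ θ) :
    (∑ γ, noise η f γ ^ 2) / Fintype.card Γ ≤
      (∑ φ, if Low φ then fo f φ ^ 2 else 0) + θ * ((∑ γ, f γ ^ 2) / Fintype.card Γ) := by
  rw [← plancherel_sq hsep hself, ← plancherel_sq hsep hself, Finset.mul_sum,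
    ← Finset.sum_add_distrib]
  refine Finset.sum_le_sum fun φ _ => ?_
  rw [fo_noise hself, mul_pow]
  have h3 := sq_nonneg (fo f φ)
  by_cases hL : Low φ
  · rw [if_pos hL]
    have := h1 φ
    nlinarith [mul_nonneg hθ h3]
  · rw [if_neg hL, zero_add]
    exact mul_le_mul_of_nonneg_right (h2 φ hL) h3

theorem noise_contract {R : Type} [Fintype R] (hsep : Sep Γ) (hself : ∀ γ : Γ, γ + γ = 0)
    (η : R → Γ) (f : Γ → ℝ) (h1 : ∀ φ, eig η φ ^ 2 ≤ 1) :
    (∑ γ, noise η f γ ^ 2) / Fintype.card Γ ≤ (∑ γ, f γ ^ 2) / Fintype.card Γ := by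
  rw [← plancherel_sq hsep hself, ← plancherel_sq hsep hself]
  refine Finset.sum_le_sum fun φ _ => ?_
  rw [fo_noise hself, mul_pow]
  have h3 := sq_nonneg (fo f φ)
  have := h1 φ
  nlinarith

theorem sg_le (b : Bool) : sg b ≤ 1 := by cases b <;> norm_num

theorem sg_ge (b : Bool) : -1 ≤ sg b := by cases b <;> norm_num

omit [Fintype Γ] in
theorem eig_sq_le {R : Type} [Fintype R] (η : R → Γ) (φ : Γ →+ Bool) : eig η φ ^ 2 ≤ 1 := by
  unfold eig
  rcases isEmpty_or_nonempty R with hR | hR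
  · simp
  have hc : (0 : ℝ) < Fintype.card R := by exact_mod_cast Fintype.card_pos
  rw [div_pow, div_le_one (by positivity)]
  have h1 : ∑ r, sg (φ (η r)) ≤ Fintype.card R := by
    calc ∑ r, sg (φ (η r)) ≤ ∑ _r : R, (1 : ℝ) := Finset.sum_le_sum fun r _ => sg_le _
      _ = Fintype.card R := by simp
  have h2 : -(Fintype.card R : ℝ) ≤ ∑ r, sg (φ (η r)) := by
    calc -(Fintype.card R : ℝ) = ∑ _r : R, (-1 : ℝ) := by simp
      _ ≤ ∑ r, sg (φ (η r)) := Finset.sum_le_sum fun r _ => sg_ge _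
  nlinarith

end

end Pool.Agent.KS6_6.SC
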