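import Pool.Agent.KS6_6.SC.Low

set_option autoImplicit false

/-!
Folded tables, translations and their influences.
-/

namespace Pool.Agent.KS6_6.SC

open Finset Pool.Agent.KS6_6.UG

variable {h l D : ℕ}

/-- Translation of polynomials. -/
def tr (c : Fin h → Bool) (γ : PP h l D) : PP h l D := ⟨trl c γ.1, mem_trl D c γ.1 γ.2⟩

/-- Constants. -/
def cst (b : Fin l → Bool) : PP h l D :=
  ⟨fun _ => b, mem_le 0 D (Nat.zero_le D) _ (fun _ _ => rfl)⟩

theorem tr_tr (c : Fin h → Bool) (γ : PP h l D) : tr c (tr c γ) = γ := by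
  apply Subtype.ext
  funext x
  show γ.1 (x + c + c) = γ.1 x
  rw [add_assoc, pi_add_self, add_zero]

theorem tr_add (c : Fin h → Bool) (γ γ' : PP h l D) : tr c (γ + γ') = tr c γ + tr c γ' := rfl

theorem tr_cst (c : Fin h → Bool) (b : Fin l → Bool) : tr c (cst b : PP h l D) = cst b := rfl

theorem cst_add (b b' : Fin l → Bool) : (cst (b + b') : PP h l D) = cst b + cst b' := rfl

theorem cst_self (b : Fin l → Bool) : (cst b : PP h l D) + cst b = 0 := selfPP D _

/-- Translation as an equivalence. -/
def trE (c : Fin h → Bool) : Equiv.Perm (PP h l D) where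
  toFun := tr c
  invFun := tr c
  left_inv := tr_tr c
  right_inv := tr_tr c

theorem sum_tr (c : Fin h → Bool) (F : PP h l D → ℝ) : ∑ γ, F (tr c γ) = ∑ γ, F γ :=
  Equiv.sum_comp (trE c) F

theorem sum_addP (ζ : PP h l D) (F : PP h l D → ℝ) : ∑ γ, F (γ + ζ) = ∑ γ, F γ :=
  Equiv.sum_comp (Equiv.addRight ζ) F

theorem sum_addB (z : Fin l → Bool) (F : (Fin l → Bool) → ℝ) : ∑ b, F (b + z) = ∑ b, F b :=
  Equiv.sum_comp (Equiv.addRight z) F

/-- Folded table: the probability of the value `i` after a random shift by a constant. -/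
noncomputable def fold (L : PP h l D → Fin l → Bool) (i : Fin l → Bool) (γ : PP h l D) : ℝ :=
  (∑ b, if L (γ + cst b) + b = i then (1 : ℝ) else 0) / 2 ^ l

theorem fold_nonneg (L : PP h l D → Fin l → Bool) (i : Fin l → Bool) (γ : PP h l D) :
    0 ≤ fold L i γ := by
  unfold fold
  apply div_nonneg _ (by positivity)
  exact Finset.sum_nonneg fun b _ => by split_ifs <;> norm_num

theorem card_lab : (Fintype.card (Fin l → Bool) : ℝ) = 2 ^ l := by
  rw [Fintype.card_fun, Fintype.card_bool, Fintype.card_fin]; push_cast; rfl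

theorem sum_fold (L : PP h l D → Fin l → Bool) (γ : PP h l D) : ∑ i, fold L i γ = 1 := by
  unfold fold
  rw [← Finset.sum_div, Finset.sum_comm]
  simp only [Finset.sum_ite_eq, Finset.mem_univ, if_true, Finset.sum_const, Finset.card_univ,
    nsmul_eq_mul, mul_one]
  rw [card_lab, div_self (by positivity)]

theorem fold_le_one (L : PP h l D → Fin l → Bool) (i : Fin l → Bool) (γ : PP h l D) :
    fold L i γ ≤ 1 := by
  rw [← sum_fold L γ]
  exact Finset.single_le_sum (fun j _ => fold_nonneg L j γ) (Finset.mem_univ i)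

theorem bits_eq_iff (x y i : Fin l → Bool) : x + y = i ↔ y = x + i := by
  constructor
  · rintro rfl
    rw [← add_assoc, pi_add_self, zero_add]
  · rintro rfl
    rw [← add_assoc, pi_add_self, zero_add]

theorem mean_fold (L : PP h l D → Fin l → Bool) (i : Fin l → Bool) :
    (∑ γ, fold L i γ) / Fintype.card (PP h l D) = 1 / 2 ^ l := by
  unfold fold
  rw [← Finset.sum_div, Finset.sum_comm]
  have h1 : ∀ b : Fin l → Bool, ∑ γ : PP h l D, (if L (γ + cst b) + b = i then (1 : ℝ) else 0) =
      ∑ γ : PP h l D, (if L γ + b = i then (1 : ℝ) else 0) := fun b =>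
    sum_addP (cst b) (fun γ => if L γ + b = i then (1 : ℝ) else 0)
  simp only [h1]
  rw [Finset.sum_comm]
  simp only [bits_eq_iff, Finset.sum_ite_eq', Finset.mem_univ, if_true, Finset.sum_const,
    Finset.card_univ, nsmul_eq_mul, mul_one]
  have := card_pos' (Γ := PP h l D)
  field_simp

theorem sum_fold_sq (L : PP h l D → Fin l → Bool) (γ : PP h l D) : ∑ i, fold L i γ ^ 2 ≤ 1 := by
  rw [← sum_fold L γ]
  refine Finset.sum_le_sum fun i _ => ?_
  have h1 := fold_nonneg L i γ
  have h2 := fold_le_one L i γ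
  nlinarith

/-- Correlation of two tables. -/
theorem fold_corr (L M : PP h l D → Fin l → Bool) :
    ∑ γ, ∑ b, (if M (γ + cst b) = L γ + b then (1 : ℝ) else 0) =
      2 ^ l * ∑ γ, ∑ i, fold L i γ * fold M i γ := by
  have h1 : ∀ γ : PP h l D, ∑ i, fold L i γ * fold M i γ =
      (∑ b', ∑ b, if L (γ + cst b') + b' = M (γ + cst b) + b then (1 : ℝ) else 0) /
        (2 ^ l * 2 ^ l) := by
    intro γ
    unfold fold
    simp only [div_mul_div_comm]
    rw [← Finset.sum_div]
    congr 1
    simp only [Finset.sum_mul_sum]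
    rw [Finset.sum_comm]
    refine Finset.sum_congr rfl fun b' _ => ?_
    rw [Finset.sum_comm]
    refine Finset.sum_congr rfl fun b _ => ?_
    rw [Finset.sum_eq_single (L (γ + cst b') + b')]
    · rw [if_pos rfl, one_mul]
      by_cases h2 : L (γ + cst b') + b' = M (γ + cst b) + b
      · rw [if_pos h2.symm, if_pos h2]
      · rw [if_neg (Ne.symm h2), if_neg h2]
    · intro i _ hi
      rw [if_neg (Ne.symm hi), zero_mul]
    · intro h2; exact absurd (Finset.mem_univ _) h2
  simp only [h1]
  rw [← Finset.sum_div]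
  have h2 : ∑ γ : PP h l D, ∑ b' : Fin l → Bool, ∑ b : Fin l → Bool,
      (if L (γ + cst b') + b' = M (γ + cst b) + b then (1 : ℝ) else 0) =
      2 ^ l * ∑ γ, ∑ b, (if M (γ + cst b) = L γ + b then (1 : ℝ) else 0) := by
    rw [Finset.sum_comm]
    have h3 : ∀ b' : Fin l → Bool, ∑ γ : PP h l D, ∑ b : Fin l → Bool,
        (if L (γ + cst b') + b' = M (γ + cst b) + b then (1 : ℝ) else 0) =
        ∑ γ, ∑ b, (if M (γ + cst b) = L γ + b then (1 : ℝ) else 0) := by
      intro b'
      rw [← sum_addP (cst b')]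
      refine Finset.sum_congr rfl fun γ _ => ?_
      rw [← sum_addB b']
      refine Finset.sum_congr rfl fun b _ => ?_
      have e1 : γ + cst b' + cst b' = γ := by rw [add_assoc, cst_self, add_zero]
      have e2 : γ + cst b' + cst (b + b') = γ + cst b := by
        rw [cst_add, add_comm (cst b) (cst b'), ← add_assoc, add_assoc γ, cst_self, add_zero]
      rw [e1, e2]
      have e3 : L γ + b' = M (γ + cst b) + (b + b') ↔ M (γ + cst b) = L γ + b := by
        rw [← add_assoc]
        constructor
        · intro h4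
          have h5 := add_right_cancel h4
          rw [h5, add_assoc, pi_add_self, add_zero]
        · intro h4
          rw [h4, add_assoc (L γ), pi_add_self, add_zero]
      by_cases h4 : M (γ + cst b) = L γ + b
      · rw [if_pos h4, if_pos (e3.mpr h4)]
      · rw [if_neg h4, if_neg fun h5 => h4 (e3.mp h5)]
    simp only [h3]
    rw [Finset.sum_const, Finset.card_univ, nsmul_eq_mul, card_lab]
  rw [h2]
  have : (2 : ℝ) ^ l ≠ 0 := by positivity
  field_simp

theorem sup_trl (c : Fin h → Bool) (α : Fnc h l) : (sup (trl c α)).card = (sup α).card := by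
  have h1 : sup (trl c α) = (sup α).map (Equiv.addRight c).toEmbedding := by
    ext x
    rw [mem_sup, Finset.mem_map_equiv, mem_sup]
    have : (Equiv.addRight c).symm x = x + c := rfl
    rw [this]; rfl
  rw [h1, Finset.card_map]

theorem pr_trl (c : Fin h → Bool) (α f : Fnc h l) : pr α (trl c f) = pr (trl c α) f := by
  unfold pr
  rw [← Equiv.sum_comp (Equiv.addRight c)]
  refine Finset.sum_congr rfl fun x _ => ?_
  show α (x + c) ⬝ᵥ f (x + c + c) = α (x + c) ⬝ᵥ f x
  rw [add_assoc, pi_add_self, add_zero]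

theorem trl_trl (c : Fin h → Bool) (f : Fnc h l) : trl c (trl c f) = f := by
  funext x
  show f (x + c + c) = f x
  rw [add_assoc, pi_add_self, add_zero]

theorem lc_tr (m : ℕ) (c : Fin h → Bool) (G : PP h l D → ℝ) (α : Fnc h l) :
    lc D m (fun γ => G (tr c γ)) α = lc D m G (trl c α) := by
  unfold lc
  rw [sup_trl]
  by_cases h1 : (sup α).card ≤ m
  · rw [if_pos h1, if_pos h1]
    unfold fo
    congr 1
    rw [← sum_tr c]
    refine Finset.sum_congr rfl fun γ _ => ?_
    show G (tr c (tr c γ)) * sg (pr α (trl c γ.1)) = G γ * sg (pr (trl c α) γ.1)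
    rw [tr_tr, pr_trl]
  · rw [if_neg h1, if_neg h1]

/-- Influences of translated functions. -/
theorem infl_tr (m : ℕ) (c : Fin h → Bool) (G : PP h l D → ℝ) (x : Fin h → Bool) :
    infl D m (fun γ => G (tr c γ)) x = infl D m G (x + c) := by
  unfold infl
  simp only [lc_tr]
  let e : Equiv.Perm (Fnc h l) :=
    { toFun := trl c
      invFun := trl c
      left_inv := trl_trl c
      right_inv := trl_trl c }
  rw [← Equiv.sum_comp e]
  refine Finset.sum_congr rfl fun α _ => ?_
  have h1 : e α = trl c α := rfl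
  rw [h1, trl_trl]
  rfl

/-- Influences of averages. -/
theorem infl_avg {R : Type} [Fintype R] (m : ℕ) (G : R → PP h l D → ℝ) (x : Fin h → Bool) :
    infl D m (fun γ => (∑ r, G r γ) / Fintype.card R) x ≤
      (∑ r, infl D m (G r) x) / Fintype.card R := by
  unfold infl
  rw [Finset.sum_comm, Finset.sum_div]
  refine Finset.sum_le_sum fun α _ => ?_
  by_cases hα : α x ≠ 0
  · simp only [if_pos hα]
    have h1 : lc D m (fun γ => (∑ r, G r γ) / Fintype.card R) α =
        (∑ r, lc D m (G r) α) / Fintype.card R := by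
      unfold lc
      by_cases h2 : (sup α).card ≤ m
      · simp only [if_pos h2]
        rw [fo_div, fo_sum]
      · simp only [if_neg h2, Finset.sum_const_zero, zero_div]
    rw [h1, div_pow]
    rcases isEmpty_or_nonempty R with hR | hR
    · simp
    have hc : (0 : ℝ) < Fintype.card R := by exact_mod_cast Fintype.card_pos
    have h2 := sq_sum_le_card_mul_sum_sq (s := (Finset.univ : Finset R))
      (f := fun r => lc D m (G r) α)
    rw [Finset.card_univ] at h2
    rw [div_le_div_iff₀ (by positivity) hc]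
    calc (∑ r, lc D m (G r) α) ^ 2 * Fintype.card R
        ≤ (Fintype.card R * ∑ r, lc D m (G r) α ^ 2) * Fintype.card R :=
          mul_le_mul_of_nonneg_right h2 hc.le
      _ = _ := by ring
  · simp [hα]

/-- The sum of all influences of all parts of a folded table. -/
theorem sum_infl (m : ℕ) (hm : 2 * m < 2 ^ (D + 1)) (L : PP h l D → Fin l → Bool) :
    ∑ x, ∑ i, infl D m (fold L i) x ≤ m := by
  classical
  have h1 : ∀ f : PP h l D → ℝ, ∑ x, infl D m f x ≤ m * lw D m f := by
    intro f
    unfold infl lw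
    rw [Finset.sum_comm, Finset.mul_sum]
    refine Finset.sum_le_sum fun α _ => ?_
    have h2 : ∑ x, (if α x ≠ 0 then lc D m f α ^ 2 else 0) = (sup α).card * lc D m f α ^ 2 := by
      rw [← Finset.sum_filter, Finset.sum_const, nsmul_eq_mul]
      rfl
    rw [h2]
    unfold lc
    by_cases h3 : (sup α).card ≤ m
    · simp only [if_pos h3]
      apply mul_le_mul_of_nonneg_right _ (sq_nonneg _)
      exact_mod_cast h3
    · simp [if_neg h3]
  have h2 : ∀ f : PP h l D → ℝ, lw D m f ≤ (∑ γ, f γ ^ 2) / Fintype.card (PP h l D) := by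
    intro f
    rw [← plancherel_sq (sepPP D) (selfPP D)]
    have h3 : lw D m f = ∑ α ∈ Finset.univ.filter (fun α : Fnc h l => (sup α).card ≤ m),
        fo f (phi D α) ^ 2 := by
      unfold lw lc
      rw [Finset.sum_filter]
      refine Finset.sum_congr rfl fun α _ => ?_
      split_ifs
      · rfl
      · norm_num
    rw [h3, ← Finset.sum_image (f := fun φ => fo f φ ^ 2) (g := phi D)]
    · exact Finset.sum_le_univ_sum_of_nonneg fun _ => sq_nonneg _
    · intro α hα β hβ hαβ
      exact phi_inj D m hm α β (Finset.mem_filter.mp hα).2 (Finset.mem_filter.mp hβ).2 hαβ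
  have hc := card_pos' (Γ := PP h l D)
  calc ∑ x, ∑ i, infl D m (fold L i) x = ∑ i, ∑ x, infl D m (fold L i) x := Finset.sum_comm
    _ ≤ ∑ i, m * ((∑ γ, fold L i γ ^ 2) / Fintype.card (PP h l D)) :=
        Finset.sum_le_sum fun i _ => (h1 _).trans
          (mul_le_mul_of_nonneg_left (h2 _) (by positivity))
    _ = m * ((∑ γ, ∑ i, fold L i γ ^ 2) / Fintype.card (PP h l D)) := by
        rw [← Finset.mul_sum, ← Finset.sum_div, Finset.sum_comm]
    _ ≤ m * 1 := by
        apply mul_le_mul_of_nonneg_left _ (by positivity)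
        rw [div_le_one hc]
        calc ∑ γ : PP h l D, ∑ i, fold L i γ ^ 2 ≤ ∑ _γ : PP h l D, (1 : ℝ) :=
              Finset.sum_le_sum fun γ _ => sum_fold_sq L γ
          _ = _ := by simp
    _ = m := mul_one _

end Pool.Agent.KS6_6.SC
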