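import Pool.Agent.KS6_6.SC.Step

set_option autoImplicit false

/-!
The analysis of the random restriction test.
-/

namespace Pool.Agent.KS6_6.SC

open Finset Pool.Agent.KS6_6.UG

variable {h l : ℕ}

/-- Bounds for supports. -/
def lseq : ℕ → ℕ
  | 0 => 0
  | n + 1 => 4 * lseq n + 4

theorem lseq_eq (n : ℕ) : 3 * lseq n + 4 = 4 ^ (n + 1) := by
  induction n with
  | zero => rfl
  | succ n ih =>
    rw [pow_succ, ← ih, lseq]; ring

/-- The product of affine forms. -/
def mask {n : ℕ} (Ns : Fin n → Aff h) : (Fin h → Bool) → Bool := ∏ i, aff (Ns i)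

theorem mask_cons {n : ℕ} (N : Aff h) (Ns : Fin n → Aff h) :
    mask (Fin.cons N Ns : Fin (n + 1) → Aff h) = aff N * mask Ns := by
  unfold mask
  rw [Fin.prod_univ_succ]
  simp only [Fin.cons_zero, Fin.cons_succ]

theorem mask_zero (Ns : Fin 0 → Aff h) : mask Ns = 1 := by
  unfold mask
  rw [Fin.prod_univ_zero]

theorem mem_mask {n : ℕ} (r : ℕ) (Ns : Fin n → Aff h) (f : Fnc h l) (hf : f ∈ PP h l r) :
    sm (mask Ns) f ∈ PP h l (r + n) := by
  induction n with
  | zero =>
    rw [mask_zero, one_sm]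
    exact hf
  | succ n ih =>
    have h1 := mask_cons (Ns 0) (fun i => Ns i.succ)
    have h2 : (Fin.cons (Ns 0) (fun i => Ns i.succ) : Fin (n + 1) → Aff h) = Ns := by
      funext i
      refine Fin.cases ?_ (fun j => ?_) i
      · rfl
      · rfl
    rw [h2] at h1
    rw [h1, ← sm_sm]
    exact mem_aff _ _ _ (ih _)

/-- Functionals which are not evaluations at few points are rarely zero on the multiples of a
product of random affine forms. -/
theorem tester (d n : ℕ) (hd : n + 2 ≤ d) (Φ : Fnc h l → Bool) (hΦ : AddOn (d + n) Φ)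
    (hlow : ¬ LowAt (d + n) (lseq n) Φ) [DecidablePred fun Ns : Fin n → Aff h =>
      ∃ G ∈ PP h l d, Φ (sm (mask Ns) G) = true] :
    3 ^ n * Fintype.card (Aff h) ^ n ≤
      4 ^ n * (Finset.univ.filter fun Ns : Fin n → Aff h =>
        ∃ G ∈ PP h l d, Φ (sm (mask Ns) G) = true).card := by
  classical
  induction n generalizing Φ with
  | zero =>
    have h1 : ∃ G ∈ PP h l d, Φ G = true := by
      by_contra hcon
      push Not at hcon
      apply hlow
      refine ⟨0, ?_, ?_⟩
      · have : sup (0 : Fnc h l) = ∅ := by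
          ext x; simp [mem_sup]
        rw [this]; simp
      · intro f hf
        rw [zero_pr]
        have := hcon f hf
        cases h2 : Φ f
        · rfl
        · exact absurd h2 this
    have h2 : (Finset.univ.filter fun Ns : Fin 0 → Aff h =>
        ∃ G ∈ PP h l d, Φ (sm (mask Ns) G) = true) = Finset.univ := by
      apply Finset.filter_true_of_mem
      intro Ns _
      obtain ⟨G, hG, h3⟩ := h1
      exact ⟨G, hG, by rw [mask_zero, one_sm]; exact h3⟩
    rw [h2]
    simp
  | succ n ih =>
    set B : Finset (Aff h) := Finset.univ.filter fun N =>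
      ¬ LowAt (d + n) (lseq n) (fun f => Φ (sm (aff N) f)) with hB
    have hcB : 3 * Fintype.card (Aff h) ≤ 4 * B.card := by
      by_contra hcon
      push Not at hcon
      apply hlow
      have h1 : (Finset.univ.filter fun N : Aff h =>
          LowAt (d + n) (lseq n) (fun f => Φ (sm (aff N) f))).card + B.card =
          Fintype.card (Aff h) := by
        rw [hB, Finset.card_filter_add_card_filter_not, Finset.card_univ]
      obtain ⟨s, hs⟩ : ∃ s, d + n = s + 1 := ⟨d + n - 1, by omega⟩
      have h2 : d + (n + 1) = s + 2 := by omega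
      rw [h2] at hΦ ⊢
      rw [hs] at h1
      apply step s (lseq n) _ Φ hΦ (Finset.univ.filter fun N : Aff h =>
          LowAt (s + 1) (lseq n) (fun f => Φ (sm (aff N) f)))
      · omega
      · intro N hN
        exact (Finset.mem_filter.mp hN).2
      · have h3 := lseq_eq n
        have h4 : 4 ^ (n + 1) = 2 ^ (2 * n + 2) := by
          rw [show (4 : ℕ) = 2 ^ 2 from rfl, ← pow_mul]; rfl
        have h5 : 2 ^ (2 * n + 2) ≤ 2 ^ (s + 1) := Nat.pow_le_pow_right (by norm_num) (by omega)
        omega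
    have hcount : (Finset.univ.filter fun Ns : Fin (n + 1) → Aff h =>
        ∃ G ∈ PP h l d, Φ (sm (mask Ns) G) = true).card =
        ∑ N : Aff h, (Finset.univ.filter fun Ns : Fin n → Aff h =>
          ∃ G ∈ PP h l d, Φ (sm (aff N) (sm (mask Ns) G)) = true).card := by
      rw [Finset.card_filter, ← Equiv.sum_comp (Fin.consEquiv (fun _ : Fin (n + 1) => Aff h)),
        Fintype.sum_prod_type]
      refine Finset.sum_congr rfl fun N _ => ?_
      rw [Finset.card_filter]
      refine Finset.sum_congr rfl fun Ns _ => ?_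
      have h1 : (Fin.consEquiv (fun _ : Fin (n + 1) => Aff h)) (N, Ns) =
          (Fin.cons N Ns : Fin (n + 1) → Aff h) := rfl
      rw [h1]
      have h2 : (∃ G ∈ PP h l d, Φ (sm (mask (Fin.cons N Ns : Fin (n + 1) → Aff h)) G) = true) ↔
          ∃ G ∈ PP h l d, Φ (sm (aff N) (sm (mask Ns) G)) = true := by
        simp only [mask_cons, sm_sm]
      by_cases h3 : ∃ G ∈ PP h l d, Φ (sm (aff N) (sm (mask Ns) G)) = true
      · rw [if_pos h3, if_pos (h2.mpr h3)]
      · rw [if_neg h3, if_neg (fun h4 => h3 (h2.mp h4))]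
    rw [hcount]
    have hN : ∀ N ∈ B, 3 ^ n * Fintype.card (Aff h) ^ n ≤ 4 ^ n *
        (Finset.univ.filter fun Ns : Fin n → Aff h =>
          ∃ G ∈ PP h l d, Φ (sm (aff N) (sm (mask Ns) G)) = true).card := by
      intro N hN
      apply ih (by omega) (fun f => Φ (sm (aff N) f))
      · intro f hf g hg
        show Φ (sm (aff N) (f + g)) = Φ (sm (aff N) f) + Φ (sm (aff N) g)
        rw [sm_add]
        exact hΦ _ (mem_aff _ _ _ hf) _ (mem_aff _ _ _ hg)
      · exact (Finset.mem_filter.mp hN).2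
    calc 3 ^ (n + 1) * Fintype.card (Aff h) ^ (n + 1)
        = (3 * Fintype.card (Aff h)) * (3 ^ n * Fintype.card (Aff h) ^ n) := by ring
      _ ≤ (4 * B.card) * (3 ^ n * Fintype.card (Aff h) ^ n) := Nat.mul_le_mul_right _ hcB
      _ = 4 * ∑ N ∈ B, 3 ^ n * Fintype.card (Aff h) ^ n := by
          rw [Finset.sum_const, smul_eq_mul]; ring
      _ ≤ 4 * ∑ N ∈ B, 4 ^ n * (Finset.univ.filter fun Ns : Fin n → Aff h =>
          ∃ G ∈ PP h l d, Φ (sm (aff N) (sm (mask Ns) G)) = true).card :=
          Nat.mul_le_mul_left _ (Finset.sum_le_sum hN)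
      _ ≤ 4 * ∑ N : Aff h, 4 ^ n * (Finset.univ.filter fun Ns : Fin n → Aff h =>
          ∃ G ∈ PP h l d, Φ (sm (aff N) (sm (mask Ns) G)) = true).card :=
          Nat.mul_le_mul_left _ (Finset.sum_le_univ_sum_of_nonneg fun _ => Nat.zero_le _)
      _ = _ := by rw [← Finset.mul_sum, pow_succ]; ring

end Pool.Agent.KS6_6.SC
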