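import Pool.Agent.KS6_6.SC.Four
import Pool.Agent.KS6_6.SC.Dual
import Pool.Agent.KS6_6.SC.Test

set_option autoImplicit false

/-!
Characters of the group of polynomials which are evaluations at few points.
-/

namespace Pool.Agent.KS6_6.SC

open Finset Pool.Agent.KS6_6.UG

noncomputable instance instFintypePP (h l r : ℕ) : Fintype (PP h l r) := Fintype.ofFinite _

variable {h l : ℕ}

/-- Evaluation character. -/
def phi (d : ℕ) (α : Fnc h l) : PP h l d →+ Bool :=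
  AddMonoidHom.mk' (fun γ => pr α γ.1) (fun γ γ' => pr_add α γ.1 γ'.1)

theorem phi_apply (d : ℕ) (α : Fnc h l) (γ : PP h l d) : phi d α γ = pr α γ.1 := rfl

/-- Evaluation character on the full space. -/
def phiF (α : Fnc h l) : Fnc h l →+ Bool := AddMonoidHom.mk' (fun γ => pr α γ) (pr_add α)

theorem pr_single (x : Fin h → Bool) (v : Fin l → Bool) (f : Fnc h l) :
    pr (Pi.single x v) f = v ⬝ᵥ f x := by
  unfold pr
  rw [Finset.sum_eq_single x]
  · rw [Pi.single_eq_same]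
  · intro y _ hy
    rw [Pi.single_eq_of_ne hy, zero_dotProduct]
  · intro h6; exact absurd (Finset.mem_univ x) h6

theorem dot_single_true (j : Fin l) (v : Fin l → Bool) :
    (Pi.single j true : Fin l → Bool) ⬝ᵥ v = v j := by
  rw [single_dotProduct, show (true : Bool) = 1 from rfl, one_mul]

theorem pr_comm (α f : Fnc h l) : pr α f = pr f α := by
  unfold pr
  exact Finset.sum_congr rfl fun x _ => dotProduct_comm _ _

theorem exists_ne (f : Fnc h l) (hf : f ≠ 0) : ∃ x j, f x j = true := by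
  by_contra hcon
  push Not at hcon
  apply hf
  funext x j
  cases h1 : f x j
  · rfl
  · exact absurd h1 (hcon x j)

theorem sepPP (d : ℕ) : Sep (PP h l d) := by
  intro γ hγ
  have hne : γ.1 ≠ 0 := fun h1 => hγ (Subtype.ext h1)
  obtain ⟨x, j, hxj⟩ := exists_ne γ.1 hne
  refine ⟨phi d (Pi.single x (Pi.single j true)), ?_⟩
  rw [phi_apply, pr_single, dot_single_true]
  exact hxj

theorem selfPP (d : ℕ) (γ : PP h l d) : γ + γ = 0 := Subtype.ext (fnc_add_self γ.1)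

theorem phiF_zero (α : Fnc h l) (hα : phiF α = 0) : α = 0 := by
  by_contra hne
  obtain ⟨x, j, hxj⟩ := exists_ne α hne
  have h1 : pr α (Pi.single x (Pi.single j true)) = 0 := DFunLike.congr_fun hα _
  rw [pr_comm, pr_single, dot_single_true, hxj] at h1
  exact absurd h1 (by decide)

theorem phi_zero' (d : ℕ) (α : Fnc h l) (hc : (sup α).card < 2 ^ (d + 1)) (hα : phi d α = 0) :
    α = 0 := by
  by_contra hne
  obtain ⟨f, hf, h1⟩ := dual_dist d α hne hc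
  have h2 : pr α f = 0 := DFunLike.congr_fun hα ⟨f, hf⟩
  rw [h2] at h1
  exact absurd h1 (by decide)

theorem phi_add (d : ℕ) (α β : Fnc h l) : phi d (α + β) = phi d α + phi d β := by
  ext γ; exact add_pr α β γ.1

theorem phiF_add (α β : Fnc h l) : phiF (α + β) = phiF α + phiF β :=
  AddMonoidHom.ext fun γ => add_pr α β γ

theorem add_self_iff {Y : Type} [AddCommGroup Y] (hself : ∀ y : Y, y + y = 0) (a b : Y) :
    a + b = 0 ↔ a = b := by
  constructor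
  · intro h1
    calc a = a + (b + b) := by rw [hself, add_zero]
      _ = (a + b) + b := by rw [add_assoc]
      _ = b := by rw [h1, zero_add]
  · rintro rfl; exact hself a

theorem phi_inj (d m : ℕ) (hm : 2 * m < 2 ^ (d + 1)) (α β : Fnc h l) (hα : (sup α).card ≤ m)
    (hβ : (sup β).card ≤ m) (hαβ : phi d α = phi d β) : α = β := by
  rw [← add_self_iff fnc_add_self]
  apply phi_zero' d
  · have := sup_add α β
    omega
  · rw [phi_add, hαβ]
    exact bool_hom_add_self _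

theorem sg_pr (α y : Fnc h l) : sg (pr α y) = chp α y := by
  unfold pr chp chi
  have : ∀ s : Finset (Fin h → Bool), sg (∑ x ∈ s, α x ⬝ᵥ y x) = ∏ x ∈ s, sg (α x ⬝ᵥ y x) := by
    intro s
    induction s using Finset.induction_on with
    | empty => rw [Finset.sum_empty, Finset.prod_empty]; rfl
    | insert b s hb ih => rw [Finset.sum_insert hb, Finset.prod_insert hb, sg_add, ih]
  exact this _

/-- Fourth moments and additive quadruples. -/
theorem quad {G : Type} [AddCommGroup G] [Fintype G] (ψ : Fnc h l → (G →+ Bool))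
    (hψ : ∀ α β, ψ (α + β) = ψ α + ψ β) (c : Fnc h l → ℝ) [∀ α, Decidable (ψ α = 0)] :
    ∑ γ, (∑ α, c α * sg (ψ α γ)) ^ 4 = Fintype.card G * ∑ α₁, ∑ α₂, ∑ α₃, ∑ α₄,
      (c α₁ * c α₂ * c α₃ * c α₄) * (if ψ (α₁ + α₂ + (α₃ + α₄)) = 0 then 1 else 0) := by
  have h1 : ∀ γ : G, (∑ α, c α * sg (ψ α γ)) ^ 4 = ∑ α₁, ∑ α₂, ∑ α₃, ∑ α₄,
      (c α₁ * c α₂ * c α₃ * c α₄) * sg (ψ (α₁ + α₂ + (α₃ + α₄)) γ) := by
    intro γ
    rw [show (∑ α, c α * sg (ψ α γ)) ^ 4 = (∑ α, c α * sg (ψ α γ)) * ((∑ α, c α * sg (ψ α γ)) *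
      ((∑ α, c α * sg (ψ α γ)) * (∑ α, c α * sg (ψ α γ)))) by ring]
    simp only [Finset.sum_mul, Finset.mul_sum]
    rw [Finset.sum_comm]
    refine Finset.sum_congr rfl fun α₁ _ => ?_
    rw [Finset.sum_comm]
    refine Finset.sum_congr rfl fun α₂ _ => ?_
    rw [Finset.sum_comm]
    refine Finset.sum_congr rfl fun α₃ _ => ?_
    refine Finset.sum_congr rfl fun α₄ _ => ?_
    rw [hψ, hψ, hψ]
    simp only [AddMonoidHom.add_apply, sg_add]
    ring
  simp only [h1]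
  rw [Finset.sum_comm, Finset.mul_sum]
  refine Finset.sum_congr rfl fun α₁ _ => ?_
  rw [Finset.sum_comm, Finset.mul_sum]
  refine Finset.sum_congr rfl fun α₂ _ => ?_
  rw [Finset.sum_comm, Finset.mul_sum]
  refine Finset.sum_congr rfl fun α₃ _ => ?_
  rw [Finset.sum_comm, Finset.mul_sum]
  refine Finset.sum_congr rfl fun α₄ _ => ?_
  rw [← Finset.mul_sum, sum_sg_char]
  split_ifs <;> ring

theorem sup_eq_spt (α : Fnc h l) : sup α = spt α := rfl

/-- Low degree part of the coefficients of `f`. -/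
noncomputable def lc (d m : ℕ) (f : PP h l d → ℝ) (α : Fnc h l) : ℝ :=
  if (sup α).card ≤ m then fo f (phi d α) else 0

/-- Low degree weight. -/
noncomputable def lw (d m : ℕ) (f : PP h l d → ℝ) : ℝ := ∑ α : Fnc h l, lc d m f α ^ 2

/-- Low degree influence. -/
noncomputable def infl (d m : ℕ) (f : PP h l d → ℝ) (x : Fin h → Bool) : ℝ :=
  ∑ α : Fnc h l, if α x ≠ 0 then lc d m f α ^ 2 else 0

theorem lw_nonneg (d m : ℕ) (f : PP h l d → ℝ) : 0 ≤ lw d m f :=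
  Finset.sum_nonneg fun _ _ => sq_nonneg _

theorem infl_nonneg (d m : ℕ) (f : PP h l d → ℝ) (x : Fin h → Bool) : 0 ≤ infl d m f x :=
  Finset.sum_nonneg fun _ _ => by split_ifs <;> positivity

/-- Fourth moments of low degree functions on polynomials and on all functions agree. -/
theorem fourth_transfer (d m : ℕ) (hm : 4 * m < 2 ^ (d + 1)) (c : Fnc h l → ℝ)
    (hc : ∀ α, m < (sup α).card → c α = 0) :
    (∑ γ : PP h l d, (∑ α, c α * sg (phi d α γ)) ^ 4) / Fintype.card (PP h l d) =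
      (∑ y, (∑ α, c α * chp α y) ^ 4) / ((2 : ℝ) ^ l) ^ Fintype.card (Fin h → Bool) := by
  classical
  have hcard : ((2 : ℝ) ^ l) ^ Fintype.card (Fin h → Bool) = Fintype.card (Fnc h l) := by
    rw [← card_space, Finset.card_univ]
  have h1 : ∀ y : Fnc h l, ∑ α, c α * chp α y = ∑ α, c α * sg (phiF α y) := by
    intro y
    exact Finset.sum_congr rfl fun α _ => by rw [← sg_pr]; rfl
  simp only [h1]
  rw [hcard, quad (phi d) (phi_add d) c, quad phiF phiF_add c,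
    mul_div_cancel_left₀ _ (card_pos' (Γ := PP h l d)).ne',
    mul_div_cancel_left₀ _ (card_pos' (Γ := Fnc h l)).ne']
  refine Finset.sum_congr rfl fun α₁ _ => Finset.sum_congr rfl fun α₂ _ =>
    Finset.sum_congr rfl fun α₃ _ => Finset.sum_congr rfl fun α₄ _ => ?_
  rcases lt_or_ge m (sup α₁).card with g1 | g1
  · rw [hc α₁ g1]; ring
  rcases lt_or_ge m (sup α₂).card with g2 | g2
  · rw [hc α₂ g2]; ring
  rcases lt_or_ge m (sup α₃).card with g3 | g3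
  · rw [hc α₃ g3]; ring
  rcases lt_or_ge m (sup α₄).card with g4 | g4
  · rw [hc α₄ g4]; ring
  congr 1
  have e1 := sup_add α₁ α₂
  have e2 := sup_add α₃ α₄
  have e3 := sup_add (α₁ + α₂) (α₃ + α₄)
  by_cases h2 : α₁ + α₂ + (α₃ + α₄) = 0
  · have h3 : phi d (α₁ + α₂ + (α₃ + α₄)) = 0 := by
      rw [h2]; exact AddMonoidHom.ext fun γ => zero_pr γ.1
    have h4 : phiF (α₁ + α₂ + (α₃ + α₄)) = 0 := by
      rw [h2]; exact AddMonoidHom.ext fun γ => zero_pr γ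
    rw [if_pos h3, if_pos h4]
  · rw [if_neg fun h3 => h2 (phi_zero' d _ (by omega) h3), if_neg fun h3 => h2 (phiF_zero _ h3)]

/-- Level inequality for bounded functions with small low degree influences. -/
theorem low_weight (d m : ℕ) (hm : 4 * m < 2 ^ (d + 1)) (f : PP h l d → ℝ) (hf0 : ∀ γ, 0 ≤ f γ)
    (hf1 : ∀ γ, f γ ≤ 1) (τ : ℝ) (hτ0 : 0 ≤ τ) (hτ : ∀ x, infl d m f x ≤ τ) :
    lw d m f ^ 4 ≤ ((∑ γ, f γ) / Fintype.card (PP h l d)) ^ 3 * (9 ^ m *
      (4 ^ m * lw d m f ^ 2 + (4 * 2 ^ l) ^ (2 * m) * (m * τ * lw d m f))) := by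
  classical
  set N : ℝ := (Fintype.card (PP h l d) : ℝ) with hN
  have hN0 : 0 < N := card_pos'
  have hc : ∀ α : Fnc h l, m < (sup α).card → lc d m f α = 0 := by
    intro α hα
    exact if_neg (by omega)
  set Q : PP h l d → ℝ := fun γ => ∑ α, lc d m f α * sg (phi d α γ) with hQ
  have hQ4 : (∑ γ, Q γ ^ 4) / N ≤ 9 ^ m *
      (4 ^ m * lw d m f ^ 2 + (4 * 2 ^ l) ^ (2 * m) * (m * τ * lw d m f)) := by
    have h1 := fourth_transfer d m hm (lc d m f) hc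
    have h2 := fourth (lc d m f) m (fun α hα => hc α hα) τ hτ0 (fun x => hτ x)
    rw [h1, div_le_iff₀ (by positivity), mul_comm]
    exact h2
  have hfQ : (∑ γ, f γ * Q γ) / N = lw d m f := by
    simp only [hQ, Finset.mul_sum]
    rw [Finset.sum_comm, Finset.sum_div]
    refine Finset.sum_congr rfl fun α _ => ?_
    have h1 : ∑ γ, f γ * (lc d m f α * sg (phi d α γ)) =
        lc d m f α * ∑ γ, f γ * sg (phi d α γ) := by
      rw [Finset.mul_sum]
      exact Finset.sum_congr rfl fun γ _ => by ring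
    rw [h1, mul_div_assoc]
    have h2 : (∑ γ, f γ * sg (phi d α γ)) / N = fo f (phi d α) := rfl
    rw [h2]
    unfold lc
    split_ifs
    · ring
    · ring
  set w : ℝ := lw d m f with hw
  have hw0 : 0 ≤ w := lw_nonneg d m f
  set μ : ℝ := (∑ γ, f γ) / N with hμ
  have hμ0 : 0 ≤ μ := div_nonneg (Finset.sum_nonneg fun γ _ => hf0 γ) hN0.le
  set Z : ℝ := (∑ γ, f γ * Q γ ^ 2) / N with hZ
  have hZ0 : 0 ≤ Z := div_nonneg (Finset.sum_nonneg fun γ _ =>
    mul_nonneg (hf0 γ) (sq_nonneg _)) hN0.le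
  have hA : w ^ 2 ≤ μ * Z := by
    have h1 := Finset.sum_mul_sq_le_sq_mul_sq Finset.univ (fun γ => Real.sqrt (f γ))
      (fun γ => Real.sqrt (f γ) * Q γ)
    have e1 : ∑ γ, Real.sqrt (f γ) * (Real.sqrt (f γ) * Q γ) = ∑ γ, f γ * Q γ :=
      Finset.sum_congr rfl fun γ _ => by rw [← mul_assoc, Real.mul_self_sqrt (hf0 γ)]
    have e2 : ∑ γ, Real.sqrt (f γ) ^ 2 = ∑ γ, f γ :=
      Finset.sum_congr rfl fun γ _ => Real.sq_sqrt (hf0 γ)
    have e3 : ∑ γ, (Real.sqrt (f γ) * Q γ) ^ 2 = ∑ γ, f γ * Q γ ^ 2 :=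
      Finset.sum_congr rfl fun γ _ => by rw [mul_pow, Real.sq_sqrt (hf0 γ)]
    rw [e1, e2, e3] at h1
    rw [← hfQ, hμ, hZ, div_pow, div_mul_div_comm, ← sq]
    gcongr
  have hB : Z ^ 2 ≤ μ * ((∑ γ, Q γ ^ 4) / N) := by
    have h1 := Finset.sum_mul_sq_le_sq_mul_sq Finset.univ f (fun γ => Q γ ^ 2)
    have e1 : ∑ γ, f γ ^ 2 ≤ ∑ γ, f γ := by
      refine Finset.sum_le_sum fun γ _ => ?_
      have := hf0 γ
      have := hf1 γ
      nlinarith
    have e2 : ∑ γ, (Q γ ^ 2) ^ 2 = ∑ γ, Q γ ^ 4 :=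
      Finset.sum_congr rfl fun γ _ => by ring
    rw [e2] at h1
    have hQ0 : 0 ≤ ∑ γ, Q γ ^ 4 := Finset.sum_nonneg fun γ _ => by positivity
    rw [hZ, hμ, div_pow, div_mul_div_comm, ← sq]
    gcongr
    exact h1.trans (mul_le_mul_of_nonneg_right e1 hQ0)
  calc w ^ 4 = (w ^ 2) ^ 2 := by ring
    _ ≤ (μ * Z) ^ 2 := pow_le_pow_left₀ (sq_nonneg _) hA 2
    _ = μ ^ 2 * Z ^ 2 := by ring
    _ ≤ μ ^ 2 * (μ * ((∑ γ, Q γ ^ 4) / N)) := mul_le_mul_of_nonneg_left hB (sq_nonneg _)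
    _ = μ ^ 3 * ((∑ γ, Q γ ^ 4) / N) := by ring
    _ ≤ _ := mul_le_mul_of_nonneg_left hQ4 (by positivity)

/-- Level inequality, final form. -/
theorem low_weight_le (d m : ℕ) (hm : 4 * m < 2 ^ (d + 1)) (f : PP h l d → ℝ)
    (hf0 : ∀ γ, 0 ≤ f γ) (hf1 : ∀ γ, f γ ≤ 1) (τ : ℝ) (hτ0 : 0 ≤ τ)
    (hτ : ∀ x, infl d m f x ≤ τ) (μ : ℝ)
    (hμ : (∑ γ, f γ) / Fintype.card (PP h l d) = μ) (κ : ℝ) (hκ : 0 ≤ κ)
    (h1 : 2 * 36 ^ m * μ ^ 3 ≤ κ ^ 2) (h2 : (4 * 2 ^ l) ^ (2 * m) * (m * τ) ≤ 4 ^ m * κ) :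
    lw d m f ≤ κ := by
  by_contra hcon
  push Not at hcon
  have hw := low_weight d m hm f hf0 hf1 τ hτ0 hτ
  rw [hμ] at hw
  set w : ℝ := lw d m f with hwdef
  have hw0 : 0 < w := lt_of_le_of_lt hκ hcon
  have hμ0 : 0 ≤ μ := by
    rw [← hμ]
    exact div_nonneg (Finset.sum_nonneg fun γ _ => hf0 γ) (card_pos').le
  have h3 : (4 * 2 ^ l : ℝ) ^ (2 * m) * (m * τ * w) ≤ 4 ^ m * w ^ 2 := by
    calc (4 * 2 ^ l : ℝ) ^ (2 * m) * (m * τ * w) = ((4 * 2 ^ l : ℝ) ^ (2 * m) * (m * τ)) * w := by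
          ring
      _ ≤ (4 ^ m * κ) * w := mul_le_mul_of_nonneg_right h2 hw0.le
      _ ≤ (4 ^ m * w) * w := by gcongr
      _ = 4 ^ m * w ^ 2 := by ring
  have h4 : w ^ 4 ≤ (2 * 36 ^ m * μ ^ 3) * w ^ 2 := by
    calc w ^ 4 ≤ μ ^ 3 * (9 ^ m * (4 ^ m * w ^ 2 + (4 * 2 ^ l) ^ (2 * m) * (m * τ * w))) := hw
      _ ≤ μ ^ 3 * (9 ^ m * (4 ^ m * w ^ 2 + 4 ^ m * w ^ 2)) := by gcongr
      _ = (2 * (9 ^ m * 4 ^ m) * μ ^ 3) * w ^ 2 := by ring
      _ = _ := by rw [← mul_pow]; norm_num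
  have h5 : w ^ 2 * w ^ 2 ≤ κ ^ 2 * w ^ 2 := by
    calc w ^ 2 * w ^ 2 = w ^ 4 := by ring
      _ ≤ (2 * 36 ^ m * μ ^ 3) * w ^ 2 := h4
      _ ≤ κ ^ 2 * w ^ 2 := mul_le_mul_of_nonneg_right h1 (sq_nonneg _)
  have h6 := le_of_mul_le_mul_right h5 (by positivity)
  have h7 : κ ^ 2 < w ^ 2 := pow_lt_pow_left₀ hcon hκ (by norm_num)
  linarith

end Pool.Agent.KS6_6.SC
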