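import Pool.Agent.KS6_6.SC.Low

set_option autoImplicit false

/-!
The noise: adding multiples of products of random affine forms.
-/

namespace Pool.Agent.KS6_6.SC

open Finset Pool.Agent.KS6_6.UG

variable {h l : ℕ}

/-- Characters which are evaluations at at most `m` points. -/
def LowC (d m : ℕ) (φ : PP h l d →+ Bool) : Prop :=
  ∃ α : Fnc h l, (sup α).card ≤ m ∧ φ = phi d α

theorem sum_low (d m : ℕ) (hm : 2 * m < 2 ^ (d + 1)) (f : PP h l d → ℝ)
    [DecidablePred (LowC (h := h) (l := l) d m)] :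
    (∑ φ, if LowC d m φ then fo f φ ^ 2 else 0) = lw d m f := by
  classical
  have h1 : lw d m f = ∑ α ∈ Finset.univ.filter (fun α : Fnc h l => (sup α).card ≤ m),
      fo f (phi d α) ^ 2 := by
    unfold lw lc
    rw [Finset.sum_filter]
    refine Finset.sum_congr rfl fun α _ => ?_
    split_ifs
    · rfl
    · norm_num
  have h2 : (Finset.univ.filter fun φ : PP h l d →+ Bool => LowC d m φ) =
      (Finset.univ.filter (fun α : Fnc h l => (sup α).card ≤ m)).image (phi d) := by
    ext φ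
    rw [Finset.mem_image, Finset.mem_filter]
    constructor
    · rintro ⟨_, α, h3, h4⟩
      exact ⟨α, Finset.mem_filter.mpr ⟨Finset.mem_univ _, h3⟩, h4.symm⟩
    · rintro ⟨α, h3, h4⟩
      exact ⟨Finset.mem_univ _, α, (Finset.mem_filter.mp h3).2, h4.symm⟩
  rw [← Finset.sum_filter, h2, Finset.sum_image, h1]
  intro α hα β hβ hαβ
  exact phi_inj d m hm α β (Finset.mem_filter.mp hα).2 (Finset.mem_filter.mp hβ).2 hαβ

/-- Random choices of one step of the noise. -/
abbrev Stp (h l n d : ℕ) := (Fin n → Aff h) × PP h l d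

/-- One step of the noise. -/
def eta1 {n d : ℕ} (p : Stp h l n d) : PP h l (d + n) :=
  ⟨sm (mask p.1) p.2.1, mem_mask d p.1 p.2.1 p.2.2⟩

/-- The noise. -/
def eta {n d t : ℕ} (r : Fin t → Stp h l n d) : PP h l (d + n) := ∑ j, eta1 (r j)

/-- Restriction of a character to the multiples of a product of affine forms. -/
def rstr {n d : ℕ} (φ : PP h l (d + n) →+ Bool) (Ns : Fin n → Aff h) : PP h l d →+ Bool :=
  AddMonoidHom.mk' (fun G => φ (eta1 (Ns, G))) (fun G G' => by
    rw [← map_add]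
    congr 1
    exact Subtype.ext (sm_add _ _ _))

theorem sum_step {n d : ℕ} (φ : PP h l (d + n) →+ Bool)
    [DecidablePred fun Ns : Fin n → Aff h => rstr φ Ns = 0] :
    ∑ p : Stp h l n d, sg (φ (eta1 p)) =
      (Finset.univ.filter fun Ns : Fin n → Aff h => rstr φ Ns = 0).card *
        (Fintype.card (PP h l d) : ℝ) := by
  classical
  rw [Fintype.sum_prod_type]
  have h1 : ∀ Ns : Fin n → Aff h, ∑ G : PP h l d, sg (φ (eta1 (Ns, G))) =
      if rstr φ Ns = 0 then (Fintype.card (PP h l d) : ℝ) else 0 := by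
    intro Ns
    exact sum_sg_char (rstr φ Ns)
  simp only [h1]
  rw [← Finset.sum_filter, Finset.sum_const, nsmul_eq_mul]

theorem card_stp {n d : ℕ} : (Fintype.card (Stp h l n d) : ℝ) =
    (Fintype.card (Aff h) : ℝ) ^ n * Fintype.card (PP h l d) := by
  rw [Fintype.card_prod, Fintype.card_fun, Fintype.card_fin]
  push_cast; rfl

theorem card_aff_pos : (0 : ℝ) < Fintype.card (Aff h) := by
  rw [card_aff]; positivity

theorem step_nonneg {n d : ℕ} (φ : PP h l (d + n) →+ Bool) :
    0 ≤ (∑ p : Stp h l n d, sg (φ (eta1 p))) / Fintype.card (Stp h l n d) := by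
  classical
  rw [sum_step]
  positivity

theorem step_le_one {n d : ℕ} (φ : PP h l (d + n) →+ Bool) :
    (∑ p : Stp h l n d, sg (φ (eta1 p))) / Fintype.card (Stp h l n d) ≤ 1 := by
  have hc : (0 : ℝ) < Fintype.card (Stp h l n d) := by
    rw [card_stp]
    exact mul_pos (pow_pos card_aff_pos n) card_pos'
  rw [div_le_one hc]
  calc ∑ p : Stp h l n d, sg (φ (eta1 p)) ≤ ∑ _p : Stp h l n d, (1 : ℝ) :=
        Finset.sum_le_sum fun p _ => sg_le _
    _ = _ := by simp

/-- Eigenvalues of one step. -/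
theorem step_le {n d : ℕ} (hd : n + 2 ≤ d) (φ : PP h l (d + n) →+ Bool)
    (hφ : ¬ LowC (d + n) (lseq n) φ) :
    (∑ p : Stp h l n d, sg (φ (eta1 p))) / Fintype.card (Stp h l n d) ≤ 1 - (3 / 4) ^ n := by
  classical
  let Φ : Fnc h l → Bool := fun f => if hf : f ∈ PP h l (d + n) then φ ⟨f, hf⟩ else false
  have hΦ : ∀ f (hf : f ∈ PP h l (d + n)), Φ f = φ ⟨f, hf⟩ := fun f hf => dif_pos hf
  have hadd : AddOn (d + n) Φ := by
    intro f hf g hg
    rw [hΦ f hf, hΦ g hg, hΦ _ ((PP h l (d + n)).add_mem hf hg), ← map_add]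
    rfl
  have hlow : ¬ LowAt (d + n) (lseq n) Φ := by
    rintro ⟨α, h1, h2⟩
    apply hφ
    refine ⟨α, h1, ?_⟩
    apply AddMonoidHom.ext
    intro γ
    rw [phi_apply, ← h2 γ.1 γ.2, hΦ γ.1 γ.2]
  have ht := tester d n hd Φ hadd hlow
  have h1 : ∀ Ns : Fin n → Aff h, (∃ G ∈ PP h l d, Φ (sm (mask Ns) G) = true) ↔
      ¬ rstr φ Ns = 0 := by
    intro Ns
    constructor
    · rintro ⟨G, hG, h2⟩ h3
      have h4 : rstr φ Ns ⟨G, hG⟩ = 0 := by rw [h3]; rfl
      rw [hΦ _ (mem_mask d Ns G hG)] at h2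
      have h5 : rstr φ Ns ⟨G, hG⟩ = φ ⟨sm (mask Ns) G, mem_mask d Ns G hG⟩ := rfl
      rw [h5, h2] at h4
      exact absurd h4 (by decide)
    · intro h2
      by_contra hcon
      push Not at hcon
      apply h2
      apply AddMonoidHom.ext
      intro G
      have h3 := hcon G.1 G.2
      rw [hΦ _ (mem_mask d Ns G.1 G.2)] at h3
      have h5 : rstr φ Ns G = φ ⟨sm (mask Ns) G.1, mem_mask d Ns G.1 G.2⟩ := rfl
      rw [h5]
      cases h6 : φ ⟨sm (mask Ns) G.1, mem_mask d Ns G.1 G.2⟩
      · rfl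
      · exact absurd h6 h3
  have h2 : (Finset.univ.filter fun Ns : Fin n → Aff h =>
      ∃ G ∈ PP h l d, Φ (sm (mask Ns) G) = true) =
      Finset.univ.filter fun Ns : Fin n → Aff h => ¬ rstr φ Ns = 0 := by
    ext Ns
    rw [Finset.mem_filter, Finset.mem_filter, h1]
  rw [h2] at ht
  have h3 : (Finset.univ.filter fun Ns : Fin n → Aff h => rstr φ Ns = 0).card +
      (Finset.univ.filter fun Ns : Fin n → Aff h => ¬ rstr φ Ns = 0).card =
      Fintype.card (Aff h) ^ n := by
    rw [Finset.card_filter_add_card_filter_not, Finset.card_univ, Fintype.card_fun,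
      Fintype.card_fin]
  set a := (Finset.univ.filter fun Ns : Fin n → Aff h => rstr φ Ns = 0).card with ha
  set b := (Finset.univ.filter fun Ns : Fin n → Aff h => ¬ rstr φ Ns = 0).card with hb
  have hA : (0 : ℝ) < Fintype.card (Aff h) := card_aff_pos
  have hP : (0 : ℝ) < Fintype.card (PP h l d) := card_pos'
  rw [sum_step, card_stp, mul_div_mul_right _ _ hP.ne', div_le_iff₀ (by positivity)]
  have h4 : (a : ℝ) + b = (Fintype.card (Aff h) : ℝ) ^ n := by exact_mod_cast h3
  have h5 : (3 : ℝ) ^ n * (Fintype.card (Aff h) : ℝ) ^ n ≤ 4 ^ n * b := by exact_mod_cast ht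
  have h6 : (3 / 4 : ℝ) ^ n * (Fintype.card (Aff h) : ℝ) ^ n ≤ b := by
    rw [div_pow, div_mul_eq_mul_div, div_le_iff₀ (by positivity), mul_comm (b : ℝ)]
    exact h5
  have h7 : (a : ℝ) = (Fintype.card (Aff h) : ℝ) ^ n - b := by linarith
  rw [← ha, h7]
  linarith

theorem card_stps {n d t : ℕ} : (Fintype.card (Fin t → Stp h l n d) : ℝ) =
    (Fintype.card (Stp h l n d) : ℝ) ^ t := by
  rw [Fintype.card_fun, Fintype.card_fin]
  push_cast; rfl

theorem eig_eta {n d t : ℕ} (φ : PP h l (d + n) →+ Bool) :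
    eig (eta (t := t)) φ =
      ((∑ p : Stp h l n d, sg (φ (eta1 p))) / Fintype.card (Stp h l n d)) ^ t := by
  unfold eig
  rw [card_stps, div_pow]
  congr 1
  have h1 : ∀ r : Fin t → Stp h l n d, sg (φ (eta r)) = ∏ j, sg (φ (eta1 (r j))) := by
    intro r
    unfold eta
    rw [map_sum]
    have : ∀ s : Finset (Fin t), sg (∑ j ∈ s, φ (eta1 (r j))) = ∏ j ∈ s, sg (φ (eta1 (r j))) := by
      intro s
      induction s using Finset.induction_on with
      | empty => rw [Finset.sum_empty, Finset.prod_empty]; rfl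
      | insert b s hb ih => rw [Finset.sum_insert hb, Finset.prod_insert hb, sg_add, ih]
    exact this _
  simp only [h1]
  rw [sum_prod_fun (fun (_ : Fin t) p => sg (φ (eta1 p))), Finset.prod_const, Finset.card_univ,
    Fintype.card_fin]

/-- Eigenvalues of the noise. -/
theorem eig_le {n d t : ℕ} (hd : n + 2 ≤ d) (φ : PP h l (d + n) →+ Bool)
    (hφ : ¬ LowC (d + n) (lseq n) φ) :
    eig (eta (h := h) (l := l) (n := n) (d := d) (t := t)) φ ^ 2 ≤ (1 - (3 / 4) ^ n) ^ t := by
  rw [eig_eta]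
  set e : ℝ := (∑ p : Stp h l n d, sg (φ (eta1 p))) / Fintype.card (Stp h l n d) with he
  have h0 : 0 ≤ e := step_nonneg φ
  have h1 : e ≤ 1 := step_le_one φ
  have h2 : e ≤ 1 - (3 / 4) ^ n := step_le hd φ hφ
  have h3 : e ^ t ≤ 1 := pow_le_one₀ h0 h1
  have h4 : 0 ≤ e ^ t := pow_nonneg h0 t
  calc (e ^ t) ^ 2 = e ^ t * e ^ t := sq _
    _ ≤ e ^ t * 1 := mul_le_mul_of_nonneg_left h3 h4
    _ = e ^ t := mul_one _
    _ ≤ (1 - (3 / 4) ^ n) ^ t := pow_le_pow_left₀ h0 h2 t

/-- Random affine forms at a point. -/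
theorem sum_aff_pt (x : Fin h → Bool) :
    ∑ N : Aff h, (if aff N x = true then (1 : ℝ) else 0) = 2 ^ h := by
  rw [Fintype.sum_prod_type]
  have h1 : ∀ a : Fin h → Bool, ∑ b : Bool, (if aff (a, b) x = true then (1 : ℝ) else 0) = 1 := by
    intro a
    have h2 : ∀ y : Bool, (if y + true = true then (1 : ℝ) else 0) +
        (if y + false = true then (1 : ℝ) else 0) = 1 := by
      intro y
      cases y
      · have e1 : (false + true : Bool) = true := rfl
        have e2 : (false + false : Bool) = false := rfl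
        rw [e1, e2]; norm_num
      · have e1 : (true + true : Bool) = false := rfl
        have e2 : (true + false : Bool) = true := rfl
        rw [e1, e2]; norm_num
    rw [Fintype.sum_bool]
    exact h2 (a ⬝ᵥ x)
  simp only [h1]
  simp

theorem mask_true {n : ℕ} (Ns : Fin n → Aff h) (x : Fin h → Bool) :
    (if mask Ns x = true then (1 : ℝ) else 0) = ∏ i, (if aff (Ns i) x = true then (1 : ℝ) else 0) := by
  unfold mask
  rw [Finset.prod_apply]
  have : ∀ s : Finset (Fin n), (if (∏ i ∈ s, aff (Ns i) x) = true then (1 : ℝ) else 0) =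
      ∏ i ∈ s, (if aff (Ns i) x = true then (1 : ℝ) else 0) := by
    intro s
    induction s using Finset.induction_on with
    | empty => rw [Finset.prod_empty, Finset.prod_empty]; exact if_pos rfl
    | insert b s hb ih =>
      rw [Finset.prod_insert hb, Finset.prod_insert hb, ← ih]
      cases aff (Ns b) x
      · have e1 : (false * ∏ i ∈ s, aff (Ns i) x : Bool) = false := zero_mul _
        rw [e1]; norm_num
      · have e1 : (true * ∏ i ∈ s, aff (Ns i) x : Bool) = ∏ i ∈ s, aff (Ns i) x := one_mul _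
        rw [e1, if_pos rfl, one_mul]
  exact this _

/-- The probability that one step of the noise is zero at a point. -/
theorem step_zero {n d : ℕ} (x : Fin h → Bool) :
    (1 - (1 / 2) ^ n) * (Fintype.card (Stp h l n d) : ℝ) ≤
      ∑ p : Stp h l n d, (if (eta1 p).1 x = 0 then (1 : ℝ) else 0) := by
  have h1 : ∀ p : Stp h l n d, 1 - (if mask p.1 x = true then (1 : ℝ) else 0) ≤
      (if (eta1 p).1 x = 0 then (1 : ℝ) else 0) := by
    intro p
    cases hm : mask p.1 x
    · have : (eta1 p).1 x = 0 := by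
        funext j
        show mask p.1 x * p.2.1 x j = 0
        rw [hm]
        exact zero_mul _
      rw [if_pos this]
      norm_num
    · rw [if_pos rfl]
      split_ifs <;> norm_num
  refine le_trans (le_of_eq ?_) (Finset.sum_le_sum fun p _ => h1 p)
  rw [Finset.sum_sub_distrib]
  have h2 : ∑ p : Stp h l n d, (if mask p.1 x = true then (1 : ℝ) else 0) =
      (1 / 2) ^ n * Fintype.card (Stp h l n d) := by
    rw [Fintype.sum_prod_type]
    simp only [mask_true, Finset.sum_const, nsmul_eq_mul, ← Finset.mul_sum]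
    rw [sum_prod_fun (fun (_ : Fin n) N => if aff N x = true then (1 : ℝ) else 0)]
    simp only [sum_aff_pt, Finset.prod_const, Finset.card_univ, Fintype.card_fin]
    rw [card_stp, card_aff]
    push_cast
    have e1 : ((2 : ℝ) ^ (h + 1)) ^ n = 2 ^ n * (2 ^ h) ^ n := by
      rw [← mul_pow, pow_succ, mul_comm (2 ^ h : ℝ) 2]
    rw [e1, one_div, inv_pow]
    have e2 : (2 : ℝ) ^ n ≠ 0 := by positivity
    field_simp
  rw [h2, Finset.sum_const, nsmul_eq_mul, Finset.card_univ]
  ring

/-- The probability that the noise is zero at a point. -/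
theorem eta_zero {n d t : ℕ} (x : Fin h → Bool) :
    (1 - t * (1 / 2) ^ n) * (Fintype.card (Fin t → Stp h l n d) : ℝ) ≤
      ∑ r : Fin t → Stp h l n d, (if (eta r).1 x = 0 then (1 : ℝ) else 0) := by
  have h1 : ∀ r : Fin t → Stp h l n d, ∏ j, (if (eta1 (r j)).1 x = 0 then (1 : ℝ) else 0) ≤
      (if (eta r).1 x = 0 then (1 : ℝ) else 0) := by
    intro r
    by_cases h2 : ∀ j, (eta1 (r j)).1 x = 0
    · have h3 : (eta r).1 x = 0 := by
        unfold eta
        rw [AddSubgroup.val_finsetSum, Finset.sum_apply]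
        exact Finset.sum_eq_zero fun j _ => h2 j
      rw [if_pos h3]
      apply Finset.prod_le_one
      · intro j _; split_ifs <;> norm_num
      · intro j _; split_ifs <;> norm_num
    · push Not at h2
      obtain ⟨j, hj⟩ := h2
      rw [Finset.prod_eq_zero (Finset.mem_univ j) (if_neg hj)]
      split_ifs <;> norm_num
  refine le_trans ?_ (Finset.sum_le_sum fun r _ => h1 r)
  rw [sum_prod_fun (fun (_ : Fin t) p => if (eta1 p).1 x = 0 then (1 : ℝ) else 0),
    Finset.prod_const, Finset.card_univ, Fintype.card_fin, card_stps]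
  have hS : (0 : ℝ) ≤ Fintype.card (Stp h l n d) := by positivity
  have h3 : (0 : ℝ) ≤ 1 - (1 / 2) ^ n := by
    have : ((1 : ℝ) / 2) ^ n ≤ 1 := pow_le_one₀ (by norm_num) (by norm_num)
    linarith
  have h4 : (1 - t * (1 / 2) ^ n : ℝ) ≤ (1 - (1 / 2) ^ n) ^ t := by
    have := one_add_mul_le_pow (a := -((1 : ℝ) / 2) ^ n) (by linarith) t
    calc (1 - t * (1 / 2) ^ n : ℝ) = 1 + t * (-(1 / 2) ^ n) := by ring
      _ ≤ (1 + -(1 / 2) ^ n) ^ t := this
      _ = _ := by rw [← sub_eq_add_neg]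
  calc (1 - t * (1 / 2) ^ n) * (Fintype.card (Stp h l n d) : ℝ) ^ t
      ≤ (1 - (1 / 2) ^ n) ^ t * (Fintype.card (Stp h l n d) : ℝ) ^ t :=
        mul_le_mul_of_nonneg_right h4 (pow_nonneg hS t)
    _ = ((1 - (1 / 2) ^ n) * (Fintype.card (Stp h l n d) : ℝ)) ^ t := by rw [mul_pow]
    _ ≤ _ := pow_le_pow_left₀ (mul_nonneg h3 hS) (step_zero x) t

end Pool.Agent.KS6_6.SC
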