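import Pool.Agent.KS6_6.UG.Walsh

set_option autoImplicit false

/-!
Vector valued polynomials of low degree over the field with two elements.
-/

namespace Pool.Agent.KS6_6.SC

open Finset Pool.Agent.KS6_6.UG

variable {h l : ℕ}

/-- Functions on `F_2 ^ h` with values in `F_2 ^ l`. -/
abbrev Fnc (h l : ℕ) := (Fin h → Bool) → (Fin l → Bool)

/-- Affine forms. -/
abbrev Aff (h : ℕ) := (Fin h → Bool) × Bool

/-- Value of an affine form. -/
def aff (N : Aff h) (x : Fin h → Bool) : Bool := N.1 ⬝ᵥ x + N.2

/-- Multiplication by a scalar function. -/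
def sm (p : (Fin h → Bool) → Bool) (f : Fnc h l) : Fnc h l := fun x j => p x * f x j

theorem fnc_add_self (f : Fnc h l) : f + f = 0 := by
  funext x; exact pi_add_self _

theorem fnc_neg (f : Fnc h l) : -f = f := neg_eq_of_add_eq_zero_left (fnc_add_self f)

theorem sm_add (p : (Fin h → Bool) → Bool) (f g : Fnc h l) : sm p (f + g) = sm p f + sm p g := by
  funext x j
  simp only [sm, Pi.add_apply, mul_add]

theorem sm_zero (p : (Fin h → Bool) → Bool) : sm p (0 : Fnc h l) = 0 := by
  funext x j
  simp only [sm, Pi.zero_apply, mul_zero]

theorem add_sm (p q : (Fin h → Bool) → Bool) (f : Fnc h l) : sm (p + q) f = sm p f + sm q f := by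
  funext x j
  simp only [sm, Pi.add_apply, add_mul]

theorem sm_sm (p q : (Fin h → Bool) → Bool) (f : Fnc h l) : sm p (sm q f) = sm (p * q) f := by
  funext x j
  simp only [sm, Pi.mul_apply, mul_assoc]

theorem sm_comm (p q : (Fin h → Bool) → Bool) (f : Fnc h l) : sm p (sm q f) = sm q (sm p f) := by
  rw [sm_sm, sm_sm, mul_comm]

theorem bool_mul_self (a : Bool) : a * a = a := by cases a <;> rfl

theorem sm_idem (p : (Fin h → Bool) → Bool) (f : Fnc h l) : sm p (sm p f) = sm p f := by
  rw [sm_sm]
  have : p * p = p := by funext x; exact bool_mul_self _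
  rw [this]

theorem sm_sum {ι : Type} (s : Finset ι) (p : (Fin h → Bool) → Bool) (f : ι → Fnc h l) :
    sm p (∑ i ∈ s, f i) = ∑ i ∈ s, sm p (f i) := by
  classical
  induction s using Finset.induction_on with
  | empty => rw [Finset.sum_empty, Finset.sum_empty, sm_zero]
  | insert a s ha ih => rw [Finset.sum_insert ha, Finset.sum_insert ha, sm_add, ih]

/-- Coordinate function. -/
def crd (i : Fin h) : (Fin h → Bool) → Bool := fun x => x i

/-- Polynomials of degree at most `r` with values in `F_2 ^ l`. -/
def PP (h l : ℕ) : ℕ → AddSubgroup (Fnc h l)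
  | 0 =>
    { carrier := {f | ∀ x y, f x = f y}
      zero_mem' := fun _ _ => rfl
      add_mem' := fun {f g} hf hg x y => by
        show f x + g x = f y + g y
        rw [hf x y, hg x y]
      neg_mem' := fun {f} hf x y => by
        show -(f x) = -(f y)
        rw [hf x y] }
  | r + 1 =>
    { carrier := {f | ∃ g : Option (Fin h) → Fnc h l, (∀ o, g o ∈ PP h l r) ∧
        f = g none + ∑ i, sm (crd i) (g (some i))}
      zero_mem' := ⟨fun _ => 0, fun _ => (PP h l r).zero_mem, by simp [sm_zero]⟩
      add_mem' := fun {f f'} hf hf' => by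
        obtain ⟨g, hg, rfl⟩ := hf
        obtain ⟨g', hg', rfl⟩ := hf'
        refine ⟨fun o => g o + g' o, fun o => (PP h l r).add_mem (hg o) (hg' o), ?_⟩
        simp only [sm_add, Finset.sum_add_distrib]
        abel
      neg_mem' := fun {f} hf => by
        rw [fnc_neg]; exact hf }

theorem mem_zero (f : Fnc h l) : f ∈ PP h l 0 ↔ ∀ x y, f x = f y := Iff.rfl

theorem mem_succ (r : ℕ) (f : Fnc h l) : f ∈ PP h l (r + 1) ↔
    ∃ g : Option (Fin h) → Fnc h l, (∀ o, g o ∈ PP h l r) ∧
      f = g none + ∑ i, sm (crd i) (g (some i)) := Iff.rfl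

theorem mem_mono (r : ℕ) (f : Fnc h l) (hf : f ∈ PP h l r) : f ∈ PP h l (r + 1) := by
  rw [mem_succ]
  refine ⟨fun o => o.elim f (fun _ => 0), ?_, ?_⟩
  · intro o
    rcases o with _ | i
    · exact hf
    · exact (PP h l r).zero_mem
  · simp [sm_zero]

theorem mem_le (r s : ℕ) (hrs : r ≤ s) (f : Fnc h l) (hf : f ∈ PP h l r) : f ∈ PP h l s := by
  induction s, hrs using Nat.le_induction with
  | base => exact hf
  | succ n _ ih => exact mem_mono n f ih

/-- Multiplication by a constant. -/
theorem mem_const (r : ℕ) (b : Bool) (f : Fnc h l) (hf : f ∈ PP h l r) :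
    sm (fun _ => b) f ∈ PP h l r := by
  cases b
  · have : sm (fun _ => false) f = 0 := by
      funext x j; simp only [sm, Pi.zero_apply]
      exact zero_mul (f x j)
    rw [this]; exact (PP h l r).zero_mem
  · have : sm (fun _ => true) f = f := by
      funext x j; simp only [sm]
      exact one_mul (f x j)
    rw [this]; exact hf

theorem mem_crd (r : ℕ) (i : Fin h) (f : Fnc h l) (hf : f ∈ PP h l r) :
    sm (crd i) f ∈ PP h l (r + 1) := by
  rw [mem_succ]
  refine ⟨fun o => if o = some i then f else 0, ?_, ?_⟩
  · intro o
    by_cases ho : o = some i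
    · show (if o = some i then f else 0) ∈ _
      rw [if_pos ho]; exact hf
    · show (if o = some i then f else 0) ∈ _
      rw [if_neg ho]; exact (PP h l r).zero_mem
  · show sm (crd i) f = (if (none : Option (Fin h)) = some i then f else 0) +
      ∑ i', sm (crd i') (if some i' = some i then f else 0)
    rw [if_neg (by simp), zero_add, Finset.sum_eq_single i]
    · rw [if_pos rfl]
    · intro i' _ hi'
      rw [if_neg (by simpa using hi'), sm_zero]
    · intro h1; exact absurd (Finset.mem_univ i) h1

theorem aff_eq (N : Aff h) : aff N = (fun _ => N.2) + ∑ i, (fun _ => N.1 i) * crd i := by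
  funext x
  simp only [aff, Pi.add_apply, Finset.sum_apply, Pi.mul_apply, crd, dotProduct]
  rw [add_comm]

theorem mem_aff (r : ℕ) (N : Aff h) (f : Fnc h l) (hf : f ∈ PP h l r) :
    sm (aff N) f ∈ PP h l (r + 1) := by
  have h1 : sm (aff N) f = sm (fun _ => N.2) f + ∑ i, sm (crd i) (sm (fun _ => N.1 i) f) := by
    funext x j
    rw [aff_eq]
    simp only [sm, Pi.add_apply, Finset.sum_apply, Pi.mul_apply, crd, add_mul, Finset.sum_mul]
    congr 1
    refine Finset.sum_congr rfl fun i _ => ?_
    ring
  rw [h1]
  apply (PP h l (r + 1)).add_mem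
  · exact mem_mono r _ (mem_const r _ f hf)
  · apply AddSubgroup.sum_mem
    intro i _
    exact mem_crd r i _ (mem_const r _ f hf)

/-- Translation. -/
def trl (c : Fin h → Bool) (f : Fnc h l) : Fnc h l := fun x => f (x + c)

theorem mem_trl (r : ℕ) (c : Fin h → Bool) (f : Fnc h l) (hf : f ∈ PP h l r) :
    trl c f ∈ PP h l r := by
  induction r generalizing f with
  | zero => intro x y; exact hf _ _
  | succ r ih =>
    obtain ⟨g, hg, rfl⟩ := (mem_succ r f).mp hf
    have h1 : trl c (g none + ∑ i, sm (crd i) (g (some i))) =
        trl c (g none) + ∑ i, (sm (crd i) (trl c (g (some i))) +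
          sm (fun _ => c i) (trl c (g (some i)))) := by
      funext x j
      simp only [trl, Pi.add_apply, Finset.sum_apply, sm, crd, add_mul]
    rw [h1]
    apply (PP h l (r + 1)).add_mem
    · exact mem_mono r _ (ih _ (hg _))
    · apply AddSubgroup.sum_mem
      intro i _
      apply (PP h l (r + 1)).add_mem
      · exact mem_crd r i _ (ih _ (hg _))
      · exact mem_mono r _ (mem_const r _ _ (ih _ (hg _)))

/-- Pairing of functions. -/
def pr (α f : Fnc h l) : Bool := ∑ x, α x ⬝ᵥ f x

theorem pr_add (α f g : Fnc h l) : pr α (f + g) = pr α f + pr α g := by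
  unfold pr
  rw [← Finset.sum_add_distrib]
  exact Finset.sum_congr rfl fun x _ => dotProduct_add _ _ _

theorem add_pr (α β f : Fnc h l) : pr (α + β) f = pr α f + pr β f := by
  unfold pr
  rw [← Finset.sum_add_distrib]
  exact Finset.sum_congr rfl fun x _ => add_dotProduct _ _ _

theorem pr_zero (α : Fnc h l) : pr α 0 = 0 := by
  unfold pr
  exact Finset.sum_eq_zero fun x _ => dotProduct_zero _

theorem zero_pr (f : Fnc h l) : pr 0 f = 0 := by
  unfold pr
  exact Finset.sum_eq_zero fun x _ => zero_dotProduct _

theorem pr_sm (p : (Fin h → Bool) → Bool) (α f : Fnc h l) : pr α (sm p f) = pr (sm p α) f := by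
  unfold pr
  refine Finset.sum_congr rfl fun x _ => ?_
  unfold dotProduct sm
  exact Finset.sum_congr rfl fun j _ => by ring

/-- Support. -/
def sup (α : Fnc h l) : Finset (Fin h → Bool) := Finset.univ.filter fun x => α x ≠ 0

theorem mem_sup (α : Fnc h l) (x : Fin h → Bool) : x ∈ sup α ↔ α x ≠ 0 := by
  simp [sup]

theorem sup_sm (p : (Fin h → Bool) → Bool) (α : Fnc h l) : sup (sm p α) ⊆ sup α := by
  intro x hx
  rw [mem_sup] at hx ⊢
  intro h1
  apply hx
  funext j
  simp only [sm, h1, Pi.zero_apply, mul_zero]

theorem sup_add (α β : Fnc h l) : (sup (α + β)).card ≤ (sup α).card + (sup β).card := by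
  refine le_trans (Finset.card_le_card ?_) (Finset.card_union_le _ _)
  intro x hx
  rw [Finset.mem_union, mem_sup, mem_sup]
  rw [mem_sup] at hx
  by_contra hcon
  push Not at hcon
  apply hx
  rw [Pi.add_apply, hcon.1, hcon.2, add_zero]

theorem eq_zero_of_sup (α : Fnc h l) (hα : sup α = ∅) : α = 0 := by
  funext x
  by_contra hcon
  have : x ∈ sup α := (mem_sup α x).mpr hcon
  rw [hα] at this
  exact absurd this (Finset.notMem_empty x)

/-- Dual distance of the polynomials of degree at most `r`. -/
theorem dual_dist (r : ℕ) (α : Fnc h l) (hα : α ≠ 0) (hc : (sup α).card < 2 ^ (r + 1)) :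
    ∃ f ∈ PP h l r, pr α f = true := by
  induction r generalizing α with
  | zero =>
    -- one point
    have hne : (sup α).Nonempty := by
      rw [Finset.nonempty_iff_ne_empty]
      intro h1; exact hα (eq_zero_of_sup α h1)
    have h1 : (sup α).card = 1 := by
      have := hne.card_pos
      omega
    obtain ⟨x, hx⟩ := Finset.card_eq_one.mp h1
    have hxs : α x ≠ 0 := by
      rw [← mem_sup, hx]; exact Finset.mem_singleton_self x
    obtain ⟨j, hj⟩ : ∃ j, α x j ≠ 0 := by
      by_contra hcon
      push Not at hcon
      exact hxs (funext hcon)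
    refine ⟨fun _ => Pi.single j true, fun _ _ => rfl, ?_⟩
    unfold pr
    rw [Finset.sum_eq_single x]
    · have h2 : α x ⬝ᵥ (Pi.single j true : Fin l → Bool) = α x j * true := dotProduct_single _ _ _
      rw [h2]
      cases h3 : α x j
      · exact absurd h3 hj
      · rfl
    · intro y _ hy
      have : α y = 0 := by
        by_contra hcon
        have : y ∈ sup α := (mem_sup α y).mpr hcon
        rw [hx, Finset.mem_singleton] at this
        exact hy this
      rw [this, zero_dotProduct]
    · intro h2; exact absurd (Finset.mem_univ x) h2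
  | succ r ih =>
    by_cases hsmall : (sup α).card < 2 ^ (r + 1)
    · obtain ⟨f, hf, h1⟩ := ih α hα hsmall
      exact ⟨f, mem_mono r f hf, h1⟩
    · -- two points of the support
      have h2 : 1 < (sup α).card := by
        push Not at hsmall
        have : 1 < 2 ^ (r + 1) := Nat.one_lt_two_pow (by omega)
        omega
      obtain ⟨x, hx, y, hy, hxy⟩ := Finset.one_lt_card.mp h2
      obtain ⟨i, hi⟩ : ∃ i, x i ≠ y i := by
        by_contra hcon
        push Not at hcon
        exact hxy (funext hcon)
      -- restrictions to the two halves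
      let N : Bool → Aff h := fun b => (Pi.single i true, b)
      have hN : ∀ b z, aff (N b) z = z i + b := by
        intro b z
        simp only [aff, N, single_dotProduct]
        rw [show (true : Bool) = 1 from rfl, one_mul]
      have hsum : (sup (sm (aff (N false)) α)).card + (sup (sm (aff (N true)) α)).card =
          (sup α).card := by
        rw [← Finset.card_union_of_disjoint]
        · congr 1
          ext z
          rw [Finset.mem_union, mem_sup, mem_sup, mem_sup]
          constructor
          · rintro (h3 | h3)
            · exact (mem_sup _ _).mp (sup_sm _ _ ((mem_sup _ _).mpr h3))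
            · exact (mem_sup _ _).mp (sup_sm _ _ ((mem_sup _ _).mpr h3))
          · intro h3
            cases hz : z i
            · right
              intro h4
              apply h3
              funext j
              have := congrFun h4 j
              simp only [sm, hN, hz, Pi.zero_apply] at this
              rw [show (false + true : Bool) = 1 from rfl, one_mul] at this
              exact this
            · left
              intro h4
              apply h3
              funext j
              have := congrFun h4 j
              simp only [sm, hN, hz, Pi.zero_apply] at this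
              rw [show (true + false : Bool) = 1 from rfl, one_mul] at this
              exact this
        · rw [Finset.disjoint_left]
          intro z h3 h4
          rw [mem_sup] at h3 h4
          cases hz : z i
          · apply h3
            funext j
            simp only [sm, hN, hz, Pi.zero_apply]
            rw [show (false + false : Bool) = 0 from rfl, zero_mul]
          · apply h4
            funext j
            simp only [sm, hN, hz, Pi.zero_apply]
            rw [show (true + true : Bool) = 0 from rfl, zero_mul]
      have hne : ∀ b, sm (aff (N b)) α ≠ 0 := by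
        intro b h3
        have hz : ∃ z, α z ≠ 0 ∧ z i + b = true := by
          have hx' := (mem_sup α x).mp hx
          have hy' := (mem_sup α y).mp hy
          cases hxi : x i <;> cases hyi : y i
          · rw [hxi, hyi] at hi; exact absurd rfl hi
          · cases b
            · exact ⟨y, hy', by rw [hyi]; rfl⟩
            · exact ⟨x, hx', by rw [hxi]; rfl⟩
          · cases b
            · exact ⟨x, hx', by rw [hxi]; rfl⟩
            · exact ⟨y, hy', by rw [hyi]; rfl⟩
          · rw [hxi, hyi] at hi; exact absurd rfl hi
        obtain ⟨z, hz1, hz2⟩ := hz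
        apply hz1
        funext j
        have := congrFun (congrFun h3 z) j
        simp only [sm, hN, hz2, Pi.zero_apply] at this
        rw [show (true : Bool) = 1 from rfl, one_mul] at this
        exact this
      have hp : 2 ^ (r + 1 + 1) = 2 ^ (r + 1) + 2 ^ (r + 1) := by ring
      have hb : ∃ b, (sup (sm (aff (N b)) α)).card < 2 ^ (r + 1) := by
        by_contra hcon
        push Not at hcon
        have h3 := hcon false
        have h4 := hcon true
        omega
      obtain ⟨b, hb⟩ := hb
      obtain ⟨f, hf, h1⟩ := ih _ (hne b) hb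
      refine ⟨sm (aff (N b)) f, mem_aff r _ f hf, ?_⟩
      rw [pr_sm]; exact h1

/-- The number of polynomials. -/
theorem card_PP (r : ℕ) : Nat.card (PP h l r) ≤ (2 ^ l) ^ ((h + 1) ^ r) := by
  induction r with
  | zero =>
    have h1 : Function.Injective (fun f : PP h l 0 => f.1 (fun _ => false)) := by
      intro f g hfg
      apply Subtype.ext
      funext x
      have e1 := f.2 x (fun _ => false)
      have e2 := g.2 x (fun _ => false)
      rw [e1, e2]
      exact hfg
    have h2 := Nat.card_le_card_of_injective _ h1
    refine h2.trans (le_of_eq ?_)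
    rw [Nat.card_eq_fintype_card, Fintype.card_fun, Fintype.card_bool, Fintype.card_fin, pow_zero,
      pow_one]
  | succ r ih =>
    let F : (Option (Fin h) → PP h l r) → PP h l (r + 1) := fun g =>
      ⟨(g none).1 + ∑ i, sm (crd i) (g (some i)).1, (mem_succ r _).mpr
        ⟨fun o => (g o).1, fun o => (g o).2, rfl⟩⟩
    have hF : Function.Surjective F := by
      intro f
      obtain ⟨g, hg, h1⟩ := (mem_succ r f.1).mp f.2
      exact ⟨fun o => ⟨g o, hg o⟩, Subtype.ext h1.symm⟩
    have h2 := Nat.card_le_card_of_surjective F hF
    refine h2.trans ?_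
    rw [Nat.card_fun, Nat.card_eq_fintype_card (α := Option (Fin h)), Fintype.card_option,
      Fintype.card_fin]
    calc Nat.card (PP h l r) ^ (h + 1) ≤ ((2 ^ l) ^ ((h + 1) ^ r)) ^ (h + 1) :=
          Nat.pow_le_pow_left ih _
      _ = (2 ^ l) ^ ((h + 1) ^ (r + 1)) := by rw [← pow_mul, ← pow_succ]

end Pool.Agent.KS6_6.SC
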