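import Pool.Agent.KS6_6.SC.Fold
import Pool.Agent.KS6_6.SC.Nz

set_option autoImplicit false

/-!
Soundness of the composition of a unique game with the code of low degree polynomials.
-/

namespace Pool.Agent.KS6_6.SC

open Finset Pool.Agent.KS6_6.UG

variable {h l D : ℕ}

variable {U V R₀ R : Type} [Fintype U] [Fintype V] [Fintype R₀] [Fintype R] [DecidableEq V]
  (tb : U → R₀ → V) (cb : U → R₀ → (Fin h → Bool)) (η : R → PP h l D)

/-- The number of satisfied constraints of the composed game. -/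
noncomputable def sat (L : U → PP h l D → Fin l → Bool) (M : V → PP h l D → Fin l → Bool) : ℝ :=
  ∑ u, ∑ r₀, ∑ r, ∑ γ, ∑ b,
    if M (tb u r₀) (tr (cb u r₀) (γ + η r + cst b)) = L u γ + b then (1 : ℝ) else 0

/-- Average of the tables of the neighbors. -/
noncomputable def gg (M : V → PP h l D → Fin l → Bool) (u : U) (i : Fin l → Bool)
    (γ : PP h l D) : ℝ := (∑ r₀, fold (M (tb u r₀)) i (tr (cb u r₀) γ)) / Fintype.card R₀

omit [Fintype U] [Fintype V] [DecidableEq V] in
theorem gg_nonneg (M : V → PP h l D → Fin l → Bool) (u : U) (i : Fin l → Bool) (γ : PP h l D) :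
    0 ≤ gg tb cb M u i γ :=
  div_nonneg (Finset.sum_nonneg fun _ _ => fold_nonneg _ _ _) (by positivity)

omit [Fintype U] [Fintype V] [DecidableEq V] in
theorem sum_gg [Nonempty R₀] (M : V → PP h l D → Fin l → Bool) (u : U) (γ : PP h l D) :
    ∑ i, gg tb cb M u i γ = 1 := by
  have hc : (0 : ℝ) < Fintype.card R₀ := by exact_mod_cast Fintype.card_pos
  unfold gg
  rw [← Finset.sum_div, Finset.sum_comm]
  simp only [sum_fold, Finset.sum_const, Finset.card_univ, nsmul_eq_mul, mul_one]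
  exact div_self hc.ne'

omit [Fintype U] [Fintype V] [DecidableEq V] in
theorem gg_le_one [Nonempty R₀] (M : V → PP h l D → Fin l → Bool) (u : U) (i : Fin l → Bool)
    (γ : PP h l D) : gg tb cb M u i γ ≤ 1 := by
  rw [← sum_gg tb cb M u γ]
  exact Finset.single_le_sum (fun j _ => gg_nonneg tb cb M u j γ) (Finset.mem_univ i)

omit [Fintype U] [Fintype V] [DecidableEq V] in
theorem mean_gg [Nonempty R₀] (M : V → PP h l D → Fin l → Bool) (u : U) (i : Fin l → Bool) :
    (∑ γ, gg tb cb M u i γ) / Fintype.card (PP h l D) = 1 / 2 ^ l := by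
  have hc : (0 : ℝ) < Fintype.card R₀ := by exact_mod_cast Fintype.card_pos
  unfold gg
  rw [← Finset.sum_div, Finset.sum_comm, div_right_comm, Finset.sum_div]
  have h1 : ∀ r₀, (∑ γ, fold (M (tb u r₀)) i (tr (cb u r₀) γ)) / Fintype.card (PP h l D) =
      1 / 2 ^ l := by
    intro r₀
    rw [sum_tr (cb u r₀) (fun γ => fold (M (tb u r₀)) i γ), mean_fold]
  simp only [h1, Finset.sum_const, Finset.card_univ, nsmul_eq_mul]
  field_simp

omit [Fintype U] [Fintype V] [DecidableEq V] in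
theorem sum_gg_sq [Nonempty R₀] (M : V → PP h l D → Fin l → Bool) (u : U) (γ : PP h l D) :
    ∑ i, gg tb cb M u i γ ^ 2 ≤ 1 := by
  rw [← sum_gg tb cb M u γ]
  refine Finset.sum_le_sum fun i _ => ?_
  have h1 := gg_nonneg tb cb M u i γ
  have h2 := gg_le_one tb cb M u i γ
  nlinarith

omit [Fintype V] [DecidableEq V] in
theorem sat_eq [Nonempty R₀] [Nonempty R] (L : U → PP h l D → Fin l → Bool)
    (M : V → PP h l D → Fin l → Bool) :
    sat tb cb η L M = 2 ^ l * Fintype.card R₀ * Fintype.card R *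
      ∑ u, ∑ γ, ∑ i, fold (L u) i γ * noise η (gg tb cb M u i) γ := by
  have hc0 : (0 : ℝ) < Fintype.card R₀ := by exact_mod_cast Fintype.card_pos
  have hc1 : (0 : ℝ) < Fintype.card R := by exact_mod_cast Fintype.card_pos
  have h1 : ∀ u r₀ r, ∑ γ, ∑ b,
      (if M (tb u r₀) (tr (cb u r₀) (γ + η r + cst b)) = L u γ + b then (1 : ℝ) else 0) =
      2 ^ l * ∑ γ, ∑ i, fold (L u) i γ * fold (M (tb u r₀)) i (tr (cb u r₀) (γ + η r)) := by
    intro u r₀ r
    have h2 := fold_corr (L u) (fun γ => M (tb u r₀) (tr (cb u r₀) (γ + η r)))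
    have h3 : ∀ i γ, fold (fun γ => M (tb u r₀) (tr (cb u r₀) (γ + η r))) i γ =
        fold (M (tb u r₀)) i (tr (cb u r₀) (γ + η r)) := by
      intro i γ
      unfold fold
      congr 1
      refine Finset.sum_congr rfl fun b _ => ?_
      have e1 : tr (cb u r₀) (γ + cst b + η r) = tr (cb u r₀) (γ + η r) + cst b := by
        rw [add_right_comm, tr_add, tr_cst]
      show (if M (tb u r₀) (tr (cb u r₀) (γ + cst b + η r)) + b = i then (1 : ℝ) else 0) = _
      rw [e1]
    simp only [h3] at h2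
    rw [← h2]
    refine Finset.sum_congr rfl fun γ _ => Finset.sum_congr rfl fun b _ => ?_
    rw [add_right_comm]
  have h4 : ∀ u γ i, Fintype.card R₀ * (Fintype.card R * noise η (gg tb cb M u i) γ) =
      ∑ r₀, ∑ r, fold (M (tb u r₀)) i (tr (cb u r₀) (γ + η r)) := by
    intro u γ i
    unfold noise gg
    rw [mul_div_cancel₀ _ hc1.ne', ← Finset.sum_div, mul_div_cancel₀ _ hc0.ne', Finset.sum_comm]
  unfold sat
  simp only [h1]
  rw [Finset.mul_sum]
  refine Finset.sum_congr rfl fun u _ => ?_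
  have h5 : ∑ r₀, ∑ r, 2 ^ l * ∑ γ, ∑ i,
      fold (L u) i γ * fold (M (tb u r₀)) i (tr (cb u r₀) (γ + η r)) =
      2 ^ l * ∑ γ, ∑ i, fold (L u) i γ *
        ∑ r₀, ∑ r, fold (M (tb u r₀)) i (tr (cb u r₀) (γ + η r)) := by
    simp only [Finset.mul_sum]
    have e1 : ∀ r₀, ∑ r, ∑ γ, ∑ i, 2 ^ l * (fold (L u) i γ *
        fold (M (tb u r₀)) i (tr (cb u r₀) (γ + η r))) = ∑ γ, ∑ i, ∑ r, 2 ^ l * (fold (L u) i γ *
        fold (M (tb u r₀)) i (tr (cb u r₀) (γ + η r))) := by
      intro r₀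
      rw [Finset.sum_comm]
      refine Finset.sum_congr rfl fun γ _ => ?_
      rw [Finset.sum_comm]
    simp only [e1]
    rw [Finset.sum_comm]
    refine Finset.sum_congr rfl fun γ _ => ?_
    rw [Finset.sum_comm]
  rw [h5]
  simp only [← h4]
  simp only [Finset.mul_sum]
  refine Finset.sum_congr rfl fun γ _ => Finset.sum_congr rfl fun i _ => ?_
  ring

omit [Fintype V] [DecidableEq V] in
/-- The Cauchy–Schwarz step. -/
theorem sat_sq_le [Nonempty R₀] [Nonempty R] (L : U → PP h l D → Fin l → Bool)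
    (M : V → PP h l D → Fin l → Bool) :
    sat tb cb η L M ^ 2 ≤ (2 ^ l * Fintype.card R₀ * Fintype.card R) ^ 2 *
      ((Fintype.card U * Fintype.card (PP h l D)) *
        ∑ u, ∑ i, ∑ γ, noise η (gg tb cb M u i) γ ^ 2) := by
  rw [sat_eq, mul_pow]
  apply mul_le_mul_of_nonneg_left _ (sq_nonneg _)
  have h1 : ∑ u, ∑ γ, ∑ i, fold (L u) i γ * noise η (gg tb cb M u i) γ =
      ∑ p : U × PP h l D × (Fin l → Bool),
        fold (L p.1) p.2.2 p.2.1 * noise η (gg tb cb M p.1 p.2.2) p.2.1 := by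
    rw [Fintype.sum_prod_type]
    refine Finset.sum_congr rfl fun u _ => ?_
    rw [Fintype.sum_prod_type]
  have h2 : ∑ u, ∑ i, ∑ γ, noise η (gg tb cb M u i) γ ^ 2 =
      ∑ p : U × PP h l D × (Fin l → Bool), noise η (gg tb cb M p.1 p.2.2) p.2.1 ^ 2 := by
    rw [Fintype.sum_prod_type]
    refine Finset.sum_congr rfl fun u _ => ?_
    rw [Fintype.sum_prod_type, Finset.sum_comm]
  have h3 : ∑ p : U × PP h l D × (Fin l → Bool), fold (L p.1) p.2.2 p.2.1 ^ 2 ≤
      Fintype.card U * Fintype.card (PP h l D) := by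
    rw [Fintype.sum_prod_type]
    calc ∑ u, ∑ p : PP h l D × (Fin l → Bool), fold (L u) p.2 p.1 ^ 2
        ≤ ∑ _u : U, (Fintype.card (PP h l D) : ℝ) := by
          refine Finset.sum_le_sum fun u _ => ?_
          rw [Fintype.sum_prod_type]
          calc ∑ γ, ∑ i, fold (L u) i γ ^ 2 ≤ ∑ _γ : PP h l D, (1 : ℝ) :=
                Finset.sum_le_sum fun γ _ => sum_fold_sq (L u) γ
            _ = _ := by simp
      _ = _ := by rw [Finset.sum_const, Finset.card_univ, nsmul_eq_mul]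
  rw [h1, h2]
  refine (Finset.sum_mul_sq_le_sq_mul_sq Finset.univ _ _).trans ?_
  exact mul_le_mul_of_nonneg_right h3 (Finset.sum_nonneg fun _ _ => sq_nonneg _)

/-- Vertices with an influential label. -/
def Inf (m : ℕ) (τ : ℝ) (M : V → PP h l D → Fin l → Bool) (u : U) : Prop :=
  ∃ x i, τ < infl D m (gg tb cb M u i) x

/-- Decoding. -/
theorem decode [Nonempty R₀] (m : ℕ) (hm : 2 * m < 2 ^ (D + 1)) (τ : ℝ) (δ₀ : ℝ)
    (hbase : ∀ (a : U → Fin h → Bool) (b : V → Fin h → Bool),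
      ∑ u, ∑ r₀, (if a u + cb u r₀ = b (tb u r₀) then (1 : ℝ) else 0) ≤
        δ₀ * (Fintype.card U * Fintype.card R₀))
    (M : V → PP h l D → Fin l → Bool) [DecidablePred (Inf tb cb m τ M)] :
    (Finset.univ.filter (Inf tb cb m τ M)).card * τ ≤ m * δ₀ * Fintype.card U := by
  classical
  have hc0 : (0 : ℝ) < Fintype.card R₀ := by exact_mod_cast Fintype.card_pos
  let J : V → (Fin h → Bool) → ℝ := fun v x => ∑ i, infl D m (fold (M v) i) x
  have hJ0 : ∀ v x, 0 ≤ J v x := fun v x => Finset.sum_nonneg fun i _ => infl_nonneg _ _ _ _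
  have hJ : ∀ v, ∑ x, J v x ≤ m := fun v => sum_infl m hm (M v)
  let a : U → Fin h → Bool := fun u => if hu : Inf tb cb m τ M u then hu.choose else 0
  have ha : ∀ u, Inf tb cb m τ M u → τ * Fintype.card R₀ ≤
      ∑ r₀, J (tb u r₀) (a u + cb u r₀) := by
    intro u hu
    have h1 : a u = hu.choose := dif_pos hu
    obtain ⟨i, hi⟩ := hu.choose_spec
    rw [← h1] at hi
    have h2 := infl_avg m (fun r₀ γ => fold (M (tb u r₀)) i (tr (cb u r₀) γ)) (a u)
    have h3 : ∀ r₀, infl D m (fun γ => fold (M (tb u r₀)) i (tr (cb u r₀) γ)) (a u) ≤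
        J (tb u r₀) (a u + cb u r₀) := by
      intro r₀
      rw [infl_tr m (cb u r₀) (fold (M (tb u r₀)) i) (a u)]
      exact Finset.single_le_sum (fun j _ => infl_nonneg D m (fold (M (tb u r₀)) j)
        (a u + cb u r₀)) (Finset.mem_univ i)
    have h4 : τ ≤ (∑ r₀, J (tb u r₀) (a u + cb u r₀)) / Fintype.card R₀ := by
      refine hi.le.trans (h2.trans ?_)
      exact div_le_div_of_nonneg_right (Finset.sum_le_sum fun r₀ _ => h3 r₀) hc0.le
    rwa [le_div_iff₀ hc0] at h4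
  let n : V → (Fin h → Bool) → ℝ := fun v x =>
    ∑ u, ∑ r₀, if tb u r₀ = v ∧ a u + cb u r₀ = x then 1 else 0
  have hmax : ∀ v, ∃ x, ∀ y, n v y ≤ n v x := by
    intro v
    obtain ⟨x, _, hx⟩ := Finset.exists_max_image Finset.univ (n v) ⟨0, Finset.mem_univ _⟩
    exact ⟨x, fun y => hx y (Finset.mem_univ y)⟩
  choose b hb using hmax
  have hn0 : ∀ v x, 0 ≤ n v x := fun v x =>
    Finset.sum_nonneg fun u _ => Finset.sum_nonneg fun r₀ _ => by split_ifs <;> norm_num
  have e1 : ∑ u, ∑ r₀, J (tb u r₀) (a u + cb u r₀) = ∑ v, ∑ x, n v x * J v x := by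
    simp only [n, Finset.sum_mul]
    have : ∀ v : V, ∑ x : Fin h → Bool, ∑ u, ∑ r₀,
        (if tb u r₀ = v ∧ a u + cb u r₀ = x then (1 : ℝ) else 0) * J v x =
        ∑ u, ∑ r₀, ∑ x, (if tb u r₀ = v ∧ a u + cb u r₀ = x then (1 : ℝ) else 0) * J v x := by
      intro v
      rw [Finset.sum_comm]
      refine Finset.sum_congr rfl fun u _ => ?_
      rw [Finset.sum_comm]
    simp only [this]
    symm
    rw [Finset.sum_comm]
    refine Finset.sum_congr rfl fun u _ => ?_
    rw [Finset.sum_comm]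
    refine Finset.sum_congr rfl fun r₀ _ => ?_
    rw [Finset.sum_eq_single (tb u r₀)]
    · rw [Finset.sum_eq_single (a u + cb u r₀)]
      · rw [if_pos ⟨rfl, rfl⟩, one_mul]
      · intro x _ hx
        rw [if_neg (fun h3 => hx h3.2.symm), zero_mul]
      · intro h3; exact absurd (Finset.mem_univ _) h3
    · intro v _ hv
      apply Finset.sum_eq_zero
      intro x _
      rw [if_neg (fun h3 => hv h3.1.symm), zero_mul]
    · intro h3; exact absurd (Finset.mem_univ _) h3
  have e2 : ∑ v, n v (b v) = ∑ u, ∑ r₀, (if a u + cb u r₀ = b (tb u r₀) then (1 : ℝ) else 0) := by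
    simp only [n]
    rw [Finset.sum_comm]
    refine Finset.sum_congr rfl fun u _ => ?_
    rw [Finset.sum_comm]
    refine Finset.sum_congr rfl fun r₀ _ => ?_
    rw [Finset.sum_eq_single (tb u r₀)]
    · simp
    · intro v _ hv
      rw [if_neg (fun h3 => hv h3.1.symm)]
    · intro h3; exact absurd (Finset.mem_univ _) h3
  have h5 : ∑ v, ∑ x, n v x * J v x ≤ m * ∑ v, n v (b v) := by
    rw [Finset.mul_sum]
    refine Finset.sum_le_sum fun v _ => ?_
    calc ∑ x, n v x * J v x ≤ ∑ x, n v (b v) * J v x :=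
          Finset.sum_le_sum fun x _ => mul_le_mul_of_nonneg_right (hb v x) (hJ0 v x)
      _ = n v (b v) * ∑ x, J v x := by rw [Finset.mul_sum]
      _ ≤ n v (b v) * m := mul_le_mul_of_nonneg_left (hJ v) (hn0 v _)
      _ = _ := mul_comm _ _
  have h6 : (Finset.univ.filter (Inf tb cb m τ M)).card * (τ * Fintype.card R₀) ≤
      ∑ u, ∑ r₀, J (tb u r₀) (a u + cb u r₀) := by
    calc ((Finset.univ.filter (Inf tb cb m τ M)).card : ℝ) * (τ * Fintype.card R₀)
        = ∑ u ∈ Finset.univ.filter (Inf tb cb m τ M), τ * Fintype.card R₀ := by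
          rw [Finset.sum_const, nsmul_eq_mul]
      _ ≤ ∑ u ∈ Finset.univ.filter (Inf tb cb m τ M), ∑ r₀, J (tb u r₀) (a u + cb u r₀) :=
          Finset.sum_le_sum fun u hu => ha u (Finset.mem_filter.mp hu).2
      _ ≤ _ := Finset.sum_le_univ_sum_of_nonneg fun u =>
          Finset.sum_nonneg fun r₀ _ => hJ0 _ _
  have h7 := hbase a b
  have h8 : (Finset.univ.filter (Inf tb cb m τ M)).card * τ * Fintype.card R₀ ≤
      m * δ₀ * Fintype.card U * Fintype.card R₀ := by
    calc ((Finset.univ.filter (Inf tb cb m τ M)).card : ℝ) * τ * Fintype.card R₀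
        = (Finset.univ.filter (Inf tb cb m τ M)).card * (τ * Fintype.card R₀) := by ring
      _ ≤ ∑ u, ∑ r₀, J (tb u r₀) (a u + cb u r₀) := h6
      _ ≤ m * ∑ v, n v (b v) := by rw [e1]; exact h5
      _ ≤ m * (δ₀ * (Fintype.card U * Fintype.card R₀)) := by
          rw [e2]; exact mul_le_mul_of_nonneg_left h7 (by positivity)
      _ = _ := by ring
  exact le_of_mul_le_mul_right h8 hc0

/-- Soundness of the composed game. -/
theorem soundness [Nonempty R₀] [Nonempty R] (m : ℕ) (hm : 4 * m < 2 ^ (D + 1)) (τ : ℝ)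
    (hτ : 0 < τ) (δ₀ : ℝ)
    (hbase : ∀ (a : U → Fin h → Bool) (b : V → Fin h → Bool),
      ∑ u, ∑ r₀, (if a u + cb u r₀ = b (tb u r₀) then (1 : ℝ) else 0) ≤
        δ₀ * (Fintype.card U * Fintype.card R₀))
    (κ θ : ℝ) (hκ : 0 ≤ κ) (hθ : 0 ≤ θ)
    (heig : ∀ φ, ¬ LowC D m φ → eig η φ ^ 2 ≤ θ)
    (h1 : 2 * 36 ^ m * (1 / 2 ^ l : ℝ) ^ 3 ≤ κ ^ 2)
    (h2 : (4 * 2 ^ l) ^ (2 * m) * (m * τ) ≤ 4 ^ m * κ)
    (L : U → PP h l D → Fin l → Bool) (M : V → PP h l D → Fin l → Bool) :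
    sat tb cb η L M ^ 2 ≤ (m * δ₀ / τ + 2 ^ l * κ + θ) *
      (2 ^ l * Fintype.card R₀ * Fintype.card R * (Fintype.card U * Fintype.card (PP h l D))) ^ 2 := by
  classical
  have hP : (0 : ℝ) < Fintype.card (PP h l D) := card_pos'
  have hsq : ∀ u, ∑ i, (∑ γ, gg tb cb M u i γ ^ 2) / Fintype.card (PP h l D) ≤ 1 := by
    intro u
    rw [← Finset.sum_div, Finset.sum_comm, div_le_one hP]
    calc ∑ γ : PP h l D, ∑ i, gg tb cb M u i γ ^ 2 ≤ ∑ _γ : PP h l D, (1 : ℝ) :=
          Finset.sum_le_sum fun γ _ => sum_gg_sq tb cb M u γ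
      _ = _ := by simp
  have hall : ∀ u, ∑ i, (∑ γ, noise η (gg tb cb M u i) γ ^ 2) / Fintype.card (PP h l D) ≤ 1 := by
    intro u
    exact (Finset.sum_le_sum fun i _ => noise_contract (sepPP D) (selfPP D) η _
      (eig_sq_le η)).trans (hsq u)
  have hbad : ∀ u, ¬ Inf tb cb m τ M u →
      ∑ i, (∑ γ, noise η (gg tb cb M u i) γ ^ 2) / Fintype.card (PP h l D) ≤ 2 ^ l * κ + θ := by
    intro u hu
    have h3 : ∀ i, (∑ γ, noise η (gg tb cb M u i) γ ^ 2) / Fintype.card (PP h l D) ≤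
        κ + θ * ((∑ γ, gg tb cb M u i γ ^ 2) / Fintype.card (PP h l D)) := by
      intro i
      have h4 := noise_bound (sepPP D) (selfPP D) η (gg tb cb M u i) (LowC D m) θ hθ
        (eig_sq_le η) heig
      rw [sum_low D m (by omega)] at h4
      refine h4.trans (add_le_add_left ?_ _)
      apply low_weight_le D m hm (gg tb cb M u i) (gg_nonneg tb cb M u i)
        (gg_le_one tb cb M u i) τ hτ.le _ (1 / 2 ^ l) (mean_gg tb cb M u i) κ hκ h1 h2
      intro x
      by_contra hcon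
      push Not at hcon
      exact hu ⟨x, i, hcon⟩
    calc ∑ i, (∑ γ, noise η (gg tb cb M u i) γ ^ 2) / Fintype.card (PP h l D)
        ≤ ∑ i, (κ + θ * ((∑ γ, gg tb cb M u i γ ^ 2) / Fintype.card (PP h l D))) :=
          Finset.sum_le_sum fun i _ => h3 i
      _ = 2 ^ l * κ + θ * ∑ i, (∑ γ, gg tb cb M u i γ ^ 2) / Fintype.card (PP h l D) := by
          rw [Finset.sum_add_distrib, Finset.sum_const, Finset.card_univ, nsmul_eq_mul, card_lab,
            Finset.mul_sum]
      _ ≤ 2 ^ l * κ + θ * 1 := by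
          have := mul_le_mul_of_nonneg_left (hsq u) hθ
          linarith
      _ = _ := by ring
  have hdec := decode tb cb m (by omega) τ δ₀ hbase M
  have hU : (0 : ℝ) ≤ Fintype.card U := by positivity
  have htot : ∑ u, ∑ i, (∑ γ, noise η (gg tb cb M u i) γ ^ 2) / Fintype.card (PP h l D) ≤
      (m * δ₀ / τ + 2 ^ l * κ + θ) * Fintype.card U := by
    have h5 : ∀ u, ∑ i, (∑ γ, noise η (gg tb cb M u i) γ ^ 2) / Fintype.card (PP h l D) ≤
        (if Inf tb cb m τ M u then (1 : ℝ) else 0) + (2 ^ l * κ + θ) := by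
      intro u
      by_cases hu : Inf tb cb m τ M u
      · rw [if_pos hu]
        have := hall u
        have : 0 ≤ 2 ^ l * κ + θ := by positivity
        linarith
      · rw [if_neg hu, zero_add]; exact hbad u hu
    refine (Finset.sum_le_sum fun u _ => h5 u).trans ?_
    rw [Finset.sum_add_distrib, Finset.sum_boole, Finset.sum_const, Finset.card_univ,
      nsmul_eq_mul]
    have h6 : ((Finset.univ.filter (Inf tb cb m τ M)).card : ℝ) ≤
        m * δ₀ / τ * Fintype.card U := by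
      rw [div_mul_eq_mul_div, le_div_iff₀ hτ]
      exact hdec
    linarith
  refine (sat_sq_le tb cb η L M).trans ?_
  have h7 : ∑ u, ∑ i, ∑ γ, noise η (gg tb cb M u i) γ ^ 2 ≤
      ((m * δ₀ / τ + 2 ^ l * κ + θ) * Fintype.card U) * Fintype.card (PP h l D) := by
    rw [← div_le_iff₀ hP, Finset.sum_div]
    refine le_trans (le_of_eq ?_) htot
    exact Finset.sum_congr rfl fun u _ => Finset.sum_div _ _ _
  calc (2 ^ l * Fintype.card R₀ * Fintype.card R) ^ 2 *
      ((Fintype.card U * Fintype.card (PP h l D)) *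
        ∑ u, ∑ i, ∑ γ, noise η (gg tb cb M u i) γ ^ 2)
      ≤ (2 ^ l * Fintype.card R₀ * Fintype.card R) ^ 2 *
        ((Fintype.card U * Fintype.card (PP h l D)) *
        (((m * δ₀ / τ + 2 ^ l * κ + θ) * Fintype.card U) * Fintype.card (PP h l D))) := by
        gcongr
    _ = _ := by ring

end Pool.Agent.KS6_6.SC
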