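import Pool.Agent.KS6_6.SC.Tester

set_option autoImplicit false

/-!
The inductive step of the analysis of the random restriction test.
-/

namespace Pool.Agent.KS6_6.SC

open Finset Pool.Agent.KS6_6.UG

variable {h l : ℕ}

/-- A set of more than a quarter of all affine forms contains at least one of any two vectors and
their sum, modulo the subgroup it generates. -/
theorem quarter (A : Finset (Aff h)) (hA : Fintype.card (Aff h) < 4 * A.card)
    (W : Aff h → Prop) (hAW : ∀ N ∈ A, W N) (hadd : ∀ N M, W N → W M → W (N + M))
    (N M : Aff h) (hN : ¬ W N) (hM : ¬ W M) : W (N + M) := by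
  by_contra hNM
  let F : {x // x ∈ A} × Bool × Bool → Aff h := fun p =>
    p.1.1 + ((if p.2.1 then N else 0) + (if p.2.2 then M else 0))
  have hF : Function.Injective F := by
    rintro ⟨⟨a, ha⟩, b1, b2⟩ ⟨⟨c, hc⟩, d1, d2⟩ hEq
    have h1 : a + ((if b1 then N else 0) + (if b2 then M else 0)) =
        c + ((if d1 then N else 0) + (if d2 then M else 0)) := hEq
    have hac : W (a + c) := hadd a c (hAW a ha) (hAW c hc)
    have h2 : a + c = ((if b1 then N else 0) + (if b2 then M else 0)) +
        ((if d1 then N else 0) + (if d2 then M else 0)) := by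
      have h3 : a + c + (((if b1 then N else 0) + (if b2 then M else 0)) +
          ((if d1 then N else 0) + (if d2 then M else 0))) = 0 := by
        calc a + c + (((if b1 then N else 0) + (if b2 then M else 0)) +
            ((if d1 then N else 0) + (if d2 then M else 0)))
            = (a + ((if b1 then N else 0) + (if b2 then M else 0))) +
              (c + ((if d1 then N else 0) + (if d2 then M else 0))) := by abel
          _ = 0 := by rw [h1]; exact aff_add_self _
      calc a + c = a + c + (((if b1 then N else 0) + (if b2 then M else 0)) +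
            ((if d1 then N else 0) + (if d2 then M else 0)) +
            (((if b1 then N else 0) + (if b2 then M else 0)) +
            ((if d1 then N else 0) + (if d2 then M else 0)))) := by rw [aff_add_self, add_zero]
        _ = (a + c + (((if b1 then N else 0) + (if b2 then M else 0)) +
            ((if d1 then N else 0) + (if d2 then M else 0)))) +
            (((if b1 then N else 0) + (if b2 then M else 0)) +
            ((if d1 then N else 0) + (if d2 then M else 0))) := by abel
        _ = _ := by rw [h3, zero_add]
    have hP : ∀ (K : Aff h) (b d : Bool), (if b then K else 0) + (if d then K else 0) =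
        if xor b d then K else 0 := by
      intro K b d
      cases b <;> cases d <;> simp [aff_add_self]
    have h4 : ((if b1 then N else 0) + (if b2 then M else 0)) +
        ((if d1 then N else 0) + (if d2 then M else 0)) =
        (if xor b1 d1 then N else 0) + (if xor b2 d2 then M else 0) := by
      rw [← hP, ← hP]; abel
    have key : b1 = d1 ∧ b2 = d2 := by
      rw [h2, h4] at hac
      cases hx : xor b1 d1 <;> cases hy : xor b2 d2 <;> rw [hx, hy] at hac
      · constructor
        · revert hx; cases b1 <;> cases d1 <;> decide
        · revert hy; cases b2 <;> cases d2 <;> decide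
      · simp only [if_true, if_false, Bool.false_eq_true, add_zero, zero_add] at hac
        exact absurd hac hM
      · simp only [if_true, if_false, Bool.false_eq_true, add_zero, zero_add] at hac
        exact absurd hac hN
      · simp only [if_true] at hac
        exact absurd hac hNM
    obtain ⟨rfl, rfl⟩ := key
    have h5 : a = c := add_right_cancel h1
    subst h5
    rfl
  have hc := Fintype.card_le_of_injective F hF
  rw [Fintype.card_prod, Fintype.card_prod, Fintype.card_bool, Fintype.card_coe] at hc
  omega

/-- The inductive step. -/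
theorem step (s m : ℕ) (hm : 2 * m < 2 ^ (s + 1)) (Φ : Fnc h l → Bool) (hΦ : AddOn (s + 2) Φ)
    (A : Finset (Aff h)) (hA : Fintype.card (Aff h) < 4 * A.card)
    (hlow : ∀ N ∈ A, LowAt (s + 1) m (fun f => Φ (sm (aff N) f))) :
    LowAt (s + 2) (4 * m + 4) Φ := by
  classical
  have hchoose : ∀ N : Aff h, ∃ α : Fnc h l, N ∈ A → (sup α).card ≤ m ∧
      ∀ f ∈ PP h l (s + 1), Φ (sm (aff N) f) = pr α f := by
    intro N
    by_cases hN : N ∈ A
    · obtain ⟨α, h1⟩ := hlow N hN
      exact ⟨α, fun _ => h1⟩
    · exact ⟨0, fun hN' => absurd hN' hN⟩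
  choose α hα using hchoose
  -- the supports
  have hcompl : ∀ (N : Aff h) (f : Fnc h l), sm (aff N) (sm (aff (N + (0, true))) f) = 0 := by
    intro N f
    rw [sm_sm, aff_add, aff_one]
    have : aff N * (aff N + 1) = 0 := by
      funext x
      simp only [Pi.mul_apply, Pi.add_apply, Pi.one_apply, Pi.zero_apply]
      cases aff N x <;> rfl
    rw [this]
    funext x j
    simp only [sm, Pi.zero_apply, zero_mul]
  have h1 : ∀ N ∈ A, sm (aff (N + (0, true))) (α N) = 0 := by
    intro N hN
    by_contra hne
    have hc : (sup (sm (aff (N + (0, true))) (α N))).card < 2 ^ (s + 1) := by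
      have e1 := Finset.card_le_card (sup_sm (aff (N + (0, true))) (α N))
      have e2 := (hα N hN).1
      omega
    obtain ⟨f, hf, hpr⟩ := dual_dist s _ hne hc
    rw [← pr_sm, ← (hα N hN).2 _ (mem_aff s _ f hf), hcompl, hΦ.zero] at hpr
    exact absurd hpr (by decide)
  have h1' : ∀ N ∈ A, ∀ x, aff N x = false → α N x = 0 := by
    intro N hN x hx
    funext j
    have := congrFun (congrFun (h1 N hN) x) j
    simp only [sm, Pi.zero_apply] at this
    rw [aff_add, aff_one, Pi.add_apply, hx, Pi.one_apply] at this
    rw [show (false + 1 : Bool) = 1 from rfl, one_mul] at this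
    exact this
  -- compatibility
  have h2 : ∀ N ∈ A, ∀ M ∈ A, sm (aff M) (α N) = sm (aff N) (α M) := by
    intro N hN M hM
    by_contra hne
    have hne' : sm (aff M) (α N) + sm (aff N) (α M) ≠ 0 := by
      intro h3
      apply hne
      have := add_eq_zero_iff_eq_neg.mp h3
      rw [fnc_neg] at this
      exact this
    have hc : (sup (sm (aff M) (α N) + sm (aff N) (α M))).card < 2 ^ (s + 1) := by
      have e0 := sup_add (sm (aff M) (α N)) (sm (aff N) (α M))
      have e1 := Finset.card_le_card (sup_sm (aff M) (α N))
      have e2 := Finset.card_le_card (sup_sm (aff N) (α M))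
      have e3 := (hα N hN).1
      have e4 := (hα M hM).1
      omega
    obtain ⟨f, hf, hpr⟩ := dual_dist s _ hne' hc
    rw [add_pr, ← pr_sm, ← pr_sm, ← (hα N hN).2 _ (mem_aff s _ f hf),
      ← (hα M hM).2 _ (mem_aff s _ f hf), sm_comm, bool_add_self] at hpr
    exact absurd hpr (by decide)
  -- gluing
  let β : Fnc h l := fun x => if hx : ∃ N ∈ A, aff N x = true then α hx.choose x else 0
  have h3 : ∀ N ∈ A, α N = sm (aff N) β := by
    intro N hN
    funext x j
    simp only [sm]
    cases hNx : aff N x
    · rw [h1' N hN x hNx]
      exact (zero_mul _).symm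
    · have hx : ∃ N ∈ A, aff N x = true := ⟨N, hN, hNx⟩
      have hβ : β x = α hx.choose x := dif_pos hx
      rw [hβ]
      have hs := hx.choose_spec
      have h4 := congrFun (congrFun (h2 N hN _ hs.1) x) j
      simp only [sm] at h4
      rw [hNx, hs.2] at h4
      have h5 : true * α N x j = α N x j := one_mul _
      rw [← h5]
      exact h4
  have hβsup : (sup β).card < 4 * m + 4 := by
    apply small_of_sections m (sup β) A hA
    intro N hN
    refine le_trans (Finset.card_le_card ?_) (hα N hN).1
    intro x hx
    rw [Finset.mem_filter, mem_sup] at hx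
    rw [mem_sup, h3 N hN]
    intro h4
    apply hx.1
    funext j
    have := congrFun h4 j
    simp only [sm, hx.2] at this
    rw [show (true : Bool) = 1 from rfl, one_mul] at this
    exact this
  -- the difference
  let Ψ : Fnc h l → Bool := fun f => Φ f + pr β f
  have hΨ : AddOn (s + 2) Ψ := by
    intro f hf g hg
    show Φ (f + g) + pr β (f + g) = (Φ f + pr β f) + (Φ g + pr β g)
    rw [hΦ f hf g hg, pr_add]; ring
  let W : Aff h → Prop := fun N => ∀ G ∈ PP h l (s + 1), Ψ (sm (aff N) G) = 0
  have hAW : ∀ N ∈ A, W N := by
    intro N hN G hG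
    show Φ (sm (aff N) G) + pr β (sm (aff N) G) = 0
    rw [(hα N hN).2 G hG, pr_sm, ← h3 N hN, bool_add_self]
  have hWadd : ∀ N M, W N → W M → W (N + M) := by
    intro N M hN hM G hG
    rw [aff_add, add_sm, hΨ _ (mem_aff _ _ _ hG) _ (mem_aff _ _ _ hG), hN G hG, hM G hG, add_zero]
  have hq := quarter A hA W hAW hWadd
  have hsc : ∀ (b : Bool) (N : Aff h) (G : Fnc h l), G ∈ PP h l (s + 1) →
      (b = true → W N) → sm (fun _ => b) (sm (aff N) G) ∈ PP h l (s + 2) :=
    fun b N G hG _ => mem_const _ _ _ (mem_aff _ _ _ hG)
  by_cases hone : W (0, true)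
  · -- everything is in `W`
    have hall : ∀ N, W N := by
      by_contra hcon
      push Not at hcon
      obtain ⟨N₀, hN₀⟩ := hcon
      apply hN₀
      intro G hG
      obtain ⟨g, hg, rfl⟩ := (mem_succ s G).mp hG
      have hΨ1 : ∀ F ∈ PP h l (s + 1), Ψ F = 0 := by
        intro F hF
        have := hone F hF
        rw [aff_one, one_sm] at this
        exact this
      have hmem : ∀ o, sm (aff N₀) (g o) ∈ PP h l (s + 1) := fun o => mem_aff s _ _ (hg o)
      rw [sm_add, sm_sum, hΨ _ (mem_mono _ _ (hmem none)) _ (AddSubgroup.sum_mem _ fun i _ => by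
        rw [sm_comm]; exact mem_crd _ _ _ (hmem _)), hΨ1 _ (hmem none), zero_add,
        hΨ.sum _ _ (fun i _ => by rw [sm_comm]; exact mem_crd _ _ _ (hmem _))]
      apply Finset.sum_eq_zero
      intro i _
      rw [sm_comm]
      by_cases hi : W ((Pi.single i true, false) : Aff h)
      · have := hi _ (hmem (some i))
        rw [aff_single] at this
        exact this
      · have h5 := hq N₀ _ hN₀ hi _ (hmem (some i))
        rw [aff_add, add_sm, hΨ _ (mem_aff _ _ _ (hmem _)) _ (mem_aff _ _ _ (hmem _)), aff_single,
          sm_idem, hΨ1 _ (hmem _), zero_add] at h5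
        exact h5
    refine ⟨β, hβsup.le, ?_⟩
    intro f hf
    have hΨf : Ψ f = 0 := by
      obtain ⟨g, hg, rfl⟩ := (mem_succ (s + 1) f).mp hf
      have hΨ1 : ∀ F ∈ PP h l (s + 1), Ψ F = 0 := by
        intro F hF
        have := hone F hF
        rw [aff_one, one_sm] at this
        exact this
      rw [hΨ _ (mem_mono _ _ (hg none)) _ (AddSubgroup.sum_mem _ fun i _ =>
        mem_crd _ _ _ (hg _)), hΨ1 _ (hg none), zero_add,
        hΨ.sum _ _ (fun i _ => mem_crd _ _ _ (hg _))]
      apply Finset.sum_eq_zero
      intro i _
      have := hall ((Pi.single i true, false) : Aff h) _ (hg (some i))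
      rw [aff_single] at this
      exact this
    have h6 : Φ f + pr β f = 0 := hΨf
    calc Φ f = Φ f + (pr β f + pr β f) := by rw [bool_add_self, add_zero]
      _ = (Φ f + pr β f) + pr β f := by ring
      _ = pr β f := by rw [h6, zero_add]
  · -- evaluation at a point
    let x0 : Fin h → Bool := fun i => decide (¬ W ((Pi.single i true, false) : Aff h))
    have hx0 : ∀ i, ∀ G ∈ PP h l (s + 1), Ψ (sm (crd i) G) = x0 i * Ψ G := by
      intro i G hG
      by_cases hi : W ((Pi.single i true, false) : Aff h)
      · have e1 : x0 i = false := by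
          simp only [x0, hi, not_true_eq_false, decide_false]
        have := hi G hG
        rw [aff_single] at this
        rw [e1, this]
        exact (zero_mul _).symm
      · have e1 : x0 i = true := by
          simp only [x0, hi, not_false_eq_true, decide_true]
        have h5 := hq _ _ hi hone G hG
        rw [aff_add, add_sm, hΨ _ (mem_aff _ _ _ hG) _ (mem_aff _ _ _ hG), aff_single, aff_one,
          one_sm] at h5
        rw [e1, show (true : Bool) = 1 from rfl, one_mul]
        have h6 := add_eq_zero_iff_eq_neg.mp h5
        rw [h6]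
        exact neg_eq_of_add_eq_zero_left (bool_add_self _)
    have hind : ∀ j, j ≤ s + 2 → ∀ f ∈ PP h l j, Ψ f = Ψ (fun _ => f x0) := by
      intro j
      induction j with
      | zero =>
        intro _ f hf
        congr 1
        funext x
        exact hf x x0
      | succ j ih =>
        intro hj f hf
        obtain ⟨g, hg, rfl⟩ := (mem_succ j f).mp hf
        have hg' : ∀ o, g o ∈ PP h l (s + 1) := fun o => mem_le j (s + 1) (by omega) _ (hg o)
        have hconst : ∀ v : Fin l → Bool, (fun _ => v : Fnc h l) ∈ PP h l (s + 1) :=
          fun v => mem_le 0 (s + 1) (by omega) _ (fun _ _ => rfl)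
        have hconst2 : ∀ v : Fin l → Bool, (fun _ => v : Fnc h l) ∈ PP h l (s + 2) :=
          fun v => mem_mono _ _ (hconst v)
        rw [hΨ _ (mem_mono _ _ (hg' none)) _ (AddSubgroup.sum_mem _ fun i _ =>
          mem_crd _ _ _ (hg' _)), hΨ.sum _ _ (fun i _ => mem_crd _ _ _ (hg' _))]
        have e1 : (fun _ => (g none + ∑ i, sm (crd i) (g (some i))) x0 : Fnc h l) =
            (fun _ => g none x0) + ∑ i, sm (fun _ => x0 i) (fun _ => g (some i) x0) := by
          funext y j
          simp only [Pi.add_apply, Finset.sum_apply, sm, crd]
        rw [e1, hΨ _ (hconst2 _) _ (AddSubgroup.sum_mem _ fun i _ => mem_const _ _ _ (hconst2 _)),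
          hΨ.sum _ _ (fun i _ => mem_const _ _ _ (hconst2 _)), ih (by omega) _ (hg none)]
        congr 1
        refine Finset.sum_congr rfl fun i _ => ?_
        rw [hx0 i _ (hg' _), ih (by omega) _ (hg (some i))]
        cases x0 i
        · have e2 : sm (fun _ => false) (fun _ => g (some i) x0 : Fnc h l) = 0 := by
            funext y j
            simp only [sm, Pi.zero_apply]
            exact zero_mul _
          rw [e2, hΨ.zero]
          exact zero_mul _
        · have e2 : sm (fun _ => true) (fun _ => g (some i) x0 : Fnc h l) =
              fun _ => g (some i) x0 := by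
            funext y j
            simp only [sm]
            exact one_mul _
          rw [e2]
          exact one_mul _
    let v : Fin l → Bool := fun j => Ψ (fun _ => Pi.single j true)
    have hv : ∀ u : Fin l → Bool, Ψ (fun _ => u) = v ⬝ᵥ u := by
      intro u
      have e1 : (fun _ => u : Fnc h l) = ∑ j, sm (fun _ => u j) (fun _ => Pi.single j true) := by
        funext y j
        simp only [Finset.sum_apply, sm]
        rw [Finset.sum_eq_single j]
        · rw [Pi.single_eq_same, show (true : Bool) = 1 from rfl, mul_one]
        · intro j' _ hj'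
          rw [Pi.single_eq_of_ne (Ne.symm hj')]
          exact mul_zero _
        · intro h6; exact absurd (Finset.mem_univ j) h6
      have hc : ∀ w : Fin l → Bool, (fun _ => w : Fnc h l) ∈ PP h l (s + 2) :=
        fun w => mem_le 0 (s + 2) (by omega) _ (fun _ _ => rfl)
      rw [e1, hΨ.sum _ _ (fun i _ => mem_const _ _ _ (hc _))]
      unfold dotProduct
      refine Finset.sum_congr rfl fun j _ => ?_
      cases u j
      · have e2 : sm (fun _ => false) (fun _ => Pi.single j true : Fnc h l) = 0 := by
          funext y j
          simp only [sm, Pi.zero_apply]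
          exact zero_mul _
        rw [e2, hΨ.zero]
        exact (mul_zero _).symm
      · have e2 : sm (fun _ => true) (fun _ => Pi.single j true : Fnc h l) =
            fun _ => Pi.single j true := by
          funext y j
          simp only [sm]
          exact one_mul _
        rw [e2]
        exact (mul_one (v j)).symm
    refine ⟨β + Pi.single x0 v, ?_, ?_⟩
    · have e1 := sup_add β (Pi.single x0 v)
      have e2 : (sup (Pi.single x0 v : Fnc h l)).card ≤ 1 := by
        rw [Finset.card_le_one]
        intro a ha b hb
        rw [mem_sup] at ha hb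
        have ha' : a = x0 := by
          by_contra hne
          exact ha (by rw [Pi.single_eq_of_ne hne])
        have hb' : b = x0 := by
          by_contra hne
          exact hb (by rw [Pi.single_eq_of_ne hne])
        rw [ha', hb']
      omega
    · intro f hf
      rw [add_pr]
      have e1 : pr (Pi.single x0 v) f = v ⬝ᵥ f x0 := by
        unfold pr
        rw [Finset.sum_eq_single x0]
        · rw [Pi.single_eq_same]
        · intro y _ hy
          rw [Pi.single_eq_of_ne hy, zero_dotProduct]
        · intro h6; exact absurd (Finset.mem_univ x0) h6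
      rw [e1, ← hv, ← hind (s + 2) le_rfl f hf]
      show Φ f = pr β f + (Φ f + pr β f)
      calc Φ f = Φ f + (pr β f + pr β f) := by rw [bool_add_self, add_zero]
        _ = _ := by ring

end Pool.Agent.KS6_6.SC
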