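import Pool.Agent.KS6_6.SC.Poly
import Pool.Agent.KS6_6.UG.Ortho

set_option autoImplicit false

/-!
Restricting a linear functional on polynomials to the multiples of a random affine form: if often
the restriction is an evaluation at few points, then so is the functional.
-/

namespace Pool.Agent.KS6_6.SC

open Finset Pool.Agent.KS6_6.UG

variable {h l : ℕ}

/-- `Φ` agrees on the polynomials of degree at most `r` with the pairing with a function whose
support has at most `m` points. -/
def LowAt (r m : ℕ) (Φ : Fnc h l → Bool) : Prop :=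
  ∃ α : Fnc h l, (sup α).card ≤ m ∧ ∀ f ∈ PP h l r, Φ f = pr α f

/-- `Φ` is additive on the polynomials of degree at most `r`. -/
def AddOn (r : ℕ) (Φ : Fnc h l → Bool) : Prop :=
  ∀ f ∈ PP h l r, ∀ g ∈ PP h l r, Φ (f + g) = Φ f + Φ g

theorem AddOn.zero {r : ℕ} {Φ : Fnc h l → Bool} (hΦ : AddOn r Φ) : Φ 0 = 0 := by
  have h1 := hΦ 0 (PP h l r).zero_mem 0 (PP h l r).zero_mem
  rw [add_zero, bool_add_self] at h1
  exact h1

theorem AddOn.sum {r : ℕ} {Φ : Fnc h l → Bool} (hΦ : AddOn r Φ) {ι : Type} (s : Finset ι)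
    (f : ι → Fnc h l) (hf : ∀ i ∈ s, f i ∈ PP h l r) : Φ (∑ i ∈ s, f i) = ∑ i ∈ s, Φ (f i) := by
  classical
  induction s using Finset.induction_on with
  | empty => rw [Finset.sum_empty, Finset.sum_empty, hΦ.zero]
  | insert a s ha ih =>
    rw [Finset.sum_insert ha, Finset.sum_insert ha, hΦ _ (hf a (Finset.mem_insert_self a s)) _
      (AddSubgroup.sum_mem _ fun i hi => hf i (Finset.mem_insert_of_mem hi)),
      ih fun i hi => hf i (Finset.mem_insert_of_mem hi)]

theorem aff_add (N M : Aff h) : aff (N + M) = aff N + aff M := by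
  funext x
  simp only [aff, Pi.add_apply, Prod.fst_add, Prod.snd_add, add_dotProduct]
  ring

theorem aff_one : aff ((0, true) : Aff h) = 1 := by
  funext x
  simp only [aff, zero_dotProduct, Pi.one_apply, zero_add]
  rfl

theorem aff_single (i : Fin h) : aff ((Pi.single i true, false) : Aff h) = crd i := by
  funext x
  simp only [aff, single_dotProduct, crd]
  rw [show (true : Bool) = 1 from rfl, one_mul]
  exact add_zero _

theorem aff_add_self (N : Aff h) : N + N = 0 := by
  apply Prod.ext
  · exact pi_add_self _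
  · exact bool_add_self _

theorem one_sm (f : Fnc h l) : sm 1 f = f := by
  funext x j
  simp only [sm, Pi.one_apply, one_mul]

/-- Pairwise independence of the values of affine forms. -/
theorem sum_aff_sg (x y : Fin h → Bool) :
    ∑ N : Aff h, sg (aff N x) * sg (aff N y) = if x = y then (2 : ℝ) ^ (h + 1) else 0 := by
  have h1 : ∀ N : Aff h, sg (aff N x) * sg (aff N y) = sg (N.1 ⬝ᵥ (x + y)) := by
    intro N
    rw [← sg_add]
    congr 1
    simp only [aff, dotProduct_add]
    rw [show N.1 ⬝ᵥ x + N.2 + (N.1 ⬝ᵥ y + N.2) = N.1 ⬝ᵥ x + N.1 ⬝ᵥ y + (N.2 + N.2) by ring,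
      bool_add_self, add_zero]
  simp only [h1]
  rw [Fintype.sum_prod_type]
  simp only [Finset.sum_const, Finset.card_univ, Fintype.card_bool, nsmul_eq_mul, ← Finset.mul_sum]
  have h2 : ∀ a z : Fin h → Bool, sg (a ⬝ᵥ z) = ∏ i, sg (a i * z i) := by
    intro a z
    unfold dotProduct
    have : ∀ s : Finset (Fin h), sg (∑ i ∈ s, a i * z i) = ∏ i ∈ s, sg (a i * z i) := by
      intro s
      induction s using Finset.induction_on with
      | empty => rw [Finset.sum_empty, Finset.prod_empty]; rfl
      | insert b s hb ih => rw [Finset.sum_insert hb, Finset.prod_insert hb, sg_add, ih]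
    exact this _
  simp only [h2]
  rw [sum_prod_cube (fun i b => sg (b * (x + y) i))]
  by_cases hxy : x = y
  · subst hxy
    rw [if_pos rfl, pi_add_self]
    have : ∀ i : Fin h, sg (true * (0 : Fin h → Bool) i) + sg (false * (0 : Fin h → Bool) i) =
        2 := by
      intro i
      have e1 : (true * (0 : Fin h → Bool) i : Bool) = false := rfl
      have e2 : (false * (0 : Fin h → Bool) i : Bool) = false := rfl
      rw [e1, e2]; norm_num
    simp only [this, Finset.prod_const, Finset.card_univ, Fintype.card_fin]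
    push_cast; ring
  · rw [if_neg hxy]
    obtain ⟨i, hi⟩ : ∃ i, x i ≠ y i := by
      by_contra hcon
      push Not at hcon
      exact hxy (funext hcon)
    have : ∏ i, (sg (true * (x + y) i) + sg (false * (x + y) i)) = 0 := by
      apply Finset.prod_eq_zero (Finset.mem_univ i)
      have e1 : (x + y) i = true := by
        rw [Pi.add_apply]
        cases hx : x i <;> cases hy : y i
        · rw [hx, hy] at hi; exact absurd rfl hi
        · rfl
        · rfl
        · rw [hx, hy] at hi; exact absurd rfl hi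
      rw [e1]
      have e2 : (true * true : Bool) = true := rfl
      have e3 : (false * true : Bool) = false := rfl
      rw [e2, e3]; norm_num
    rw [this]; ring

theorem card_aff : Fintype.card (Aff h) = 2 ^ (h + 1) := by
  simp [Aff, Fintype.card_prod, pow_succ]

/-- A set which meets many hyperplanes in at most `m` points is small. -/
theorem small_of_sections (m : ℕ) (B : Finset (Fin h → Bool)) (A : Finset (Aff h))
    (hA : Fintype.card (Aff h) < 4 * A.card)
    (hB : ∀ N ∈ A, (B.filter fun x => aff N x = true).card ≤ m) : B.card < 4 * m + 4 := by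
  by_contra hcon
  push Not at hcon
  have h1 : ∑ N : Aff h, (∑ x ∈ B, sg (aff N x)) ^ 2 = (2 : ℝ) ^ (h + 1) * B.card := by
    have : ∀ N : Aff h, (∑ x ∈ B, sg (aff N x)) ^ 2 =
        ∑ x ∈ B, ∑ y ∈ B, sg (aff N x) * sg (aff N y) := by
      intro N; rw [sq, Finset.sum_mul_sum]
    simp only [this]
    rw [Finset.sum_comm]
    have h2 : ∀ x ∈ B, ∑ N : Aff h, ∑ y ∈ B, sg (aff N x) * sg (aff N y) = 2 ^ (h + 1) := by
      intro x hx
      rw [Finset.sum_comm]
      simp only [sum_aff_sg]
      rw [Finset.sum_ite_eq, if_pos hx]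
    rw [Finset.sum_congr rfl h2, Finset.sum_const, nsmul_eq_mul, mul_comm]
  have h3 : ∀ N ∈ A, ((B.card : ℝ) - 2 * m) ^ 2 ≤ (∑ x ∈ B, sg (aff N x)) ^ 2 := by
    intro N hN
    have e1 : ∀ x, sg (aff N x) = 1 - 2 * (if aff N x = true then (1 : ℝ) else 0) := by
      intro x
      cases aff N x <;> norm_num
    have e2 : ∑ x ∈ B, sg (aff N x) =
        (B.card : ℝ) - 2 * (B.filter fun x => aff N x = true).card := by
      simp only [e1]
      rw [Finset.sum_sub_distrib, ← Finset.mul_sum, Finset.sum_boole, Finset.sum_const,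
        nsmul_eq_mul, mul_one]
    rw [e2]
    have e3 : ((B.filter fun x => aff N x = true).card : ℝ) ≤ m := by exact_mod_cast hB N hN
    have e4 : (4 * m + 4 : ℝ) ≤ B.card := by exact_mod_cast hcon
    have e5 : (0 : ℝ) ≤ m := by positivity
    apply pow_le_pow_left₀ <;> linarith
  have h4 : (A.card : ℝ) * ((B.card : ℝ) - 2 * m) ^ 2 ≤ (2 : ℝ) ^ (h + 1) * B.card := by
    rw [← h1]
    calc (A.card : ℝ) * ((B.card : ℝ) - 2 * m) ^ 2 = ∑ N ∈ A, ((B.card : ℝ) - 2 * m) ^ 2 := by
          rw [Finset.sum_const, nsmul_eq_mul]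
      _ ≤ ∑ N ∈ A, (∑ x ∈ B, sg (aff N x)) ^ 2 := Finset.sum_le_sum h3
      _ ≤ ∑ N : Aff h, (∑ x ∈ B, sg (aff N x)) ^ 2 :=
          Finset.sum_le_univ_sum_of_nonneg fun _ => sq_nonneg _
  have h5 : (2 : ℝ) ^ (h + 1) < 4 * A.card := by
    rw [card_aff] at hA
    exact_mod_cast hA
  have e4 : (4 * m + 4 : ℝ) ≤ B.card := by exact_mod_cast hcon
  have e5 : (0 : ℝ) ≤ m := by positivity
  have h6 : ((B.card : ℝ) / 2 + 2) ^ 2 ≤ ((B.card : ℝ) - 2 * m) ^ 2 := by
    apply pow_le_pow_left₀
    · positivity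
    · linarith
  have h7 : 4 * (B.card : ℝ) ≤ ((B.card : ℝ) - 2 * m) ^ 2 := by
    nlinarith [sq_nonneg ((B.card : ℝ) / 2 - 2)]
  have hA0 : (0 : ℝ) ≤ A.card := by positivity
  have h8 : 4 * (A.card : ℝ) * B.card ≤ 2 ^ (h + 1) * B.card := by
    calc 4 * (A.card : ℝ) * B.card = A.card * (4 * B.card) := by ring
      _ ≤ A.card * ((B.card : ℝ) - 2 * m) ^ 2 := mul_le_mul_of_nonneg_left h7 hA0
      _ ≤ _ := h4
  have hB0 : (0 : ℝ) < B.card := by linarith
  have h9 := le_of_mul_le_mul_right h8 hB0
  linarith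

end Pool.Agent.KS6_6.SC
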